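import Pool.Agent.H26.GN.Df

/-!
MP_78d38b_GN (helper26): functionals on modules over a ring with trace form.
-/

set_option autoImplicit false
open scoped Classical

namespace H26GN

variable {B : Type} [Ring B] [TR B] [Finite B]

/-- Every additive functional on `B` is given by an element. -/
theorem exists_rep (l : B →+ ZMod 2) : ∃ b : B, ∀ c, l c = tau (c * b) := by
  letI : Module (ZMod 2) B := AddCommGroup.zmodModule (fun x => by rw [two_nsmul]; exact add_self x)
  let Φ : B →ₗ[ZMod 2] Module.Dual (ZMod 2) B :=
    AddMonoidHom.toZModLinearMap 2 (AddMonoidHom.mk' (fun b : B =>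
      (AddMonoidHom.toZModLinearMap 2 ((tauH B).comp (AddMonoidHom.mulRight b)) : B →ₗ[ZMod 2] ZMod 2))
      (fun b b' => by
        apply LinearMap.ext
        intro c
        change tau (c * (b + b')) = tau (c * b) + tau (c * b')
        rw [mul_add, tau_add]))
  have hΦ : ∀ b c, Φ b c = tau (c * b) := fun b c => rfl
  have hinj : Function.Injective Φ := by
    rw [← LinearMap.ker_eq_bot, LinearMap.ker_eq_bot']
    intro b hb
    apply eq_zero_of_tau
    intro x
    rw [← hΦ, hb]
    rfl
  have hfin : Module.Finite (ZMod 2) B := Module.Finite.of_finite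
  have hsurj : Function.Surjective Φ :=
    (LinearMap.injective_iff_surjective_of_finrank_eq_finrank (Subspace.dual_finrank_eq).symm).1 hinj
  obtain ⟨b, hb⟩ := hsurj (AddMonoidHom.toZModLinearMap 2 l)
  refine ⟨b, fun c => ?_⟩
  rw [← hΦ, hb]
  rfl

omit [Finite B] in
theorem eq_of_tau {a b : B} (h : ∀ x : B, tau (x * a) = tau (x * b)) : a = b := by
  have h1 : a + b = 0 := by
    apply eq_zero_of_tau
    intro x
    rw [mul_add, tau_add, h x]
    exact CharTwo.add_self_eq_zero _
  have h2 : a + b = b + b := by rw [h1, add_self]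
  exact add_right_cancel h2

/-- Every additive functional is the trace of a linear one. -/
theorem exists_lin {X : Type} [AddCommGroup X] [Module B X] (l : X →+ ZMod 2) :
    ∃ φ : X →ₗ[B] B, ∀ x, tau (φ x) = l x := by
  have h : ∀ x : X, ∃ b : B, ∀ c : B, l (c • x) = tau (c * b) := by
    intro x
    obtain ⟨b, hb⟩ := exists_rep (l.comp (AddMonoidHom.mk' (fun c : B => c • x)
      (fun c c' => add_smul c c' x)))
    exact ⟨b, fun c => hb c⟩
  choose f hf using h
  refine ⟨⟨⟨f, fun x y => ?_⟩, fun a x => ?_⟩, fun x => ?_⟩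
  · apply eq_of_tau
    intro c
    rw [← hf, smul_add, map_add, hf, hf, mul_add, tau_add]
  · apply eq_of_tau
    intro c
    change tau (c * f (a • x)) = tau (c * (a * f x))
    rw [← hf, ← mul_smul, hf, mul_assoc]
  · change tau (f x) = l x
    have h := hf x 1
    rw [one_smul, one_mul] at h
    exact h.symm

/-- Every additive functional on `ι → B` is given by an element. -/
theorem repr {ι : Type} [Fintype ι] (μ : (ι → B) →+ ZMod 2) :
    ∃ a : ι → B, ∀ w, μ w = tau (∑ i, a i * st (w i)) := by
  have h : ∀ i : ι, ∃ b : B, ∀ c : B, μ (Pi.single i (st c)) = tau (c * b) := by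
    intro i
    obtain ⟨b, hb⟩ := exists_rep ((μ.comp (AddMonoidHom.single (fun _ => B) i)).comp (stH B))
    exact ⟨b, fun c => hb c⟩
  choose a ha using h
  refine ⟨a, fun w => ?_⟩
  have h1 : μ w = ∑ i, μ (Pi.single i (w i)) := by
    rw [← map_sum]
    congr 1
    exact (Finset.univ_sum_single w).symm
  rw [h1, tau_sum]
  refine Finset.sum_congr rfl fun i _ => ?_
  have h2 := ha i (st (w i))
  rw [st_st] at h2
  rw [h2, tau_mul_comm]

/-- `B` as a vector space over the field with two elements. -/
noncomputable abbrev zB (B : Type) [Ring B] [TR B] : Module (ZMod 2) B :=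
  AddCommGroup.zmodModule (fun x => by rw [two_nsmul]; exact add_self x)

/-- Enough functionals. -/
theorem exists_ne {X : Type} [AddCommGroup X] [Module B X] {y : X} (hy : y ≠ 0) :
    ∃ l : X →+ ZMod 2, l y ≠ 0 := by
  let _ : Module (ZMod 2) X := AddCommGroup.zmodModule
    (fun x => by rw [two_nsmul]; exact mod_two (B := B) x)
  by_contra hcon
  push Not at hcon
  apply hy
  rw [← Module.forall_dual_apply_eq_zero_iff (ZMod 2) y]
  intro f
  exact hcon f.toAddMonoidHom

end H26GN
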