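import Pool.Agent.H26.GN.B0

/-!
MP_78d38b_GN (helper26): the Lagrangian (port of A6 of OD).
-/

set_option autoImplicit false
open scoped Classical

namespace H26GN

variable {B X Q : Type} [Ring B] [TR B] [Finite B] [AddCommGroup X] [Module B X]

theorem good_mono {S : SysR B X Q} {T T' : Finset Q} (h : T ⊆ T') (hT : S.Good T) : S.Good T' := by
  intro x hx h0
  refine hT x (fun q hq => ?_) (fun q hq => h0 q (h hq))
  by_cases hq' : q ∈ T'
  · exact (h0 q hq').1
  · exact hx q hq'

theorem good_exists {S : SysR B X Q} (hS : S.Ok) (T₁ : Finset Q) :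
    ∃ T : Finset Q, T₁ ⊆ T ∧ S.Good T := by
  have hex : ∀ y : S.Y ∅, (y : X) ≠ 0 → ∃ q, S.r q y ≠ 0 := by
    intro y hy
    obtain ⟨l, hl⟩ := exists_ne (B := B) hy
    obtain ⟨φ, hφ⟩ := exists_lin (B := B) l
    obtain ⟨q, -, -, hq⟩ := hS.cheb ∅ ∅ φ
    refine ⟨q, ?_⟩
    rw [hq y y.2]
    intro h
    apply hl
    rw [← hφ, h, tau_zero]
  haveI := hS.finY ∅
  letI := Fintype.ofFinite (S.Y ∅)
  refine ⟨T₁ ∪ Finset.univ.biUnion
    (fun y : S.Y ∅ => if h : (y : X) ≠ 0 then {(hex y h).choose} else ∅), Finset.subset_union_left, ?_⟩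
  intro x hx h0
  by_contra hne
  have hx0 : x ∈ S.Y ∅ := by
    intro q _
    by_cases hq : q ∈ T₁ ∪ Finset.univ.biUnion
      (fun y : S.Y ∅ => if h : (y : X) ≠ 0 then {(hex y h).choose} else ∅)
    · exact (h0 q hq).1
    · exact hx q hq
  have hne' : ((⟨x, hx0⟩ : S.Y ∅) : X) ≠ 0 := hne
  have hq := (hex ⟨x, hx0⟩ hne').choose_spec
  apply hq
  refine (h0 _ (Finset.mem_union_right _ (Finset.mem_biUnion.2 ⟨⟨x, hx0⟩, Finset.mem_univ _, ?_⟩))).2
  rw [dif_pos hne']
  exact Finset.mem_singleton_self _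

attribute [local instance] zB

/-- The symplectic form. -/
noncomputable def A6_B (B : Type) [Ring B] [TR B] (T : Finset Q) :
    LinearMap.BilinForm (ZMod 2) ((T → B) × (T → B)) :=
  LinearMap.mk₂ (ZMod 2)
    (fun v w => ∑ q, tau (v.1 q * st (w.2 q) + v.2 q * st (w.1 q)))
    (fun v v' w => by
      rw [← Finset.sum_add_distrib]
      refine Finset.sum_congr rfl fun q _ => ?_
      rw [Prod.fst_add, Prod.snd_add, Pi.add_apply, Pi.add_apply, add_mul, add_mul, ← tau_add]
      congr 1
      abel)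
    (fun r v w => by
      have hr : r = 0 ∨ r = 1 := by revert r; decide
      rcases hr with rfl | rfl
      · rw [zero_smul, zero_smul]
        refine Finset.sum_eq_zero fun q _ => ?_
        rw [Prod.fst_zero, Prod.snd_zero, Pi.zero_apply, zero_mul, zero_mul, add_zero, tau_zero]
      · rw [one_smul, one_smul])
    (fun v w w' => by
      rw [← Finset.sum_add_distrib]
      refine Finset.sum_congr rfl fun q _ => ?_
      rw [Prod.fst_add, Prod.snd_add, Pi.add_apply, Pi.add_apply, st_add, st_add, mul_add, mul_add, ← tau_add]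
      congr 1
      abel)
    (fun r v w => by
      have hr : r = 0 ∨ r = 1 := by revert r; decide
      rcases hr with rfl | rfl
      · rw [zero_smul, zero_smul]
        refine Finset.sum_eq_zero fun q _ => ?_
        rw [Prod.fst_zero, Prod.snd_zero, Pi.zero_apply, st_zero, mul_zero, mul_zero, add_zero, tau_zero]
      · rw [one_smul, one_smul])

theorem A6_B_apply (T : Finset Q) (v w : (T → B) × (T → B)) :
    A6_B B T v w = ∑ q, tau (v.1 q * st (w.2 q) + v.2 q * st (w.1 q)) := rfl

theorem A6_B_nd (T : Finset Q) : (A6_B B T).Nondegenerate := by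
  have h1 : ∀ a : B, (∀ c : B, tau (a * st c) = 0) → a = 0 := fun a h =>
    eq_zero_of_tau fun x => by rw [tau_mul_comm, ← st_st x]; exact h (st x)
  have h2 : ∀ a : B, (∀ c : B, tau (c * st a) = 0) → a = 0 := fun a h => by
    rw [← st_st a, eq_zero_of_tau h, st_zero]
  constructor
  · intro v hv
    refine Prod.ext (funext fun q₀ => ?_) (funext fun q₀ => ?_)
    · refine h1 _ fun c => ?_
      have := hv (0, Pi.single q₀ c)
      rw [A6_B_apply, Finset.sum_eq_single q₀] at this
      · dsimp only at this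
        rw [Pi.single_eq_same, Pi.zero_apply, st_zero, mul_zero, add_zero] at this
        exact this
      · intro q _ hq
        dsimp only
        rw [Pi.single_eq_of_ne hq, Pi.zero_apply, st_zero, mul_zero, mul_zero, add_zero, tau_zero]
      · intro h; exact absurd (Finset.mem_univ _) h
    · refine h1 _ fun c => ?_
      have := hv (Pi.single q₀ c, 0)
      rw [A6_B_apply, Finset.sum_eq_single q₀] at this
      · dsimp only at this
        rw [Pi.single_eq_same, Pi.zero_apply, st_zero, mul_zero, zero_add] at this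
        exact this
      · intro q _ hq
        dsimp only
        rw [Pi.single_eq_of_ne hq, Pi.zero_apply, st_zero, mul_zero, mul_zero, add_zero, tau_zero]
      · intro h; exact absurd (Finset.mem_univ _) h
  · intro w hw
    refine Prod.ext (funext fun q₀ => ?_) (funext fun q₀ => ?_)
    · refine h2 _ fun c => ?_
      have := hw (0, Pi.single q₀ c)
      rw [A6_B_apply, Finset.sum_eq_single q₀] at this
      · dsimp only at this
        rw [Pi.single_eq_same, Pi.zero_apply, zero_mul, zero_add] at this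
        exact this
      · intro q _ hq
        dsimp only
        rw [Pi.single_eq_of_ne hq, Pi.zero_apply, zero_mul, zero_mul, add_zero, tau_zero]
      · intro h; exact absurd (Finset.mem_univ _) h
    · refine h2 _ fun c => ?_
      have := hw (Pi.single q₀ c, 0)
      rw [A6_B_apply, Finset.sum_eq_single q₀] at this
      · dsimp only at this
        rw [Pi.single_eq_same, Pi.zero_apply, zero_mul, add_zero] at this
        exact this
      · intro q _ hq
        dsimp only
        rw [Pi.single_eq_of_ne hq, Pi.zero_apply, zero_mul, zero_mul, add_zero, tau_zero]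
      · intro h; exact absurd (Finset.mem_univ _) h

/-- The localization. -/
noncomputable def A6_loc (S : SysR B X Q) (T : Finset Q) (y : X) : (T → B) × (T → B) :=
  (fun q => S.u q y, fun q => S.r q y)

theorem A6_loc_add (S : SysR B X Q) (T : Finset Q) (x y : X) :
    A6_loc S T (x + y) = A6_loc S T x + A6_loc S T y :=
  Prod.ext (funext fun q => map_add (S.u q) x y) (funext fun q => map_add (S.r q) x y)

theorem A6_loc_zero (S : SysR B X Q) (T : Finset Q) : A6_loc S T 0 = 0 :=
  Prod.ext (funext fun q => map_zero (S.u q)) (funext fun q => map_zero (S.r q))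

def A6_W (S : SysR B X Q) (T : Finset Q) :
    Submodule (ZMod 2) ((T → B) × (T → B)) where
  carrier := {v | ∃ y ∈ S.Y T, A6_loc S T y = v}
  add_mem' := by
    rintro _ _ ⟨x, hx, rfl⟩ ⟨y, hy, rfl⟩
    exact ⟨x + y, (S.Y T).add_mem hx hy, A6_loc_add S T x y⟩
  zero_mem' := ⟨0, (S.Y T).zero_mem, A6_loc_zero S T⟩
  smul_mem' := by
    rintro r _ ⟨x, hx, rfl⟩
    have hr : r = 0 ∨ r = 1 := by revert r; decide
    rcases hr with rfl | rfl
    · rw [zero_smul]; exact ⟨0, (S.Y T).zero_mem, A6_loc_zero S T⟩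
    · rw [one_smul]; exact ⟨x, hx, rfl⟩

theorem A6_recip {S : SysR B X Q} {T : Finset Q} {x y : X} (hx : x ∈ S.Y T) (hy : y ∈ S.Y T) :
    ∑ q ∈ T, (S.u q x * st (S.r q y) + S.r q x * st (S.u q y)) = 0 := by
  rw [← S.recip x y]
  refine (finsum_eq_sum_of_support_subset _ ?_).symm
  intro q hq
  by_contra h
  apply hq
  change S.u q x * st (S.r q y) + S.r q x * st (S.u q y) = 0
  rw [hx q h, hy q h, zero_mul, st_zero, mul_zero, add_zero]

theorem A6_B_W {S : SysR B X Q} {T : Finset Q} (a b : Q → B)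
    (h : ∀ y ∈ S.Y T, ∑ q ∈ T, (a q * st (S.r q y) + b q * st (S.u q y)) = 0) :
    (((fun q : T => a q), (fun q : T => b q)) : (T → B) × (T → B)) ∈
      (A6_B B T).orthogonal (A6_W S T) := by
  rw [LinearMap.BilinForm.mem_orthogonal_iff]
  rintro _ ⟨y, hy, rfl⟩
  change A6_B B T _ _ = 0
  rw [A6_B_apply]
  have e : ∀ q : T, tau ((A6_loc S T y).1 q * st (b q) + (A6_loc S T y).2 q * st (a q)) =
      tau (a q * st (S.r q y) + b q * st (S.u q y)) := by
    intro q
    rw [← tau_st (a q * st (S.r q y) + b q * st (S.u q y)), st_add, st_mul, st_mul, st_st, st_st, add_comm]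
    rfl
  rw [Finset.sum_congr rfl fun q _ => e q]
  have e2 : ∀ (s : Finset Q) (f : Q → B), ∑ q ∈ s, tau (f q) = tau (∑ q ∈ s, f q) := by
    intro s f
    induction s using Finset.induction_on with
    | empty => rw [Finset.sum_empty, Finset.sum_empty, tau_zero]
    | insert c s hc ih => rw [Finset.sum_insert hc, Finset.sum_insert hc, tau_add, ih]
  rw [Finset.sum_coe_sort T (fun q => tau (a q * st (S.r q y) + b q * st (S.u q y))), e2, h y hy, tau_zero]

theorem A6_card_W {S : SysR B X Q} {T : Finset Q} (hT : S.Good T) :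
    Nat.card (S.Y T) = Nat.card (A6_W S T) := by
  refine Nat.card_congr (Equiv.ofBijective (fun y : S.Y T => (⟨A6_loc S T y, y, y.2, rfl⟩ : A6_W S T)) ⟨?_, ?_⟩)
  · intro x y hxy
    have h1 : A6_loc S T (x : X) = A6_loc S T (y : X) := congrArg Subtype.val hxy
    have h2 : ((x : X) - y) = 0 := by
      refine hT _ ((S.Y T).sub_mem x.2 y.2) fun q hq => ?_
      have h3 := congrFun (congrArg Prod.fst h1) ⟨q, hq⟩
      have h4 := congrFun (congrArg Prod.snd h1) ⟨q, hq⟩
      rw [map_sub, map_sub, sub_eq_zero, sub_eq_zero]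
      exact ⟨h3, h4⟩
    exact Subtype.ext (sub_eq_zero.1 h2)
  · rintro ⟨_, y, hy, rfl⟩
    exact ⟨⟨y, hy⟩, rfl⟩

theorem A6_main {S : SysR B X Q} (hS : S.Ok) {T : Finset Q} (hT : S.Good T) :
    Nat.card (S.Y T) = Nat.card B ^ T.card ∧ (A6_B B T).orthogonal (A6_W S T) = A6_W S T := by
  haveI : Finite (T → B) := inferInstance
  have hiso : A6_W S T ≤ (A6_B B T).orthogonal (A6_W S T) := by
    rintro _ ⟨x, hx, rfl⟩
    exact A6_B_W (fun q => S.u q x) (fun q => S.r q x) fun y hy => A6_recip hx hy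
  have hfr := LinearMap.BilinForm.finrank_orthogonal (A6_B_nd (B := B) T) (A6_W S T)
  have hV : Module.finrank (ZMod 2) ((T → B) × (T → B)) =
      T.card * Module.finrank (ZMod 2) B + T.card * Module.finrank (ZMod 2) B := by
    rw [Module.finrank_prod, Module.finrank_pi_fintype, Finset.sum_const, Finset.card_univ,
      Fintype.card_coe, smul_eq_mul]
  have hle := Submodule.finrank_mono hiso
  have h2 : Nat.card (ZMod 2) = 2 := by rw [Nat.card_eq_fintype_card, ZMod.card]
  have hcW : Nat.card (A6_W S T) = 2 ^ Module.finrank (ZMod 2) (A6_W S T) := by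
    rw [Module.natCard_eq_pow_finrank (K := ZMod 2), h2]
  have hcR : Nat.card B = 2 ^ Module.finrank (ZMod 2) B := by
    rw [Module.natCard_eq_pow_finrank (K := ZMod 2), h2]
  have hge : T.card * Module.finrank (ZMod 2) B ≤ Module.finrank (ZMod 2) (A6_W S T) := by
    have := hS.card T
    rw [A6_card_W hT, hcW, hcR, ← pow_mul] at this
    rw [mul_comm]
    exact (Nat.pow_le_pow_iff_right (by norm_num)).1 this
  have hW : Module.finrank (ZMod 2) (A6_W S T) = T.card * Module.finrank (ZMod 2) B := by omega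
  constructor
  · rw [A6_card_W hT, hcW, hW, hcR, ← pow_mul, mul_comm]
  · exact (Submodule.eq_of_le_of_finrank_eq hiso (by omega)).symm

theorem card_eq {S : SysR B X Q} (hS : S.Ok) {T : Finset Q} (hT : S.Good T) :
    Nat.card (S.Y T) = Nat.card B ^ T.card := (A6_main hS hT).1

theorem orth {S : SysR B X Q} (hS : S.Ok) {T : Finset Q} (hT : S.Good T) (a b : Q → B)
    (h : ∀ y ∈ S.Y T, ∑ q ∈ T, (a q * st (S.r q y) + b q * st (S.u q y)) = 0) :
    ∃ y₀ ∈ S.Y T, ∀ q ∈ T, S.u q y₀ = a q ∧ S.r q y₀ = b q := by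
  have h1 := A6_B_W a b h
  rw [(A6_main hS hT).2] at h1
  obtain ⟨y, hy, hv⟩ := h1
  exact ⟨y, hy, fun q hq => ⟨congrFun (congrArg Prod.fst hv) ⟨q, hq⟩, congrFun (congrArg Prod.snd hv) ⟨q, hq⟩⟩⟩

theorem u_surj {S : SysR B X Q} (hS : S.Ok) {T : Finset Q} (hT : S.Good T) {q : Q} (hq : q ∉ T)
    (a : B) : ∃ y ∈ S.Y (insert q T), S.u q y = a := by
  have hT' : S.Good (insert q T) := good_mono (Finset.subset_insert q T) hT
  haveI := hS.finY (insert q T)
  let f : S.Y (insert q T) →+ B := ((S.u q).comp (S.Y (insert q T)).subtype).toAddMonoidHom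
  have hf : ∀ y : S.Y (insert q T), f y = S.u q y := fun _ => rfl
  have hk : Nat.card f.ker = Nat.card (S.Y T) := by
    refine Nat.card_congr (Equiv.ofBijective (fun y : f.ker =>
      (⟨(y : S.Y (insert q T)), fun q' hq' => ?_⟩ : S.Y T)) ⟨?_, ?_⟩)
    · by_cases he : q' = q
      · rw [he]; exact y.2
      · exact (y : S.Y (insert q T)).2 q' (fun h => (Finset.mem_insert.1 h).elim he hq')
    · intro x y hxy
      have h0 : ((x : S.Y (insert q T)) : X) = ((y : S.Y (insert q T)) : X) :=
        congrArg (fun z : S.Y T => (z : X)) hxy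
      exact Subtype.ext (Subtype.ext h0)
    · rintro ⟨y, hy⟩
      exact ⟨⟨⟨y, fun q' hq' => hy q' fun h => hq' (Finset.mem_insert_of_mem h)⟩, hy q hq⟩, rfl⟩
  have h1 := f.ker.card_mul_index
  rw [AddSubgroup.index_ker, hk, card_eq hS hT, card_eq hS hT', Finset.card_insert_of_notMem hq, pow_succ] at h1
  have h2 : Nat.card f.range = Nat.card B :=
    Nat.eq_of_mul_eq_mul_left (pow_pos Nat.card_pos _) h1
  have h3 : f.range = ⊤ := AddSubgroup.eq_top_of_card_eq _ h2
  have h4 : a ∈ f.range := by rw [h3]; exact AddSubgroup.mem_top a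
  obtain ⟨y, hy⟩ := h4
  exact ⟨y, y.2, hy⟩

end H26GN
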