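import Pool.Agent.H26.GN.B1

/-!
MP_78d38b_GN (helper26): the coordinates (port of A7 of OD).
-/

set_option autoImplicit false
open scoped Classical

namespace H26GN

attribute [local instance] zB

theorem A7_smul {B ι : Type} [Ring B] [TR B] {Y : Type} [AddCommGroup Y] [Module B Y]
    [Fintype ι] (d : Y →ₗ[B] (ι → B)) (a : ι → B) (r : B) (v : Y) :
    ∑ i, a i * st (d (r • v) i) = (∑ i, a i * st (d v i)) * st r := by
  rw [Finset.sum_mul]
  refine Finset.sum_congr rfl fun i _ => ?_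
  rw [map_smul, Pi.smul_apply, smul_eq_mul, st_mul, mul_assoc]

/-- The map to the dual module. -/
noncomputable def A7_phi {B ι : Type} [Ring B] [TR B] {Y : Type} [AddCommGroup Y]
    [Module B Y] [Fintype ι] (V : Submodule B Y) (d : Y →ₗ[B] (ι → B)) :
    (ι → B) →ₗ[B] Du V where
  toFun a := (⟨⟨fun v => tau (∑ i, a i * st (d v i)), by
      simp [st_zero, tau_zero]⟩, by
      intro v w
      change tau (∑ i, a i * st (d (v + w : Y) i)) = _
      rw [map_add, ← tau_add, ← Finset.sum_add_distrib]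
      congr 1
      refine Finset.sum_congr rfl fun i _ => ?_
      rw [Pi.add_apply, st_add, mul_add]⟩ : V →+ ZMod 2)
  map_add' a b := by
    apply DFunLike.ext
    intro v
    change tau (∑ i, (a + b) i * st (d v i)) = tau (∑ i, a i * st (d v i)) +
      tau (∑ i, b i * st (d v i))
    rw [← tau_add, ← Finset.sum_add_distrib]
    congr 1
    refine Finset.sum_congr rfl fun i _ => ?_
    rw [Pi.add_apply, add_mul]
  map_smul' r a := by
    apply DFunLike.ext
    intro v
    change tau (∑ i, (r • a) i * st (d v i)) = tau (∑ i, a i * st (d ((st r • v : V) : Y) i))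
    rw [Submodule.coe_smul, A7_smul, st_st, ← tau_mul_comm, Finset.mul_sum]
    congr 1
    refine Finset.sum_congr rfl fun i _ => ?_
    rw [Pi.smul_apply, smul_eq_mul, mul_assoc]

theorem A7_phi_apply {B ι : Type} [Ring B] [TR B] {Y : Type} [AddCommGroup Y]
    [Module B Y] [Fintype ι] (V : Submodule B Y) (d : Y →ₗ[B] (ι → B))
    (a : ι → B) (v : V) : A7_phi V d a v = tau (∑ i, a i * st (d v i)) := rfl

/-- The map to the dual module is onto. -/
theorem A7_surj {B ι : Type} [Ring B] [TR B] [Finite B] {Y : Type} [AddCommGroup Y]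
    [Module B Y] [Fintype ι] (V : Submodule B Y) (d : Y →ₗ[B] (ι → B))
    (inj : ∀ v ∈ V, d v = 0 → v = 0) : Function.Surjective (A7_phi V d) := by
  intro φ
  have two : ∀ v : V, 2 • v = 0 := by
    intro v
    have h : (1 : B) + 1 = 0 := add_self 1
    have h2 := congrArg (fun r : B => r • v) h
    simp only [add_smul, one_smul, zero_smul] at h2
    rw [two_nsmul, h2]
  let _ : Module (ZMod 2) V := AddCommGroup.zmodModule two
  let D : V →ₗ[ZMod 2] (ι → B) :=
    AddMonoidHom.toZModLinearMap 2 (AddMonoidHom.mk' (fun v : V => d v) (fun v w => by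
      rw [Submodule.coe_add, map_add]))
  have hD : LinearMap.ker D = ⊥ := by
    rw [LinearMap.ker_eq_bot']
    intro v hv
    have : d v = 0 := hv
    exact Subtype.ext (inj v v.2 this)
  obtain ⟨g, hg⟩ := LinearMap.exists_leftInverse_of_injective D hD
  obtain ⟨a, ha⟩ := repr (B := B) (ι := ι)
    ((φ : V →+ ZMod 2).comp g.toAddMonoidHom)
  refine ⟨a, ?_⟩
  apply DFunLike.ext
  intro v
  rw [A7_phi_apply, ← ha]
  have h3 : g (D v) = v := by
    have := LinearMap.congr_fun hg v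
    exact this
  change φ (g (D v)) = φ v
  rw [h3]


/-- The kernel. -/
theorem A7_ker {B ι : Type} [Ring B] [TR B] {Y : Type} [AddCommGroup Y]
    [Module B Y] [Fintype ι] (V : Submodule B Y) (d : Y →ₗ[B] (ι → B)) (a : ι → B) :
    A7_phi V d a = 0 ↔ ∀ v ∈ V, ∑ i, a i * st (d v i) = 0 := by
  constructor
  · intro h v hv
    apply eq_zero_of_tau
    intro x
    have h1 : A7_phi V d a (st x • (⟨v, hv⟩ : V)) = 0 := by rw [h]; rfl
    rw [A7_phi_apply, Submodule.coe_smul, A7_smul, st_st] at h1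
    rw [← tau_mul_comm]
    exact h1
  · intro h
    apply DFunLike.ext
    intro v
    rw [A7_phi_apply, h v v.2]
    exact tau_zero

theorem card_du {V : Type} [AddCommGroup V] [Finite V] (h2 : ∀ x : V, x + x = 0) :
    Nat.card (Du V) = Nat.card V := by
  let _ : Module (ZMod 2) V := AddCommGroup.zmodModule (fun x => by rw [two_nsmul]; exact h2 x)
  have hfin : Module.Finite (ZMod 2) V := Module.Finite.of_finite
  have h1 : Nat.card (Du V) = Nat.card (Module.Dual (ZMod 2) V) :=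
    Nat.card_congr
      { toFun := fun f => AddMonoidHom.toZModLinearMap 2 (f : V →+ ZMod 2)
        invFun := fun f => (f.toAddMonoidHom : V →+ ZMod 2)
        left_inv := fun f => rfl
        right_inv := fun f => rfl }
  rw [h1, Module.natCard_eq_pow_finrank (K := ZMod 2), Module.natCard_eq_pow_finrank (K := ZMod 2) (V := V),
    Subspace.dual_finrank_eq]

/-- The double orthogonal, by counting. -/
theorem A7_rng {B ι : Type} [Ring B] [TR B] [Finite B] {Y : Type} [Fintype ι] [AddCommGroup Y]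
    [Module B Y] [Finite Y] (V : Submodule B Y) (c d : Y →ₗ[B] (ι → B))
    (hV : ∀ y, y ∈ V ↔ c y = 0) (inj : ∀ v ∈ V, d v = 0 → v = 0)
    (iso : ∀ v ∈ V, ∀ y, ∑ i, c y i * st (d v i) = 0)
    (hc : Nat.card Y = Nat.card B ^ Nat.card ι) (a : ι → B) :
    (∀ v ∈ V, ∑ i, a i * st (d v i) = 0) ↔ ∃ y, c y = a := by
  have hcd : Nat.card (Du V) = Nat.card V := card_du (mod_two (B := B))
  have h1 : Nat.card (ι → B) = Nat.card B ^ Nat.card ι := by
    rw [Nat.card_fun]
  have hle : LinearMap.range c ≤ LinearMap.ker (A7_phi V d) := by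
    rintro _ ⟨y, rfl⟩
    rw [LinearMap.mem_ker, A7_ker]
    intro v hv
    exact iso v hv y
  have hker : V = LinearMap.ker c := by
    ext y
    rw [hV, LinearMap.mem_ker]
  have hVp : 0 < Nat.card V := Nat.card_pos
  have e1 : Nat.card V * Nat.card (LinearMap.range c) = Nat.card Y := by
    have e := Submodule.card_eq_card_quotient_mul_card (LinearMap.ker c)
    have e' : Nat.card (Y ⧸ LinearMap.ker c) = Nat.card (LinearMap.range c) :=
      Nat.card_congr c.quotKerEquivRange.toEquiv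
    rw [e, e', ← hker, mul_comm]
  have e2 : Nat.card (LinearMap.ker (A7_phi V d)) * Nat.card (Du V) = Nat.card (ι → B) := by
    have e := Submodule.card_eq_card_quotient_mul_card (LinearMap.ker (A7_phi V d))
    have e' : Nat.card ((ι → B) ⧸ LinearMap.ker (A7_phi V d)) = Nat.card (Du V) :=
      Nat.card_congr ((A7_phi V d).quotKerEquivOfSurjective (A7_surj V d inj)).toEquiv
    rw [e, e', mul_comm]
  have e3 : Nat.card (LinearMap.range c) = Nat.card (LinearMap.ker (A7_phi V d)) := by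
    rw [hcd, h1, ← hc, ← e1, mul_comm] at e2
    exact (Nat.eq_of_mul_eq_mul_left hVp e2).symm
  have e4 : LinearMap.range c = LinearMap.ker (A7_phi V d) := by
    apply SetLike.coe_injective
    exact Set.eq_of_subset_of_ncard_le hle (by
      rw [← Nat.card_coe_set_eq, ← Nat.card_coe_set_eq]
      exact e3.symm.le) (Set.toFinite _)
  rw [← A7_ker, ← LinearMap.mem_ker, ← e4]
  rfl

/-- The dual of a linear map. -/
noncomputable def A7_dual {B V W : Type} [Ring B] [TR B] [AddCommGroup V] [Module B V] [AddCommGroup W]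
    [Module B W] (e : W →ₗ[B] V) : Du V →ₗ[B] Du W where
  toFun φ := (AddMonoidHom.comp (φ : V →+ ZMod 2) (e : W →+ V) : W →+ ZMod 2)
  map_add' φ ψ := rfl
  map_smul' a φ := by
    apply DFunLike.ext
    intro x
    exact (congrArg φ (e.map_smul (st a) x)).symm

theorem A7_dual_apply {B V W : Type} [Ring B] [TR B] [AddCommGroup V] [Module B V] [AddCommGroup W]
    [Module B W] (e : W →ₗ[B] V) (φ : Du V) (x : W) : A7_dual e φ x = φ (e x) := rfl

variable {B X Q : Type} [Ring B] [TR B] [Finite B] [AddCommGroup X] [Module B X]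

/-- A family of functionals on `Y T`. -/
noncomputable def A7_pi (S : SysR B X Q) (T : Finset Q) (F : Q → X →ₗ[B] B) :
    S.Y T →ₗ[B] (T → B) :=
  LinearMap.pi (fun q : T => (F q.1).domRestrict (S.Y T))

theorem A7_pi_apply (S : SysR B X Q) (T : Finset Q) (F : Q → X →ₗ[B] B) (y : S.Y T) (q : T) :
    A7_pi S T F y q = F q.1 y := rfl

theorem A7_sum (T : Finset Q) (f : Q → B) : ∑ q : T, f q.1 = ∑ q ∈ T, f q :=
  Finset.sum_coe_sort T f

theorem recip_cd (S : SysR B X Q) (S' T : Finset Q) {x y : X} (hx : x ∈ S.Y T) (hy : y ∈ S.Y T) :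
    ∑ q ∈ T, (S.cc S' q x * st (S.dd S' q y) + S.dd S' q x * st (S.cc S' q y)) = 0 := by
  have h1 := S.recip x y
  have h2 : Function.support (fun q => S.u q x * st (S.r q y) + S.r q x * st (S.u q y)) ⊆ (T : Set Q) := by
    intro q hq
    by_contra hqT
    apply hq
    show S.u q x * st (S.r q y) + S.r q x * st (S.u q y) = 0
    rw [hx q hqT, hy q hqT, st_zero, zero_mul, mul_zero, add_zero]
  rw [finsum_eq_sum_of_support_subset _ h2] at h1
  rw [← h1]
  refine Finset.sum_congr rfl fun q _ => ?_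
  unfold SysR.cc SysR.dd
  by_cases h : q ∈ S'
  · rw [if_pos h, if_pos h, add_comm]
  · rw [if_neg h, if_neg h]

theorem mem_Sel_cc {S : SysR B X Q} {S' T : Finset Q} (h : S' ⊆ T) {x : X} :
    x ∈ S.Sel S' ↔ x ∈ S.Y T ∧ ∀ q ∈ T, S.cc S' q x = 0 := by
  rw [SysR.mem_Sel, SysR.mem_Y]
  constructor
  · rintro ⟨h1, h2⟩
    refine ⟨fun q hq => h1 q fun h3 => hq (h h3), fun q _ => ?_⟩
    unfold SysR.cc
    by_cases h3 : q ∈ S'
    · rw [if_pos h3]
      exact h2 q h3
    · rw [if_neg h3]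
      exact h1 q h3
  · rintro ⟨h1, h2⟩
    refine ⟨fun q hq => ?_, fun q hq => ?_⟩
    · by_cases h3 : q ∈ T
      · have h4 := h2 q h3
        unfold SysR.cc at h4
        rwa [if_neg hq] at h4
      · exact h1 q h3
    · have h4 := h2 q (h hq)
      unfold SysR.cc at h4
      rwa [if_pos hq] at h4

theorem dd_inj {S : SysR B X Q} {S' T : Finset Q} (h : S' ⊆ T) (hT : S.Good T) {x : X}
    (hx : x ∈ S.Sel S') (h0 : ∀ q ∈ T, S.dd S' q x = 0) : x = 0 := by
  obtain ⟨h1, h2⟩ := (mem_Sel_cc h).1 hx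
  refine hT x h1 fun q hq => ?_
  have h3 := h2 q hq
  have h4 := h0 q hq
  unfold SysR.cc at h3
  unfold SysR.dd at h4
  by_cases h5 : q ∈ S'
  · rw [if_pos h5] at h3 h4
    exact ⟨h4, h3⟩
  · rw [if_neg h5] at h3 h4
    exact ⟨h3, h4⟩

theorem A7_card {Q : Type} (T : Finset Q) : Nat.card T = T.card := by
  rw [Nat.card_eq_fintype_card, Fintype.card_coe]

theorem A7_hV {S : SysR B X Q} {S' T : Finset Q} (h : S' ⊆ T) (y : S.Y T) :
    y ∈ (S.Sel S').comap (S.Y T).subtype ↔ A7_pi S T (S.cc S') y = 0 := by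
  rw [Submodule.mem_comap, Submodule.subtype_apply, mem_Sel_cc h]
  constructor
  · rintro ⟨-, h1⟩
    funext q
    exact h1 q.1 q.2
  · intro h1
    exact ⟨y.2, fun q hq => congrFun h1 ⟨q, hq⟩⟩

theorem A7_inj {S : SysR B X Q} {S' T : Finset Q} (h : S' ⊆ T) (hT : S.Good T) (v : S.Y T)
    (hv : v ∈ (S.Sel S').comap (S.Y T).subtype) (h0 : A7_pi S T (S.dd S') v = 0) : v = 0 :=
  Subtype.ext (dd_inj h hT hv fun q hq => congrFun h0 ⟨q, hq⟩)

theorem A7_iso {S : SysR B X Q} {S' T : Finset Q} (h : S' ⊆ T) (v : S.Y T)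
    (hv : v ∈ (S.Sel S').comap (S.Y T).subtype) (y : S.Y T) :
    ∑ q : T, A7_pi S T (S.cc S') y q * st (A7_pi S T (S.dd S') v q) = 0 := by
  have h1 := recip_cd S S' T y.2 v.2
  have h2 := ((mem_Sel_cc h).1 (show (v : X) ∈ S.Sel S' from hv)).2
  rw [← h1]
  rw [← A7_sum T (fun q => S.cc S' q y * st (S.dd S' q v) + S.dd S' q y * st (S.cc S' q v))]
  refine Finset.sum_congr rfl fun q _ => ?_
  rw [A7_pi_apply, A7_pi_apply, h2 q.1 q.2, st_zero, mul_zero, add_zero]

/-- The coefficient of one as an element of the dual module. -/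
noncomputable def A7_tau {B : Type} [Ring B] [TR B] : Du B :=
  (⟨⟨tau, tau_zero⟩, tau_add⟩ : B →+ ZMod 2)

theorem range_c {S : SysR B X Q} (hS : S.Ok) {S' T : Finset Q} (h : S' ⊆ T) (hT : S.Good T)
    (a : Q → B) : (∀ v ∈ S.Sel S', ∑ q ∈ T, a q * st (S.dd S' q v) = 0) ↔
      ∃ y ∈ S.Y T, ∀ q ∈ T, S.cc S' q y = a q := by
  have := hS.finY T
  have key := A7_rng (B := B) (ι := T) ((S.Sel S').comap (S.Y T).subtype) (A7_pi S T (S.cc S')) (A7_pi S T (S.dd S'))
    (A7_hV h) (A7_inj h hT) (A7_iso h)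
    (by rw [card_eq hS hT, A7_card]) (fun q => a q.1)
  constructor
  · intro h1
    obtain ⟨y, hy⟩ := key.1 (by
      intro v hv
      have h2 := h1 v hv
      rw [← A7_sum T (fun q => a q * st (S.dd S' q v))] at h2
      exact h2)
    exact ⟨y, y.2, fun q hq => congrFun hy ⟨q, hq⟩⟩
  · rintro ⟨y, hy, h1⟩ v hv
    have h2 := key.2 ⟨⟨y, hy⟩, funext fun q => h1 q.1 q.2⟩ ⟨v, ((mem_Sel_cc h).1 hv).1⟩ hv
    rw [← A7_sum T (fun q => a q * st (S.dd S' q v))]
    exact h2

theorem exists_gamma {S : SysR B X Q} (hS : S.Ok) {S' T : Finset Q} (h : S' ⊆ T) (hT : S.Good T)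
    {f : B} (hf : f * f = f) (hst : st f = f) (b : S.Sel S' →ₗ[B] B)
    (hb : ∀ v, b v * f = b v) :
    ∃ γ : Q → B, (∀ q, f * γ q = γ q) ∧ ∀ v : S.Sel S', b v = S.bh S' T γ v := by
  have := hS.finY T
  have hle : S.Sel S' ≤ S.Y T := fun x hx => ((mem_Sel_cc h).1 hx).1
  obtain ⟨a, ha⟩ := A7_surj ((S.Sel S').comap (S.Y T).subtype) (A7_pi S T (S.dd S')) (A7_inj h hT)
    (A7_dual (b.comp (Submodule.comapSubtypeEquivOfLe hle).toLinearMap) A7_tau)
  obtain ⟨γ, hγ⟩ : ∃ γ : Q → B, ∀ q : T, γ q.1 = a q :=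
    ⟨fun q => if hq : q ∈ T then a ⟨q, hq⟩ else 0, fun q => dif_pos q.2⟩
  have h1 : ∀ v : S.Sel S', tau (S.bh S' T γ v) = tau (b v) := by
    intro v
    have h2 := DFunLike.congr_fun ha (⟨⟨v, hle v.2⟩, v.2⟩ : (S.Sel S').comap (S.Y T).subtype)
    rw [A7_phi_apply, A7_dual_apply] at h2
    have h3 : tau (∑ q : T, a q * st (A7_pi S T (S.dd S') (⟨v, hle v.2⟩ : S.Y T) q)) = tau (b v) := h2
    rw [← h3, SysR.bh_apply, ← A7_sum T (fun q => S.dd S' q v * st (γ q)), ← tau_st, st_sum]
    congr 1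
    refine Finset.sum_congr rfl fun q _ => ?_
    rw [A7_pi_apply, hγ, st_mul, st_st]
  have h2 : ∀ v : S.Sel S', S.bh S' T γ v = b v := by
    intro v
    have h3 : S.bh S' T γ v + b v = 0 := by
      apply eq_zero_of_tau
      intro x
      rw [mul_add, tau_add]
      have h4 := h1 (x • v)
      rw [Submodule.coe_smul, map_smul, map_smul, smul_eq_mul, smul_eq_mul] at h4
      rw [h4]
      exact CharTwo.add_self_eq_zero _
    have h5 := congrArg (fun z => z + b v) h3
    simp only [add_assoc, add_self, add_zero, zero_add] at h5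
    exact h5
  refine ⟨fun q => f * γ q, fun q => by rw [← mul_assoc, hf], fun v => ?_⟩
  rw [SysR.bh_apply]
  have h3 : ∑ q ∈ T, S.dd S' q v * st (f * γ q) = S.bh S' T γ v * f := by
    rw [SysR.bh_apply, Finset.sum_mul]
    refine Finset.sum_congr rfl fun q _ => ?_
    rw [st_mul, hst, mul_assoc]
  rw [h3, h2, hb]

end H26GN
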