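import Pool.Agent.H26.GN.B2

/-!
MP_78d38b_GN (helper26): new primes and their classes (port of A8 of OD, several types).
-/

set_option autoImplicit false
open scoped Classical

namespace H26GN

variable {B X Q : Type} [Ring B] [TR B] [Finite B] [AddCommGroup X] [Module B X]

omit [Finite B] in
private theorem A8_eq {a b : B} (h : a + b = 0) : a = b := by
  have h1 : a + b = b + b := by rw [h, add_self]
  exact add_right_cancel h1

omit [Finite B] in
private theorem A8_cc {S : SysR B X Q} {S' T : Finset Q} (h : S' ⊆ T) {q : Q} (hq : q ∉ T) :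
    S.cc S' q = S.u q ∧ S.dd S' q = S.r q := by
  have h1 : q ∉ S' := fun h2 => hq (h h2)
  unfold SysR.cc SysR.dd
  rw [if_neg h1, if_neg h1]
  exact ⟨rfl, rfl⟩

theorem new_class {S : SysR B X Q} (hS : S.Ok) {S' T : Finset Q} (h : S' ⊆ T) (hT : S.Good T)
    (γ : Q → B) {q : Q} (hq : q ∉ T) (hr : ∀ y' ∈ S.Y T, S.r q y' = S.bh S' T γ y') :
    ∃ y, S.PR S' T γ q y := by
  obtain ⟨y, hy, hy1⟩ := u_surj hS hT hq 1
  obtain ⟨hcq, hdq⟩ := A8_cc (S := S) h hq
  have key : ∀ y' ∈ S.Y T, ∑ p ∈ T, (S.cc S' p y' * st (S.dd S' p y) +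
      S.dd S' p y' * st (S.cc S' p y + γ p)) = 0 := by
    intro y' hy'
    have hy'' : y' ∈ S.Y (insert q T) := by
      rw [SysR.mem_Y] at hy' ⊢
      intro p hp
      exact hy' p fun hp2 => hp (Finset.mem_insert_of_mem hp2)
    have h1 := recip_cd S S' (insert q T) hy'' hy
    rw [Finset.sum_insert hq, hcq, hdq, hy1, (SysR.mem_Y.1 hy') q hq, zero_mul, zero_add, st_one,
      mul_one, hr y' hy', SysR.bh_apply, ← Finset.sum_add_distrib] at h1
    rw [← h1]
    refine Finset.sum_congr rfl fun p _ => ?_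
    rw [st_add, mul_add]
    abel
  obtain ⟨y₀, hy₀, hy₀'⟩ := orth hS hT
    (fun p => if p ∈ S' then S.dd S' p y else S.cc S' p y + γ p)
    (fun p => if p ∈ S' then S.cc S' p y + γ p else S.dd S' p y) (by
      intro y' hy'
      have h1 := congrArg st (key y' hy')
      rw [st_zero, st_sum] at h1
      rw [← h1]
      refine Finset.sum_congr rfl fun p _ => ?_
      rw [st_add, st_mul, st_mul, st_st, st_st]
      unfold SysR.cc SysR.dd
      by_cases hp : p ∈ S'
      · simp only [if_pos hp]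
      · simp only [if_neg hp]
        rw [add_comm])
  have hc₀ : ∀ p ∈ T, S.cc S' p y₀ = S.cc S' p y + γ p ∧ S.dd S' p y₀ = S.dd S' p y := by
    intro p hp
    obtain ⟨e1, e2⟩ := hy₀' p hp
    by_cases hp' : p ∈ S'
    · have e1' : S.u p y₀ = S.dd S' p y := by rw [e1]; exact if_pos hp'
      have e2' : S.r p y₀ = S.cc S' p y + γ p := by rw [e2]; exact if_pos hp'
      have f1 : S.cc S' p = S.r p := by unfold SysR.cc; rw [if_pos hp']
      have f2 : S.dd S' p = S.u p := by unfold SysR.dd; rw [if_pos hp']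
      constructor
      · rw [f1, e2', f1]
      · rw [f2, e1', f2]
    · have e1' : S.u p y₀ = S.cc S' p y + γ p := by rw [e1]; exact if_neg hp'
      have e2' : S.r p y₀ = S.dd S' p y := by rw [e2]; exact if_neg hp'
      have f1 : S.cc S' p = S.u p := by unfold SysR.cc; rw [if_neg hp']
      have f2 : S.dd S' p = S.r p := by unfold SysR.dd; rw [if_neg hp']
      constructor
      · rw [f1, e1', f1]
      · rw [f2, e2', f2]
  refine ⟨y + y₀, hq, ?_, ?_, ?_, ?_, hr⟩
  · intro p hp hpq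
    rw [map_add, (SysR.mem_Y.1 hy) p (by
      rw [Finset.mem_insert]
      rintro (h1 | h1)
      · exact hpq h1
      · exact hp h1), (SysR.mem_Y.1 hy₀) p hp, add_zero]
  · rw [map_add, hy1, (SysR.mem_Y.1 hy₀) q hq, add_zero]
  · intro p hp
    rw [map_add, (hc₀ p hp).1, ← add_assoc, add_self, zero_add]
  · intro p hp
    rw [map_add, (hc₀ p hp).2, add_self]

theorem ci_sym {S : SysR B X Q} {S' T : Finset Q} (h : S' ⊆ T) {γ : Q → B} {q : Q} {y : X}
    (hp : S.PR S' T γ q y) : st (S.r q y) = S.r q y := by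
  obtain ⟨hcq, hdq⟩ := A8_cc (S := S) h hp.notin
  have hy : y ∈ S.Y (insert q T) := by
    rw [SysR.mem_Y]
    intro p hp'
    rw [Finset.mem_insert, not_or] at hp'
    exact hp.mem p hp'.2 hp'.1
  have h1 := recip_cd S S' (insert q T) hy hy
  have h2 : ∑ p ∈ T, (S.cc S' p y * st (S.dd S' p y) + S.dd S' p y * st (S.cc S' p y)) = 0 := by
    refine Finset.sum_eq_zero fun p hp' => ?_
    rw [hp.dd p hp', st_zero, mul_zero, zero_mul, add_zero]
  rw [Finset.sum_insert hp.notin, h2, add_zero, hcq, hdq, hp.one, one_mul, st_one, mul_one] at h1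
  exact A8_eq h1

theorem cij {S : SysR B X Q} {S' T : Finset Q} (h : S' ⊆ T) {γ₁ γ₂ : Q → B} {q₁ q₂ : Q} {y₁ y₂ : X}
    (h₁ : S.PR S' T γ₁ q₁ y₁) (h₂ : S.PR S' T γ₂ q₂ y₂) (hne : q₁ ≠ q₂) :
    S.r q₁ y₂ = st (S.r q₂ y₁) := by
  obtain ⟨hc1, hd1⟩ := A8_cc (S := S) h h₁.notin
  obtain ⟨hc2, hd2⟩ := A8_cc (S := S) h h₂.notin
  have hq1 : q₁ ∉ insert q₂ T := by
    rw [Finset.mem_insert, not_or]
    exact ⟨hne, h₁.notin⟩
  have hy1 : y₁ ∈ S.Y (insert q₁ (insert q₂ T)) := by
    rw [SysR.mem_Y]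
    intro p hp'
    rw [Finset.mem_insert, Finset.mem_insert, not_or, not_or] at hp'
    exact h₁.mem p hp'.2.2 hp'.1
  have hy2 : y₂ ∈ S.Y (insert q₁ (insert q₂ T)) := by
    rw [SysR.mem_Y]
    intro p hp'
    rw [Finset.mem_insert, Finset.mem_insert, not_or, not_or] at hp'
    exact h₂.mem p hp'.2.2 hp'.2.1
  have h1 := recip_cd S S' (insert q₁ (insert q₂ T)) hy1 hy2
  have h2 : ∑ p ∈ T, (S.cc S' p y₁ * st (S.dd S' p y₂) + S.dd S' p y₁ * st (S.cc S' p y₂)) = 0 := by
    refine Finset.sum_eq_zero fun p hp' => ?_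
    rw [h₂.dd p hp', h₁.dd p hp', st_zero, mul_zero, zero_mul, add_zero]
  rw [Finset.sum_insert hq1, Finset.sum_insert h₂.notin, h2, add_zero, hc1, hd1, hc2, hd2, h₁.one,
    h₂.one, h₂.mem q₁ h₁.notin hne, h₁.mem q₂ h₂.notin (Ne.symm hne), one_mul, st_zero, mul_zero,
    add_zero, zero_mul, zero_add, st_one, mul_one] at h1
  have h3 := A8_eq h1
  rw [← h3, st_st]

/-- A new prime of a given type, with given values at the classes of the previous primes. -/
theorem next {S : SysR B X Q} (hS : S.Ok) {S' T : Finset Q} (h : S' ⊆ T) (hT : S.Good T)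
    {ι : Type} [Fintype ι] {q : ι → Q} (hinj : Function.Injective q) {y : ι → X} {g : ι → Q → B}
    (hPR : ∀ i, S.PR S' T (g i) (q i) (y i)) (w : ι → B) (γ : Q → B) (A : Finset Q) :
    ∃ (q' : Q) (y' : X), S.PR S' T γ q' y' ∧ q' ∉ A ∧ (∀ i, q' ≠ q i) ∧
      ∀ i, S.r q' (y i) = w i := by
  let ψ : X →ₗ[B] X := LinearMap.id +
    ∑ i, (LinearMap.toSpanSingleton B X (y i)) ∘ₗ (S.u (q i))
  let χ : X →ₗ[B] B :=
    ∑ i, (LinearMap.toSpanSingleton B B (w i)) ∘ₗ (S.u (q i))
  let φ : X →ₗ[B] B := (S.bh S' T γ) ∘ₗ ψ + χ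
  have hψ : ∀ x, ψ x = x + ∑ i, S.u (q i) x • y i := by
    intro x
    simp only [ψ, LinearMap.add_apply, LinearMap.id_apply, LinearMap.sum_apply,
      LinearMap.comp_apply, LinearMap.toSpanSingleton_apply]
  have hχ : ∀ x, χ x = ∑ i, S.u (q i) x * w i := by
    intro x
    simp only [χ, LinearMap.sum_apply, LinearMap.comp_apply, LinearMap.toSpanSingleton_apply,
      smul_eq_mul]
  have hφ : ∀ x, φ x = S.bh S' T γ (ψ x) + χ x := fun x => rfl
  obtain ⟨q', hq1, hq2, hq3⟩ := hS.cheb (T ∪ Finset.univ.image q) A φ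
  rw [Finset.mem_union, not_or] at hq1
  have hne : ∀ i, q' ≠ q i := by
    intro i e
    exact hq1.2 (Finset.mem_image.2 ⟨i, Finset.mem_univ i, e.symm⟩)
  have hr' : ∀ y' ∈ S.Y T, S.r q' y' = S.bh S' T γ y' := by
    intro y' hy'
    have h1 : y' ∈ S.Y (T ∪ Finset.univ.image q) := by
      rw [SysR.mem_Y] at hy' ⊢
      intro p hp
      exact hy' p fun hp2 => hp (Finset.mem_union_left _ hp2)
    have h0 : ∀ i, S.u (q i) y' = 0 := fun i => (SysR.mem_Y.1 hy') (q i) (hPR i).notin
    rw [hq3 y' h1, hφ, hψ, hχ]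
    simp only [h0, zero_smul, zero_mul, Finset.sum_const_zero, add_zero]
  obtain ⟨y', hy'⟩ := new_class hS h hT γ hq1.1 hr'
  have hlast : ∀ i, S.r q' (y i) = w i := by
    intro i
    have h1 : y i ∈ S.Y (T ∪ Finset.univ.image q) := by
      rw [SysR.mem_Y]
      intro p hp
      rw [Finset.mem_union, not_or] at hp
      refine (hPR i).mem p hp.1 fun e => hp.2 ?_
      rw [e]
      exact Finset.mem_image.2 ⟨i, Finset.mem_univ i, rfl⟩
    have h0 : ∀ k, k ≠ i → S.u (q k) (y i) = 0 := fun k hk =>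
      (hPR i).mem (q k) (hPR k).notin fun e => hk (hinj e)
    have h2 : ∑ k, S.u (q k) (y i) • y k = y i := by
      rw [Finset.sum_eq_single i]
      · rw [(hPR i).one, one_smul]
      · intro k _ hk
        rw [h0 k hk, zero_smul]
      · intro hk
        exact absurd (Finset.mem_univ i) hk
    have h3 : ∑ k, S.u (q k) (y i) * w k = w i := by
      rw [Finset.sum_eq_single i]
      · rw [(hPR i).one, one_mul]
      · intro k _ hk
        rw [h0 k hk, zero_mul]
      · intro hk
        exact absurd (Finset.mem_univ i) hk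
    rw [hq3 (y i) h1, hφ, hψ, hχ, h2, h3, mod_two (B := B), map_zero, zero_add]
  exact ⟨q', y', hy', hq2, hne, hlast⟩

theorem seq {S : SysR B X Q} (hS : S.Ok) {S' T : Finset Q} (h : S' ⊆ T) (hT : S.Good T)
    (γ : Q → B) (z : B) (A : Finset Q) (n : ℕ) :
    ∃ (q : Fin n → Q) (y : Fin n → X), Function.Injective q ∧ (∀ i, q i ∉ A) ∧
      (∀ i, S.PR S' T γ (q i) (y i)) ∧ ∀ i j, i < j → S.r (q j) (y i) = z + S.r (q i) (y i) := by
  induction n with
  | zero =>
    exact ⟨fun i => i.elim0, fun i => i.elim0, fun i => i.elim0, fun i => i.elim0,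
      fun i => i.elim0, fun i => i.elim0⟩
  | succ n ih =>
    obtain ⟨q, y, hinj, hA, hPR, hseq⟩ := ih
    obtain ⟨q', y', hy', hq2, hne, hlast⟩ := next hS h hT hinj hPR
      (fun i => z + S.r (q i) (y i)) γ A
    refine ⟨Fin.snoc q q', Fin.snoc y y', ?_, ?_, ?_, ?_⟩
    · intro i j
      refine Fin.lastCases ?_ (fun i => ?_) i <;> refine Fin.lastCases ?_ (fun j => ?_) j
      · intro _
        rfl
      · intro e
        rw [Fin.snoc_last, Fin.snoc_castSucc] at e
        exact absurd e (hne j)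
      · intro e
        rw [Fin.snoc_last, Fin.snoc_castSucc] at e
        exact absurd e.symm (hne i)
      · intro e
        rw [Fin.snoc_castSucc, Fin.snoc_castSucc] at e
        rw [hinj e]
    · intro i
      refine Fin.lastCases ?_ (fun i => ?_) i
      · rw [Fin.snoc_last]
        exact hq2
      · rw [Fin.snoc_castSucc]
        exact hA i
    · intro i
      refine Fin.lastCases ?_ (fun i => ?_) i
      · rw [Fin.snoc_last, Fin.snoc_last]
        exact hy'
      · rw [Fin.snoc_castSucc, Fin.snoc_castSucc]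
        exact hPR i
    · intro i j
      refine Fin.lastCases ?_ (fun i => ?_) i <;> refine Fin.lastCases ?_ (fun j => ?_) j
      · intro e
        exact absurd e (lt_irrefl _)
      · intro e
        exact absurd (e.trans (Fin.castSucc_lt_last j)) (lt_irrefl _)
      · intro _
        rw [Fin.snoc_last, Fin.snoc_castSucc, Fin.snoc_castSucc]
        exact hlast i
      · intro e
        rw [Fin.snoc_castSucc, Fin.snoc_castSucc, Fin.snoc_castSucc]
        exact hseq i j (Fin.castSucc_lt_castSucc_iff.1 e)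

end H26GN
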