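import Pool.Agent.H26.GN.B0
import Pool.Agent.H49.GN.Aa

/-!
ROW C1 (MP_78d38b_GN, about 130 lines): invariant forms on modules over a semisimple ring with involution.
Paper: /team-store/H26_78d38b_GN.md, 6.2.  `Frm B β`: `β` is biadditive and `β (a x) y = β x (a* y)` (Df.lean).

PROOF. t_zero_of: `tau (b x * st (b y)) = tau (b x * (1 + e) * st (b y))` since `e * b x = b (e • x) = 0` and `e` is central (`TE.cen`). `1 + e = z + st z` (`TE.zz`). `s x y := tau (b x * z * st (b y))` is a form: additive; `s (a • x) y = tau (a * b x * z * st (b y)) = tau (b x * z * st (b y) * a) = tau (b x * z * st (b (st a • y)))`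
[`st (b (st a • y)) = st (st a * b y) = st (b y) * a`]. By `h`: `s x y = s y x`, and `tau (b x * st z * st (b y)) = tau (st (b x * st z * st (b y))) = tau (b y * z * st (b x)) = s y x`. Sum: `s x y + s y x = 0`.
sym_of_zero: (1) for `b b' : M →ₗ B`: `tau (b x * st (b' y)) = tau (b' x * st (b y))` (h for `b + b'`, `b`, `b'`; characteristic two), and `tau (b' x * st (b y)) = tau (st ..) = tau (b y * st (b' x))`; so `t x y := tau (b x * st (b' y))` satisfies `t x y = t y x`.
(2) every form `β` is a finite sum of such `t`: `M` is finite, so there is a surjective linear `p : (ι → B) → M` (`ι := M`, `p w = ∑ m, w m • m`), `B` semisimple: there is `i : M →ₗ (ι → B)` with `p (i m) = m` (`IsSemisimpleModule`/`Module.Projective`: `LinearMap.exists_rightInverse_of_surjective`-like for semisimple rings; `Module.projective_lifting_property` with `Module.Projective B M` from `IsSemisimpleRing`).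
`β x y = β (p (i x)) (p (i y)) = ∑ m ∑ m', β (i x m • m) (i y m' • m')` (biadditive) and `β (a • m) (a' • m') = β (st a' • a • m) m' = l ((st a') * a)` where `l c := β (c • m) m'` is additive on `B`, `l c = tau (c * d)` (exists_rep). So it is `tau (st a' * a * d) = tau (a * d * st a')`: the form `t` of `b x := i x m * d`, `b' y := i y m'`.
-/

set_option autoImplicit false
open scoped Classical

namespace H26GN

variable {B : Type} [Ring B] [TR B] [Finite B]

theorem t_zero_of [TE B] {M : Type} [AddCommGroup M] [Module B M]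
    (hM : ∀ m : M, (TE.e : B) • m = 0)
    (h : ∀ β : M → M → ZMod 2, Frm B β → ∀ x y, β x y = β y x) (b : M →ₗ[B] B) (x y : M) :
    tau (b x * st (b y)) = 0 :=
  H49GN.t_of_symm hM (fun β hβ => h β ⟨hβ.addl, hβ.addr, hβ.inv⟩) b x y

theorem sym_of_zero [IsSemisimpleRing B] {M : Type} [AddCommGroup M] [Module B M] [Finite M]
    (h : ∀ (b : M →ₗ[B] B) (x y : M), tau (b x * st (b y)) = 0) {β : M → M → ZMod 2}
    (hβ : Frm B β) (x y : M) : β x y = β y x :=
  H49GN.symm_of_t h ⟨hβ.al, hβ.ar, hβ.inv⟩ x y

end H26GN
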