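import Pool.Agent.H26.GN.C1

/-!
ROW C2 (MP_78d38b_GN, about 120 lines): orthogonal complements and left ideals with a nondegenerate form.
Paper: /team-store/H26_78d38b_GN.md, 6.3.

`Sy B β`: `om x y := β x y + β y x`.  For a submodule `C` of `V`: `Cperp β C` (given below) is its orthogonal complement for `om`.
PROOF. compl_of_nd: `om` nondegenerate on `C` (if `c ∈ C` and `om c c' = 0` for all `c' ∈ C` then `c = 0`): `C ⊓ C^⊥ = ⊥`, and `C ⊔ C^⊥ = ⊤`: for `v ∈ V` the functional `c ↦ om v c` on `C` is `om c₀` for some `c₀ ∈ C` (`C` finite: the additive map `C → (C →+ ZMod 2)`, `c₀ ↦ om c₀`, is injective and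
the groups have the same number of elements: elementary abelian; see `card_du` in B2.lean for the counting), then `v - c₀ ∈ C^⊥`.
bal_perp: `β` restricted to `C^⊥`: if `x ∈ C^⊥` and `om x y = 0` for `y ∈ C^⊥` then `om x = 0` on `C ⊔ C^⊥ = V`, `x = 0`.
exists_f: `b : C →ₗ B` such that `t x y := tau (b x * st (b y))` is nondegenerate on `C` (`ht`). `b` is injective. `L := range b` (left ideal), `L^⊥ := {a | ∀ x ∈ L, tau (x * st a) = 0}` is a left ideal (`tau (x * st (c a)) = tau (x * st a * st c) = tau (st c * x * st a)`), `L ⊓ L^⊥ = ⊥` and as above (finite, nondegenerate on `L`) `L ⊔ L^⊥ = ⊤`.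
`1 = f + f'` with `f ∈ L`, `f' ∈ L^⊥`. For `x ∈ L`: `x = x f + x f'`, `x f' = x - x f ∈ L`, `x f' ∈ L^⊥`, so `x f' = 0`, `x f = x`; `f f = f`. For `x ∈ L`: `tau (y * (x * st f')) = tau ((y x) * st f') = 0` for all `y`, so `x * st f' = 0` (eq_zero_of_tau), `x = x * st 1 = x * st f + x * st f' = x * st f`. `f = f * st f`, `st f = st (f * st f) = f * st f = f`.
Then `b c * f = b c` for all `c`, `f = b v` for some `v` (`f ∈ L`).  `f ≠ 0` if `C` is nontrivial (`b c = b c * f`, `b` injective).
-/

set_option autoImplicit false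
open scoped Classical

namespace H26GN

variable {B : Type} [Ring B] [TR B] [Finite B]

/-- The orthogonal complement for `β(x,y) + β(y,x)`. -/
def Cperp {V : Type} [AddCommGroup V] [Module B V] {β : V → V → ZMod 2} (hβ : Frm B β)
    (C : Submodule B V) : Submodule B V where
  carrier := {v | ∀ c ∈ C, β v c + β c v = 0}
  zero_mem' := fun c _ => by
    have h1 : β 0 c = 0 := by
      have h := hβ.al 0 0 c
      rw [add_zero] at h
      rwa [left_eq_add] at h
    have h2 : β c 0 = 0 := by
      have h := hβ.ar c 0 0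
      rw [add_zero] at h
      rwa [left_eq_add] at h
    rw [h1, h2, add_zero]
  add_mem' := fun {x y} hx hy c hc => by
    rw [hβ.al, hβ.ar]
    have h1 := hx c hc
    have h2 := hy c hc
    calc β x c + β y c + (β c x + β c y) = (β x c + β c x) + (β y c + β c y) := by ring
      _ = 0 := by rw [h1, h2, add_zero]
  smul_mem' := fun a x hx c hc => by
    have h1 := hx (st a • c) (C.smul_mem _ hc)
    have h2 : β c (a • x) = β (st a • c) x := by
      have h := hβ.inv (st a) c x
      rw [st_st] at h
      exact h.symm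
    rw [hβ.inv, h2]
    exact h1

theorem mem_Cperp {V : Type} [AddCommGroup V] [Module B V] {β : V → V → ZMod 2} {hβ : Frm B β}
    {C : Submodule B V} {v : V} : v ∈ Cperp hβ C ↔ ∀ c ∈ C, β v c + β c v = 0 := Iff.rfl

omit [Finite B] in
/-- A nondegenerate form on a finite elementary abelian group represents every functional. -/
theorem C2_rep {C : Type} [AddCommGroup C] [Finite C] (h2 : ∀ x : C, x + x = 0)
    (om : C → C → ZMod 2) (al : ∀ x x' y, om (x + x') y = om x y + om x' y)
    (ar : ∀ x y y', om x (y + y') = om x y + om x y') (nd : ∀ x, (∀ y, om x y = 0) → x = 0)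
    (l : C →+ ZMod 2) : ∃ c, ∀ x, l x = om c x := by
  let _ : Module (ZMod 2) C := AddCommGroup.zmodModule (fun x => by rw [two_nsmul]; exact h2 x)
  let Φ : C →ₗ[ZMod 2] Module.Dual (ZMod 2) C :=
    AddMonoidHom.toZModLinearMap 2 (AddMonoidHom.mk' (fun c : C =>
      (AddMonoidHom.toZModLinearMap 2 (AddMonoidHom.mk' (om c) (ar c)) : C →ₗ[ZMod 2] ZMod 2))
      (fun c c' => by
        apply LinearMap.ext
        intro x
        exact al c c' x))
  have hΦ : ∀ c x, Φ c x = om c x := fun c x => rfl
  have hinj : Function.Injective Φ := by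
    rw [← LinearMap.ker_eq_bot, LinearMap.ker_eq_bot']
    intro c hc
    apply nd
    intro y
    rw [← hΦ, hc]
    rfl
  have hfin : Module.Finite (ZMod 2) C := Module.Finite.of_finite
  have hsurj : Function.Surjective Φ :=
    (LinearMap.injective_iff_surjective_of_finrank_eq_finrank (Subspace.dual_finrank_eq).symm).1 hinj
  obtain ⟨c, hc⟩ := hsurj (AddMonoidHom.toZModLinearMap 2 l)
  refine ⟨c, fun x => ?_⟩
  rw [← hΦ, hc]
  rfl

theorem compl_of_nd {V : Type} [AddCommGroup V] [Module B V] [Finite V] {β : V → V → ZMod 2}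
    (hβ : Frm B β) {C : Submodule B V}
    (hC : ∀ c ∈ C, (∀ c' ∈ C, β c c' + β c' c = 0) → c = 0) : IsCompl C (Cperp hβ C) := by
  refine ⟨?_, ?_⟩
  · rw [Submodule.disjoint_def]
    intro x hx hx'
    exact hC x hx (fun c' hc' => hx' c' hc')
  · rw [codisjoint_iff, eq_top_iff]
    intro v _
    obtain ⟨c, hc⟩ := C2_rep (C := C) (fun x => mod_two (B := B) x)
      (fun x y => β x y + β y x)
      (fun x x' y => by
        rw [Submodule.coe_add, hβ.al, hβ.ar]
        ring)
      (fun x y y' => by
        rw [Submodule.coe_add, hβ.al, hβ.ar]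
        ring)
      (fun x hx => by
        apply Subtype.ext
        exact hC x x.2 (fun c' hc' => hx ⟨c', hc'⟩))
      (AddMonoidHom.mk' (fun x : C => β v x + β x v) (fun x y => by
        rw [Submodule.coe_add, hβ.al, hβ.ar]
        ring))
    have h1 : (v - c : V) ∈ Cperp hβ C := by
      intro x hx
      have h2 := hc ⟨x, hx⟩
      change β v x + β x v = β c x + β x c at h2
      have h3 : (v - c : V) = v + c := by
        rw [sub_eq_iff_eq_add, add_assoc, mod_two (B := B) (c : V), add_zero]
      rw [h3, hβ.al, hβ.ar]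
      calc β v x + β c x + (β x v + β x c) = (β v x + β x v) + (β c x + β x c) := by ring
        _ = 0 := by rw [h2]; exact CharTwo.add_self_eq_zero _
    rw [Submodule.mem_sup]
    exact ⟨c, c.2, v - c, h1, by abel⟩

theorem bal_perp {V : Type} [AddCommGroup V] [Module B V] [Finite V] {β : V → V → ZMod 2}
    (hβ : Frm B β) (hnd : ∀ x, (∀ y, β x y + β y x = 0) → x = 0) {C : Submodule B V}
    (hC : ∀ c ∈ C, (∀ c' ∈ C, β c c' + β c' c = 0) → c = 0) : Bal B (Cperp hβ C) := by
  refine ⟨fun x y => β x y, ⟨fun x x' y => hβ.al _ _ _, fun x y y' => hβ.ar _ _ _,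
    fun a x y => hβ.inv _ _ _⟩, fun x hx => ?_⟩
  apply Subtype.ext
  apply hnd
  intro y
  have htop : y ∈ C ⊔ Cperp hβ C := by
    rw [(compl_of_nd hβ hC).sup_eq_top]
    exact Submodule.mem_top
  rw [Submodule.mem_sup] at htop
  obtain ⟨c, hc, d, hd, rfl⟩ := htop
  have h1 := x.2 c hc
  have h2 := hx ⟨d, hd⟩
  change β x d + β d x = 0 at h2
  rw [hβ.al, hβ.ar]
  calc β x c + β x d + (β c x + β d x) = (β x c + β c x) + (β x d + β d x) := by ring
    _ = 0 := by rw [h1, h2, add_zero]

theorem exists_f {C : Type} [AddCommGroup C] [Module B C] [Finite C] [Nontrivial C]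
    (b : C →ₗ[B] B) (ht : ∀ x, (∀ y, tau (b x * st (b y)) = 0) → x = 0) :
    ∃ f : B, f * f = f ∧ st f = f ∧ f ≠ 0 ∧ (∀ c, b c * f = b c) ∧ ∃ c, b c = f := by
  have hsym : ∀ x y, tau (b x * st (b y)) = tau (b y * st (b x)) := by
    intro x y
    rw [← tau_st, st_mul, st_st]
  obtain ⟨v, hv⟩ := C2_rep (C := C) (fun x => mod_two (B := B) x)
    (fun x y => tau (b x * st (b y)))
    (fun x x' y => by rw [map_add, add_mul, tau_add])
    (fun x y y' => by rw [map_add, st_add, mul_add, tau_add])
    ht
    (AddMonoidHom.mk' (fun x : C => tau (b x)) (fun x y => by rw [map_add, tau_add]))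
  have hv' : ∀ x, tau (b x) = tau (b x * st (b v)) := by
    intro x
    rw [hsym]
    exact hv x
  have h1 : ∀ x, b x * st (b v) = b x := by
    intro x
    apply eq_of_tau
    intro a
    have h := hv' (a • x)
    rw [map_smul, smul_eq_mul, mul_assoc] at h
    exact h.symm
  have h2 : st (b v) = b v := by
    conv_lhs => rw [← h1 v]
    rw [st_mul, st_st]
    exact h1 v
  refine ⟨b v, ?_, h2, ?_, ?_, v, rfl⟩
  · have h := h1 v
    rwa [h2] at h
  · intro h0
    obtain ⟨x, hx⟩ := _root_.exists_ne (0 : C)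
    apply hx
    apply ht
    intro y
    have h := h1 x
    rw [h2, h0, mul_zero] at h
    rw [← h, zero_mul, tau_zero]
  · intro c
    have h := h1 c
    rwa [h2] at h

end H26GN
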