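import Pool.Agent.H26.GN.C2
import Pool.Agent.H49.GN.Ac

/-!
ROW C3 (MP_78d38b_GN, about 220 lines): the nondegenerate summand.  Paper: /team-store/H26_78d38b_GN.md, 6.3.  Use the statements of C1, C2.

Write `om x y := β x y + β y x` (symmetric; `om (a x) y = om x (a* y)`).
PROOF of exists_t. Let `C` be finite with form `β`, `om` nondegenerate on `C` (`hnd`), `C` nontrivial, `e • c = 0`, and MINIMAL (`hmin`): every submodule `C' ≠ ⊥` of `C` on which `om` is nondegenerate is `⊤`. Claim: there is `b : C →ₗ B` with `tau (b x * st (b y))` nondegenerate.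
 (a) If `b` with `t_b ≠ 0` exists on `C`: it does, otherwise all forms are symmetric (sym_of_zero), `β x y = β y x`, `om = 0`, contradiction to nondegeneracy and `C ≠ 0`.
 (b) Let `R := {x | ∀ y, t_b x y = 0}` (a submodule, `t_b` is an invariant symmetric form), `R ≠ ⊤`. If `R = ⊥` done. Suppose `R ≠ ⊥`. Choose a simple submodule `I ≤ R` (finite module: `IsAtomic`), and a simple submodule `C1` not contained in `R`... do it as follows:
   every simple submodule `I` of `C` is isotropic or `⊤` (if `om` is not zero on `I` then the radical of `om|I` is a proper submodule of the simple `I`, so zero, `om` is nondegenerate on `I`, `I = ⊤` by hmin; then `R` is `⊥` or `⊤` since `C` is simple: contradiction). So all simple submodules are isotropic.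
   `C` is semisimple; a simple submodule `C1` with `C1 ⊄ R` exists (`C` is the sum of its simple submodules). `t_b` is not zero on `C1`? : we want a simple `C1` with `t_b|C1 ≠ 0`. The quotient: choose a complement `K` of `R` (`R ⊓ K = ⊥`, `R ⊔ K = ⊤`), `t_b` is nondegenerate on `K`, `K ≠ ⊥`. Let `I ≤ C` be simple, `I'` a complement of `I^⊥` (`om`); `I' ≃ Dual`, `I'` is simple [`C / I^⊥ ≃ Du I`, simple], `I ⊔ I'` is nondegenerate:
   `C = I ⊔ I'` by hmin, so `C` has length two, `R` and `K` are simple (both nonzero proper). So `t_b` is nondegenerate on the simple `K =: C1`, and `om` vanishes on `C1` and on `R`.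
 (c) `t_b` gives `C1 ≃ Du C1`; `om` gives `R ≃ Du C1` (`om : R × C1` is nondegenerate since `om` is nondegenerate on `C = R ⊔ C1` and zero on `R`, `C1`). So there is an isomorphism `φ : C1 ≃ R`. For every `λ : C1 →ₗ C1`: `I_λ := {x + φ (λ x)}` is a simple submodule (isomorphic to `C1`), so isotropic: `0 = om (x + φλx) (y + φλy) = om x (φλy) + om (φλx) y`.
   `η x y := om (φ x) y`; `η (λ x) y = om (φλx) y = om x (φλy) = om (φλy) x = η (λ y) x`.
   Every form `s` on `C1` is `s x y = η (λ x) y` for some linear `λ` (`η` nondegenerate, finite: for `x` there is a unique `λ x` with `s x y = η (λ x) y` for all `y`; linear by uniqueness). So every form on `C1` is symmetric, and `t_zero_of` gives `t_b = 0` on `C1` (with `b` restricted to `C1`): contradiction to nondegeneracy, `C1 ≠ 0`.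
exists_C: choose `C ≤ V` minimal (finite) among the nonzero submodules on which `om` is nondegenerate (`⊤` is one). `exists_t` for `C` with `β` restricted gives `b₀ : C →ₗ B`; `exists_f` gives `f`; `compl_of_nd`: `V = C ⊕ C^⊥`, `b := b₀ ∘ (projection onto C along C^⊥)` (`Submodule.linearProjOfIsCompl` / `IsCompl.projection`); `ker b = C^⊥` (`b₀` is injective: t nondegenerate), `bal_perp`.
-/

set_option autoImplicit false
open scoped Classical

namespace H26GN

variable {B : Type} [Ring B] [TR B] [Finite B] [TE B] [IsSemisimpleRing B]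

theorem exists_t {C : Type} [AddCommGroup C] [Module B C] [Finite C] [Nontrivial C]
    (hC : ∀ c : C, (TE.e : B) • c = 0) {β : C → C → ZMod 2} (hβ : Frm B β)
    (hnd : ∀ x, (∀ y, β x y + β y x = 0) → x = 0)
    (hmin : ∀ C' : Submodule B C, C' ≠ ⊥ →
      (∀ c ∈ C', (∀ c' ∈ C', β c c' + β c' c = 0) → c = 0) → C' = ⊤) :
    ∃ b : C →ₗ[B] B, ∀ x, (∀ y, tau (b x * st (b y)) = 0) → x = 0 := by
  refine H49GN.exists_nd hC ⟨hβ.al, hβ.ar, hβ.inv⟩ hnd (fun D hD0 hD1 => ?_) (_root_.exists_ne 0)
  by_contra hcon
  push Not at hcon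
  refine hD1 (hmin D hD0 fun c hc h => ?_)
  by_contra h0
  obtain ⟨y, hy, hy'⟩ := hcon c hc h0
  exact hy' (h y hy)

theorem exists_C {V : Type} [AddCommGroup V] [Module B V] [Finite V] [Nontrivial V]
    (hV : ∀ v : V, (TE.e : B) • v = 0) (hb : Bal B V) :
    ∃ (f : B) (b : V →ₗ[B] B), f * f = f ∧ st f = f ∧ f ≠ 0 ∧ (∀ v, b v * f = b v) ∧
      (∃ v, b v = f) ∧ Bal B (LinearMap.ker b) := by
  obtain ⟨f, b, h1, h2, -, h3, h4, ⟨v, hv⟩, h5⟩ := H49GN.exists_step hb hV (_root_.exists_ne 0)
  refine ⟨f, b, h1, h2, fun h0 => hv ?_, h3, h4, h5⟩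
  rw [← h3 v, h0, mul_zero]

end H26GN
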