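import Pool.Agent.H26.GN.C2

/-!
ROW C4 (MP_78d38b_GN, about 90 lines): two functionals on the trivial component.  Paper: /team-store/H26_78d38b_GN.md, 6.4.

PROOF. `β`, `om x y := β x y + β y x` nondegenerate. `x₀ := e • v ≠ 0`; there is `w` with `om x₀ w ≠ 0`; `om x₀ w = om (e • x₀) w = om x₀ (e • w)` (`st e = e`, `e e = e`): `y₀ := e • w`, `om x₀ y₀ = 1`. `om x₀ x₀ = β x₀ x₀ + β x₀ x₀ = 0`, `om y₀ y₀ = 0`.
For `a : B`: `a • x₀ = a e • v` is `0` or `x₀` (`TE.triv`), in the same way for `y₀`, and `st a • x₀ = x₀` iff `a • x₀ = x₀` [`a e = e` iff `st a e = e`: apply `st` and `TE.cen`].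
`b₁ v := if om v x₀ = 1 then e else 0` (i.e. `om v x₀ • e`): additive; linear: `om (a • v) x₀ = om v (st a • x₀)`, and `a * e` is `e` or `0` accordingly. `b₂ v := om v y₀ • e`. `b₁ y₀ = e`, `b₂ y₀ = 0`; `b₁ x₀ = 0`, `b₂ x₀ = e`. `b v * e = b v` (`ee`).
`ker b₁ ⊓ ker b₂ = {v | om v x₀ = 0, om v y₀ = 0}` (`e ≠ 0`) `= Cperp hβ C` with `C := {0, x₀, y₀, x₀ + y₀}` = `B x₀ + B y₀` (`Submodule.span B {x₀, y₀}`; a member is `a • x₀ + a' • y₀`), `om` is nondegenerate on `C`. `bal_perp`.
-/

set_option autoImplicit false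
open scoped Classical

namespace H26GN

variable {B : Type} [Ring B] [TR B] [Finite B] [TE B]

theorem exists_pairE {V : Type} [AddCommGroup V] [Module B V] [Finite V] (hb : Bal B V)
    (hne : ∃ v : V, (TE.e : B) • v ≠ 0) :
    ∃ b₁ b₂ : V →ₗ[B] B, (∃ v, b₁ v = TE.e ∧ b₂ v = 0) ∧ (∃ v, b₁ v = 0 ∧ b₂ v = TE.e) ∧
      (∀ v, b₁ v * TE.e = b₁ v) ∧ (∀ v, b₂ v * TE.e = b₂ v) ∧
      Bal B (LinearMap.ker b₁ ⊓ LinearMap.ker b₂ : Submodule B V) := by
  obtain ⟨β, hβ, hnd⟩ := hb
  obtain ⟨v, hv⟩ := hne
  -- the form `om`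
  let om : V → V → ZMod 2 := fun x y => β x y + β y x
  have omdef : ∀ x y, om x y = β x y + β y x := fun _ _ => rfl
  have oml : ∀ x x' y, om (x + x') y = om x y + om x' y := fun x x' y => by
    rw [omdef, omdef, omdef, hβ.al, hβ.ar]
    ring
  have omc : ∀ x y, om x y = om y x := fun x y => add_comm _ _
  have omr : ∀ x y y', om x (y + y') = om x y + om x y' := fun x y y' => by
    rw [omc, oml, omc y x, omc y' x]
  have omi : ∀ (a : B) x y, om (a • x) y = om x (st a • y) := fun a x y => by
    rw [omdef, omdef, hβ.inv, hβ.inv (st a) y x, st_st]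
  have z2 : ∀ t : ZMod 2, t + t = 0 := by decide
  have z01 : ∀ t : ZMod 2, t ≠ 1 → t = 0 := by decide
  have z10 : ∀ t : ZMod 2, t ≠ 0 → t = 1 := by decide
  have omx : ∀ x, om x x = 0 := fun x => z2 _
  have om0 : ∀ x, om x 0 = 0 := fun x => by
    have h := omr x 0 0
    rw [add_zero] at h
    rwa [left_eq_add] at h
  -- `x₀` and `y₀`
  set x₀ : V := (TE.e : B) • v with hx₀
  have hex : (TE.e : B) • x₀ = x₀ := by rw [hx₀, smul_smul, TE.ee]
  obtain ⟨w, hw⟩ : ∃ w, om x₀ w ≠ 0 := by
    by_contra hcon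
    push Not at hcon
    exact hv (hnd x₀ hcon)
  set y₀ : V := (TE.e : B) • w with hy₀
  have hey : (TE.e : B) • y₀ = y₀ := by rw [hy₀, smul_smul, TE.ee]
  have hxy : om x₀ y₀ = 1 := by
    apply z10
    have h := omi (TE.e : B) x₀ w
    rw [hex, TE.ste] at h
    rw [← h]
    exact hw
  have hyx : om y₀ x₀ = 1 := by rw [omc]; exact hxy
  -- the action on `x₀` and `y₀`
  have ste0 : ∀ a : B, a * TE.e = 0 → st a * TE.e = 0 := fun a ha => by
    have h := congrArg st ha
    rw [st_mul, TE.ste, st_zero] at h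
    rw [TE.cen, h]
  have ste1 : ∀ a : B, a * TE.e = TE.e → st a * TE.e = TE.e := fun a ha => by
    have h := congrArg st ha
    rw [st_mul, TE.ste] at h
    rw [TE.cen, h]
  have act0 : ∀ x : V, (TE.e : B) • x = x → ∀ a : B, a * TE.e = 0 → a • x = 0 := fun x hx a ha => by
    rw [← hx, smul_smul, ha, zero_smul]
  have act1 : ∀ x : V, (TE.e : B) • x = x → ∀ a : B, a * TE.e = TE.e → a • x = x := fun x hx a ha => by
    conv_lhs => rw [← hx, smul_smul, ha]
    exact hx
  -- the functionals
  have hb : ∀ x : V, (TE.e : B) • x = x → ∃ b : V →ₗ[B] B, ∀ u, b u = if om u x = 1 then TE.e else 0 := by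
    intro x hx
    refine ⟨{ toFun := fun u => if om u x = 1 then TE.e else 0, map_add' := ?_, map_smul' := ?_ }, fun u => rfl⟩
    · intro u u'
      rw [oml]
      have key : ∀ s t : ZMod 2, (if s + t = 1 then (TE.e : B) else 0) = (if s = 1 then TE.e else 0) + (if t = 1 then TE.e else 0) := by
        intro s t
        by_cases hs : s = 1
        · by_cases ht : t = 1
          · rw [hs, ht, if_neg (by decide), if_pos rfl, add_self]
          · rw [z01 t ht, hs, add_zero, if_pos rfl, if_neg (by decide), add_zero]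
        · rw [z01 s hs, zero_add, if_neg (show ¬ (0 : ZMod 2) = 1 by decide), zero_add]
      exact key _ _
    · intro a u
      rw [RingHom.id_apply, smul_eq_mul, omi]
      rcases TE.triv a with ha | ha
      · rw [act0 x hx _ (ste0 a ha), om0, if_neg (by decide)]
        split_ifs
        · exact ha.symm
        · rw [mul_zero]
      · rw [act1 x hx _ (ste1 a ha)]
        split_ifs
        · exact ha.symm
        · rw [mul_zero]
  obtain ⟨b₁, hb₁⟩ := hb x₀ hex
  obtain ⟨b₂, hb₂⟩ := hb y₀ hey
  refine ⟨b₁, b₂, ⟨y₀, ?_, ?_⟩, ⟨x₀, ?_, ?_⟩, ?_, ?_, ?_⟩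
  · rw [hb₁, if_pos hyx]
  · rw [hb₂, omx, if_neg (by decide)]
  · rw [hb₁, omx, if_neg (by decide)]
  · rw [hb₂, if_pos hxy]
  · intro u
    rw [hb₁]
    split_ifs
    · exact TE.ee
    · rw [zero_mul]
  · intro u
    rw [hb₂]
    split_ifs
    · exact TE.ee
    · rw [zero_mul]
  · have hxx : x₀ + x₀ = 0 := mod_two (B := B) x₀
    have hyy : y₀ + y₀ = 0 := mod_two (B := B) y₀
    let C : Submodule B V :=
      { carrier := {c | c = 0 ∨ c = x₀ ∨ c = y₀ ∨ c = x₀ + y₀}
        zero_mem' := Or.inl rfl
        add_mem' := by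
          intro c c' hc hc'
          have e1 : x₀ + y₀ + x₀ = y₀ := by
            rw [add_comm x₀ y₀, add_assoc, hxx, add_zero]
          have e2 : x₀ + y₀ + y₀ = x₀ := by
            rw [add_assoc, hyy, add_zero]
          have e3 : x₀ + (x₀ + y₀) = y₀ := by
            rw [← add_assoc, hxx, zero_add]
          have e4 : y₀ + (x₀ + y₀) = x₀ := by
            rw [add_comm x₀ y₀, ← add_assoc, hyy, zero_add]
          have e5 : x₀ + y₀ + (x₀ + y₀) = 0 := mod_two (B := B) _
          rcases hc with rfl | rfl | rfl | rfl <;> rcases hc' with h | h | h | h <;> rw [h]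
          · exact Or.inl (add_zero _)
          · exact Or.inr (Or.inl (zero_add _))
          · exact Or.inr (Or.inr (Or.inl (zero_add _)))
          · exact Or.inr (Or.inr (Or.inr (zero_add _)))
          · exact Or.inr (Or.inl (add_zero _))
          · exact Or.inl hxx
          · exact Or.inr (Or.inr (Or.inr rfl))
          · exact Or.inr (Or.inr (Or.inl e3))
          · exact Or.inr (Or.inr (Or.inl (add_zero _)))
          · exact Or.inr (Or.inr (Or.inr (add_comm _ _)))
          · exact Or.inl hyy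
          · exact Or.inr (Or.inl e4)
          · exact Or.inr (Or.inr (Or.inr (add_zero _)))
          · exact Or.inr (Or.inr (Or.inl e1))
          · exact Or.inr (Or.inl e2)
          · exact Or.inl e5
        smul_mem' := by
          intro a c hc
          rcases TE.triv a with ha | ha
          · refine Or.inl ?_
            rcases hc with h | h | h | h <;> rw [h]
            · rw [smul_zero]
            · exact act0 x₀ hex a ha
            · exact act0 y₀ hey a ha
            · rw [smul_add, act0 x₀ hex a ha, act0 y₀ hey a ha, add_zero]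
          · have h1 : a • c = c := by
              rcases hc with h | h | h | h <;> rw [h]
              · rw [smul_zero]
              · exact act1 x₀ hex a ha
              · exact act1 y₀ hey a ha
              · rw [smul_add, act1 x₀ hex a ha, act1 y₀ hey a ha]
            rw [h1]
            exact hc }
    have hCm : ∀ c, c ∈ C ↔ (c = 0 ∨ c = x₀ ∨ c = y₀ ∨ c = x₀ + y₀) := fun c => Iff.rfl
    have hker : (LinearMap.ker b₁ ⊓ LinearMap.ker b₂ : Submodule B V) = Cperp hβ C := by
      ext u
      rw [Submodule.mem_inf, LinearMap.mem_ker, LinearMap.mem_ker, mem_Cperp]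
      constructor
      · rintro ⟨h1, h2⟩ c hc
        have g1 : om u x₀ = 0 := by
          apply z01
          intro h
          rw [hb₁, if_pos h] at h1
          exact TE.ne h1
        have g2 : om u y₀ = 0 := by
          apply z01
          intro h
          rw [hb₂, if_pos h] at h2
          exact TE.ne h2
        change om u c = 0
        rcases (hCm c).1 hc with h | h | h | h <;> rw [h]
        · exact om0 u
        · exact g1
        · exact g2
        · rw [omr, g1, g2, add_zero]
      · intro h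
        have g1 : om u x₀ = 0 := h x₀ ((hCm _).2 (Or.inr (Or.inl rfl)))
        have g2 : om u y₀ = 0 := h y₀ ((hCm _).2 (Or.inr (Or.inr (Or.inl rfl))))
        refine ⟨?_, ?_⟩
        · rw [hb₁, g1, if_neg (by decide)]
        · rw [hb₂, g2, if_neg (by decide)]
    rw [hker]
    refine bal_perp hβ hnd ?_
    intro c hc h
    have k1 : om c x₀ = 0 := h x₀ ((hCm _).2 (Or.inr (Or.inl rfl)))
    have k2 : om c y₀ = 0 := h y₀ ((hCm _).2 (Or.inr (Or.inr (Or.inl rfl))))
    rcases (hCm c).1 hc with h' | h' | h' | h'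
    · exact h'
    · rw [h', hxy] at k2
      exact absurd k2 (by decide)
    · rw [h', hyx] at k1
      exact absurd k1 (by decide)
    · rw [h', oml, omx, hyx, zero_add] at k1
      exact absurd k1 (by decide)

end H26GN
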