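import Pool.Agent.H26.GN.B4

/-!
ROW C5 (MP_78d38b_GN, about 180 lines): the step with four primes.  Paper: /team-store/H26_78d38b_GN.md, 6.4.  Model: `pair_step` in B4.lean (proved).

PROOF. `e := TE.e`. Let `x ∈ Sel (S' ∪ {q₁,q₂,q₃,q₄})`, `α i := u (q i) x`, `y := x + ∑ α i • y i`. As in pair_step: `y ∈ Y T` [`u q₁ y = α₁ + α₁ = 0`, .., `PR.one`, `PR.mem`], `cc q x = 0` for `q ∈ T`, so `cc q y = (α₁ + α₂) * γ₁ q + (α₃ + α₄) * γ₂ q`. `r (q i) x = 0`, `r (q i) y = bh y` (`PR.bh`; γ₁ for i = 1,2, γ₂ for 3,4). With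
`c := r q₁ y₁ = r q₂ y₂` (`st c = c`: ci_sym), `c' := r q₃ y₃ = r q₄ y₄`, `r q₁ y₂ = st (r q₂ y₁) = 1 + c` (cij), `r q₃ y₄ = 1 + c'`, `r q₁ y₃ = st x₁₃ = x₁₃` etc. (x's are `0` or `e`):
 R1: bh₁ y = α₁ c + α₂ (1+c) + α₃ x₁₃ + α₄ x₁₄      R2: bh₁ y = α₁ (1+c) + α₂ c + α₃ x₂₃ + α₄ x₂₄
 R3: bh₂ y = α₁ x₁₃ + α₂ x₂₃ + α₃ c' + α₄ (1+c')     R4: bh₂ y = α₁ x₁₄ + α₂ x₂₄ + α₃ (1+c') + α₄ c'
`p := 1 + e`: `bh₁ y * p = 0` [`st (γ₁ q) * e = st (e * γ₁ q) = st (γ₁ q)`], `x * p = 0` for the x's, `e` central (TE.cen). R1 p: `(α₁ c + α₂ + α₂ c) p = 0`, R2 p: `(α₁ + α₁ c + α₂ c) p = 0`; sum: `(α₁ + α₂) p = 0`; `(α₁ + α₂) c p = (α₁ + α₂) p c = 0`, so R1 p gives `α₂ p = 0`, `α₁ p = 0`. In the same way `α₃ p = α₄ p = 0`. So `α i = α i * e ∈ {0, e}` (TE.triv).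
For `v ∈ Sel S'` (recip_cd for `y`, `v`; `cc v = 0`): `0 = (α₁ + α₂) * st (bh₁ v) + (α₃ + α₄) * st (bh₂ v)`; with hv₁: `(α₁ + α₂) * e = 0`, so `α₁ + α₂ = 0`, `α₁ = α₂ =: α`; hv₂: `α₃ = α₄ =: α'`.
R1 + R2: `0 = α (c + 1 + c) + α (1 + c + c) + α' (x₁₃ + x₁₄ + x₂₃ + x₂₄) = α' * e = α'`. R3 + R4: `α * (x₁₃ + x₂₃ + x₁₄ + x₂₄) = α * e = α = 0`. So `y = x`, `bh₁ x = 0`, `bh₂ x = 0`, `x ∈ Sel S'` (mem_Sel_cc).
-/

set_option autoImplicit false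
open scoped Classical

namespace H26GN

section
variable {R : Type*} [Ring R]

private theorem C5_eq (h2 : ∀ a : R, a + a = 0) {a b : R} (h : a + b = 0) : a = b := by
  have h1 : a + b = b + b := by rw [h, h2]
  exact add_right_cancel h1

/-- One half of the linear algebra for `four_step`. -/
private theorem C5_half (h2 : ∀ a : R, a + a = 0) {p a₁ a₂ c u v B : R}
    (hp : ∀ a : R, a * p = p * a)
    (R1 : B = a₁ * c + a₂ * (1 + c) + u) (R2 : B = a₁ * (1 + c) + a₂ * c + v)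
    (hB : B * p = 0) (hu : u * p = 0) (hv : v * p = 0) : a₁ * p = 0 ∧ a₂ * p = 0 := by
  have e1 : (a₁ * c + a₂ * c) * p + a₂ * p = 0 := by
    have h : (a₁ * c + a₂ * (1 + c) + u) * p = 0 := by rw [← R1]; exact hB
    rw [add_mul, hu, add_zero, mul_add, mul_one] at h
    rw [← h]
    simp only [add_mul]
    abel
  have e2 : (a₁ * c + a₂ * c) * p + a₁ * p = 0 := by
    have h : (a₁ * (1 + c) + a₂ * c + v) * p = 0 := by rw [← R2]; exact hB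
    rw [add_mul, hv, add_zero, mul_add, mul_one] at h
    rw [← h]
    simp only [add_mul]
    abel
  have e3 : a₁ * p = a₂ * p := by
    have h := C5_eq h2 e1
    have h' := C5_eq h2 e2
    rw [← h, ← h']
  have e4 : (a₁ * c + a₂ * c) * p = 0 := by
    have h : (a₁ * c + a₂ * c) * p = (a₁ * p + a₂ * p) * c := by
      rw [← add_mul a₁ a₂ c, mul_assoc, hp c, ← mul_assoc, add_mul a₁ a₂ p]
    rw [h, e3, h2, zero_mul]
  rw [e4, zero_add] at e1 e2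
  exact ⟨e2, e1⟩

/-- The linear algebra for `four_step`. -/
private theorem C5_core (h2 : ∀ a : R, a + a = 0)
    {e a₁ a₂ a₃ a₄ c c' x13 x14 x23 x24 B₁ B₂ : R} (hcen : ∀ a : R, a * e = e * a)
    (k13 : x13 * e = x13) (k14 : x14 * e = x14) (k23 : x23 * e = x23) (k24 : x24 * e = x24)
    (hx : x13 + x14 + x23 + x24 = e)
    (R1 : B₁ = a₁ * c + a₂ * (1 + c) + (a₃ * x13 + a₄ * x14))
    (R2 : B₁ = a₁ * (1 + c) + a₂ * c + (a₃ * x23 + a₄ * x24))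
    (R3 : B₂ = a₃ * c' + a₄ * (1 + c') + (a₁ * x13 + a₂ * x23))
    (R4 : B₂ = a₃ * (1 + c') + a₄ * c' + (a₁ * x14 + a₂ * x24))
    (hB₁ : B₁ * e = B₁) (hB₂ : B₂ * e = B₂)
    (h12 : (a₁ + a₂) * e = 0) (h34 : (a₃ + a₄) * e = 0) :
    a₁ = 0 ∧ a₂ = 0 ∧ a₃ = 0 ∧ a₄ = 0 ∧ B₁ = 0 ∧ B₂ = 0 := by
  have hp : ∀ a : R, a * (1 + e) = (1 + e) * a := by
    intro a
    rw [mul_add, add_mul, mul_one, one_mul, hcen]
  have hk : ∀ a : R, a * e = a → a * (1 + e) = 0 := by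
    intro a ha
    rw [mul_add, mul_one, ha, h2]
  have hk2 : ∀ a b x y : R, x * e = x → y * e = y → (a * x + b * y) * (1 + e) = 0 := by
    intro a b x y hx hy
    rw [add_mul, mul_assoc, mul_assoc, hk x hx, hk y hy, mul_zero, mul_zero, add_zero]
  obtain ⟨p1, p2⟩ := C5_half h2 hp R1 R2 (hk _ hB₁) (hk2 _ _ _ _ k13 k14) (hk2 _ _ _ _ k23 k24)
  obtain ⟨p3, p4⟩ := C5_half h2 hp R3 R4 (hk _ hB₂) (hk2 _ _ _ _ k13 k23) (hk2 _ _ _ _ k14 k24)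
  have hz : ∀ a : R, a * (1 + e) = 0 → a * e = 0 → a = 0 := by
    intro a h h'
    rwa [mul_add, mul_one, h', add_zero] at h
  have q12 : a₁ = a₂ := by
    refine C5_eq h2 (hz _ ?_ h12)
    rw [add_mul, p1, p2, add_zero]
  have q34 : a₃ = a₄ := by
    refine C5_eq h2 (hz _ ?_ h34)
    rw [add_mul, p3, p4, add_zero]
  subst q12
  subst q34
  have s1 : a₃ * e = 0 := by
    have h := h2 B₁
    nth_rewrite 1 [R1] at h
    rw [R2] at h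
    have e1 : a₁ * c + a₁ * (1 + c) + (a₃ * x13 + a₃ * x14) + (a₁ * (1 + c) + a₁ * c + (a₃ * x23 + a₃ * x24)) =
        (a₁ * c + a₁ * c) + (a₁ * (1 + c) + a₁ * (1 + c)) + a₃ * (x13 + x14 + x23 + x24) := by
      simp only [mul_add]
      abel
    rw [e1, h2, h2, hx, zero_add, zero_add] at h
    exact h
  have s2 : a₁ * e = 0 := by
    have h := h2 B₂
    nth_rewrite 1 [R3] at h
    rw [R4] at h
    have e1 : a₃ * c' + a₃ * (1 + c') + (a₁ * x13 + a₁ * x23) + (a₃ * (1 + c') + a₃ * c' + (a₁ * x14 + a₁ * x24)) =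
        (a₃ * c' + a₃ * c') + (a₃ * (1 + c') + a₃ * (1 + c')) + a₁ * (x13 + x14 + x23 + x24) := by
      simp only [mul_add]
      abel
    rw [e1, h2, h2, hx, zero_add, zero_add] at h
    exact h
  have z1 := hz _ p1 s2
  have z3 := hz _ p3 s1
  refine ⟨z1, z1, z3, z3, ?_, ?_⟩
  · rw [R1, z1, z3]
    simp only [zero_mul, add_zero]
  · rw [R3, z1, z3]
    simp only [zero_mul, add_zero]

end

variable {B X Q : Type} [Ring B] [TR B] [TE B] [Finite B] [AddCommGroup X] [Module B X]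

theorem four_step {S : SysR B X Q} {S' T : Finset Q} (h : S' ⊆ T) {γ₁ γ₂ : Q → B}
    (hγ₁ : ∀ q, TE.e * γ₁ q = γ₁ q) (hγ₂ : ∀ q, TE.e * γ₂ q = γ₂ q)
    (hv₁ : ∃ v ∈ S.Sel S', S.bh S' T γ₁ v = TE.e ∧ S.bh S' T γ₂ v = 0)
    (hv₂ : ∃ v ∈ S.Sel S', S.bh S' T γ₁ v = 0 ∧ S.bh S' T γ₂ v = TE.e)
    {q₁ q₂ q₃ q₄ : Q} {y₁ y₂ y₃ y₄ : X}
    (n12 : q₁ ≠ q₂) (n13 : q₁ ≠ q₃) (n14 : q₁ ≠ q₄) (n23 : q₂ ≠ q₃) (n24 : q₂ ≠ q₄) (n34 : q₃ ≠ q₄)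
    (h₁ : S.PR S' T γ₁ q₁ y₁) (h₂ : S.PR S' T γ₁ q₂ y₂) (h₃ : S.PR S' T γ₂ q₃ y₃)
    (h₄ : S.PR S' T γ₂ q₄ y₄) (c12 : S.r q₁ y₁ = S.r q₂ y₂) (c34 : S.r q₃ y₃ = S.r q₄ y₄)
    (r12 : S.r q₂ y₁ = 1 + S.r q₁ y₁) (r34 : S.r q₄ y₃ = 1 + S.r q₃ y₃)
    (x13 : S.r q₃ y₁ = 0 ∨ S.r q₃ y₁ = TE.e) (x14 : S.r q₄ y₁ = 0 ∨ S.r q₄ y₁ = TE.e)
    (x23 : S.r q₃ y₂ = 0 ∨ S.r q₃ y₂ = TE.e) (x24 : S.r q₄ y₂ = 0 ∨ S.r q₄ y₂ = TE.e)
    (hx : S.r q₃ y₁ + S.r q₄ y₁ + S.r q₃ y₂ + S.r q₄ y₂ = TE.e) :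
    ∀ x ∈ S.Sel (insert q₁ (insert q₂ (insert q₃ (insert q₄ S')))),
      x ∈ S.Sel S' ∧ S.bh S' T γ₁ x = 0 ∧ S.bh S' T γ₂ x = 0 := by
  intro x hxS
  have m1 : q₁ ∈ insert q₁ (insert q₂ (insert q₃ (insert q₄ S'))) := Finset.mem_insert_self _ _
  have m2 : q₂ ∈ insert q₁ (insert q₂ (insert q₃ (insert q₄ S'))) :=
    Finset.mem_insert_of_mem (Finset.mem_insert_self _ _)
  have m3 : q₃ ∈ insert q₁ (insert q₂ (insert q₃ (insert q₄ S'))) :=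
    Finset.mem_insert_of_mem (Finset.mem_insert_of_mem (Finset.mem_insert_self _ _))
  have m4 : q₄ ∈ insert q₁ (insert q₂ (insert q₃ (insert q₄ S'))) :=
    Finset.mem_insert_of_mem (Finset.mem_insert_of_mem (Finset.mem_insert_of_mem
      (Finset.mem_insert_self _ _)))
  have hux : ∀ q, q ≠ q₁ → q ≠ q₂ → q ≠ q₃ → q ≠ q₄ → q ∉ S' → S.u q x = 0 := by
    intro q h1 h2 h3 h4 h5
    apply hxS.1 q
    simp only [Finset.mem_insert, not_or]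
    exact ⟨h1, h2, h3, h4, h5⟩
  have hrx1 : S.r q₁ x = 0 := hxS.2 q₁ m1
  have hrx2 : S.r q₂ x = 0 := hxS.2 q₂ m2
  have hrx3 : S.r q₃ x = 0 := hxS.2 q₃ m3
  have hrx4 : S.r q₄ x = 0 := hxS.2 q₄ m4
  have hrx : ∀ q ∈ S', S.r q x = 0 := fun q hq => hxS.2 q (by
    simp only [Finset.mem_insert]
    exact Or.inr (Or.inr (Or.inr (Or.inr hq))))
  obtain ⟨a1, ha1⟩ : ∃ a, a = S.u q₁ x := ⟨_, rfl⟩
  obtain ⟨a2, ha2⟩ : ∃ a, a = S.u q₂ x := ⟨_, rfl⟩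
  obtain ⟨a3, ha3⟩ : ∃ a, a = S.u q₃ x := ⟨_, rfl⟩
  obtain ⟨a4, ha4⟩ : ∃ a, a = S.u q₄ x := ⟨_, rfl⟩
  obtain ⟨y, hy⟩ : ∃ y, y = x + a1 • y₁ + a2 • y₂ + a3 • y₃ + a4 • y₄ := ⟨_, rfl⟩
  have hmap : ∀ F : X →ₗ[B] B, F y = F x + a1 * F y₁ + a2 * F y₂ + a3 * F y₃ + a4 * F y₄ := by
    intro F
    rw [hy, map_add, map_add, map_add, map_add, map_smul, map_smul, map_smul, map_smul, smul_eq_mul,
      smul_eq_mul, smul_eq_mul, smul_eq_mul]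
  have hyT : y ∈ S.Y T := by
    intro q hq
    rw [hmap]
    by_cases k1 : q = q₁
    · rw [k1, h₁.one, h₂.mem q₁ h₁.notin n12, h₃.mem q₁ h₁.notin n13, h₄.mem q₁ h₁.notin n14,
        mul_one, mul_zero, mul_zero, mul_zero, add_zero, add_zero, add_zero, ← ha1, add_self]
    by_cases k2 : q = q₂
    · rw [k2, h₂.one, h₁.mem q₂ h₂.notin n12.symm, h₃.mem q₂ h₂.notin n23, h₄.mem q₂ h₂.notin n24,
        mul_one, mul_zero, mul_zero, mul_zero, add_zero, add_zero, add_zero, ← ha2, add_self]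
    by_cases k3 : q = q₃
    · rw [k3, h₃.one, h₁.mem q₃ h₃.notin n13.symm, h₂.mem q₃ h₃.notin n23.symm,
        h₄.mem q₃ h₃.notin n34, mul_one, mul_zero, mul_zero, mul_zero, add_zero, add_zero, add_zero,
        ← ha3, add_self]
    by_cases k4 : q = q₄
    · rw [k4, h₄.one, h₁.mem q₄ h₄.notin n14.symm, h₂.mem q₄ h₄.notin n24.symm,
        h₃.mem q₄ h₄.notin n34.symm, mul_one, mul_zero, mul_zero, mul_zero, add_zero, add_zero,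
        add_zero, ← ha4, add_self]
    rw [hux q k1 k2 k3 k4 (fun h3 => hq (h h3)), h₁.mem q hq k1, h₂.mem q hq k2, h₃.mem q hq k3,
      h₄.mem q hq k4]
    simp only [mul_zero, add_zero]
  have hccx : ∀ q ∈ T, S.cc S' q x = 0 := by
    intro q hq
    rw [SysR.cc]
    by_cases h3 : q ∈ S'
    · rw [if_pos h3]
      exact hrx q h3
    · rw [if_neg h3]
      exact hux q (fun h => h₁.notin (h ▸ hq)) (fun h => h₂.notin (h ▸ hq))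
        (fun h => h₃.notin (h ▸ hq)) (fun h => h₄.notin (h ▸ hq)) h3
  have hccy : ∀ q ∈ T, S.cc S' q y = (a1 + a2) * γ₁ q + (a3 + a4) * γ₂ q := by
    intro q hq
    rw [hmap, hccx q hq, h₁.cc q hq, h₂.cc q hq, h₃.cc q hq, h₄.cc q hq, zero_add, add_mul, add_mul,
      ← add_assoc]
  have hcen : ∀ a : B, a * TE.e = TE.e * a := TE.cen
  have hBe : ∀ (γ : Q → B), (∀ q, TE.e * γ q = γ q) → ∀ x', S.bh S' T γ x' * TE.e = S.bh S' T γ x' := by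
    intro γ hγ x'
    rw [SysR.bh_apply, Finset.sum_mul]
    refine Finset.sum_congr rfl fun q _ => ?_
    have h1 : st (γ q) * TE.e = st (γ q) := by
      conv_rhs => rw [← hγ q, st_mul, TE.ste]
    rw [mul_assoc, h1]
  have hrec : ∀ v ∈ S.Sel S', (a1 + a2) * st (S.bh S' T γ₁ v) + (a3 + a4) * st (S.bh S' T γ₂ v) = 0 := by
    intro v hv
    have hv2 := (mem_Sel_cc h).1 hv
    have h1 := recip_cd S S' T hyT hv2.1
    rw [← h1, SysR.bh_apply, SysR.bh_apply, st_sum, st_sum, Finset.mul_sum, Finset.mul_sum,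
      ← Finset.sum_add_distrib]
    refine Finset.sum_congr rfl fun q hq => ?_
    rw [hccy q hq, hv2.2 q hq, st_zero, mul_zero, add_zero, st_mul, st_mul, st_st, st_st,
      ← mul_assoc, ← mul_assoc, ← add_mul]
  have he12 : (a1 + a2) * TE.e = 0 := by
    obtain ⟨v, hv, k1, k2⟩ := hv₁
    have h1 := hrec v hv
    rwa [k1, k2, st_zero, mul_zero, add_zero, TE.ste] at h1
  have he34 : (a3 + a4) * TE.e = 0 := by
    obtain ⟨v, hv, k1, k2⟩ := hv₂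
    have h1 := hrec v hv
    rwa [k1, k2, st_zero, mul_zero, zero_add, TE.ste] at h1
  have hxe : ∀ t : B, (t = 0 ∨ t = TE.e) → t * TE.e = t ∧ st t = t := by
    rintro t (rfl | rfl)
    · exact ⟨zero_mul _, st_zero⟩
    · exact ⟨TE.ee, TE.ste⟩
  obtain ⟨k13, s13⟩ := hxe _ x13
  obtain ⟨k14, s14⟩ := hxe _ x14
  obtain ⟨k23, s23⟩ := hxe _ x23
  obtain ⟨k24, s24⟩ := hxe _ x24
  have b1 : S.bh S' T γ₁ y = a1 * S.r q₁ y₁ + a2 * (1 + S.r q₁ y₁) +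
      (a3 * S.r q₃ y₁ + a4 * S.r q₄ y₁) := by
    rw [← h₁.bh y hyT, hmap, hrx1, zero_add, cij h h₁ h₂ n12, cij h h₁ h₃ n13, cij h h₁ h₄ n14, r12,
      st_add, st_one, ci_sym h h₁, s13, s14, add_assoc]
  have b2 : S.bh S' T γ₁ y = a1 * (1 + S.r q₁ y₁) + a2 * S.r q₁ y₁ +
      (a3 * S.r q₃ y₂ + a4 * S.r q₄ y₂) := by
    rw [← h₂.bh y hyT, hmap, hrx2, zero_add, r12, ← c12, cij h h₂ h₃ n23, cij h h₂ h₄ n24, s23, s24,
      add_assoc]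
  have b3 : S.bh S' T γ₂ y = a3 * S.r q₃ y₃ + a4 * (1 + S.r q₃ y₃) +
      (a1 * S.r q₃ y₁ + a2 * S.r q₃ y₂) := by
    rw [← h₃.bh y hyT, hmap, hrx3, zero_add, cij h h₃ h₄ n34, r34, st_add, st_one, ci_sym h h₃]
    abel
  have b4 : S.bh S' T γ₂ y = a3 * (1 + S.r q₃ y₃) + a4 * S.r q₃ y₃ +
      (a1 * S.r q₄ y₁ + a2 * S.r q₄ y₂) := by
    rw [← h₄.bh y hyT, hmap, hrx4, zero_add, r34, ← c34]
    abel
  obtain ⟨z1, z2, z3, z4, w1, w2⟩ := C5_core (add_self (B := B)) hcen k13 k14 k23 k24 hx b1 b2 b3 b4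
    (hBe _ hγ₁ _) (hBe _ hγ₂ _) he12 he34
  have hxy : y = x := by
    rw [hy, z1, z2, z3, z4]
    simp only [zero_smul, add_zero]
  rw [hxy] at w1 w2 hyT
  exact ⟨(mem_Sel_cc h).2 ⟨hyT, hccx⟩, w1, w2⟩

end H26GN
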