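import Pool.Agent.H26.GN.B4

/-!
ROW C6 (MP_78d38b_GN, about 200 lines): the choice of the four primes.  Paper: /team-store/H26_78d38b_GN.md, 6.4.  Use `next` and `seq` of B3.lean (proved).

PROOF. Colours: `B × C` (finite). Let `K := Nat.card (B × C)`, `n := K + 2` so that `2 ^ (n - 1) > K`. `seq` (B3) for `γ₁`, `z = 1`, `A ∪ S'`, length `n * K + 1`: primes `q i` with classes `y i`, `r (q j) (y i) = 1 + r (q i) (y i)` for `i < j`. Pigeonhole: `n` indices (as an increasing injection `Fin n → ..`) of the same colour `(r (q i) (y i), κ (q i))`.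
Restrict to them: `a : Fin n → Q`, `ya : Fin n → X`, same colour, `r (a j) (ya i) = 1 + r (a i) (ya i)` for `i < j`. (One can also prove this by a Ramsey-free direct argument: `exists_same` below is a good separate lemma.)
Second sequence: by induction on `m` (use `next` with `ι := Fin n ⊕ Fin m`): primes `b j`, classes `yb j` of type `γ₂` not in `A ∪ S'`, different from each other and from the `a i`, with `r (b j') (yb j) = 1 + r (b j) (yb j)` for `j < j'` and `r (b j) (ya i) = if V j i then e else 0`,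
where `V : Fin (2 ^ (n - 1)) → Fin n → Bool` are vectors with `V j 0 = false`, pairwise different (so: different modulo the constant vector). `2 ^ (n - 1) > K`: pigeonhole: `j < j'` with `b j`, `b j'` of the same colour. There is `i ≠ 0` with `V j i ≠ V j' i`; `V j 0 = V j' 0 = false`.
`q₁ := a 0`, `q₂ := a i`, `q₃ := b j`, `q₄ := b j'`: `r q₂ y₁ = 1 + r q₁ y₁` (`0 < i`), `r q₃ y₁ = 0`, `r q₄ y₁ = 0`, `{r q₃ y₂, r q₄ y₂} = {0, e}`, sum `e`.
-/

set_option autoImplicit false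
open scoped Classical

namespace H26GN

variable {B X Q : Type} [Ring B] [TR B] [TE B] [Finite B] [AddCommGroup X] [Module B X]

omit [TE B] in
private theorem C6_seq {S : SysR B X Q} (hS : S.Ok) {S' T : Finset Q} (h : S' ⊆ T) (hT : S.Good T)
    {n : ℕ} {a : Fin n → Q} {ya : Fin n → X} (hinj : Function.Injective a) {γ₁ : Q → B}
    (hPR : ∀ i, S.PR S' T γ₁ (a i) (ya i)) (γ₂ : Q → B) (W : ℕ → Fin n → B) (A : Finset Q)
    (m : ℕ) :
    ∃ (b : Fin m → Q) (yb : Fin m → X), Function.Injective b ∧ (∀ j, b j ∉ A) ∧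
      (∀ j i, b j ≠ a i) ∧ (∀ j, S.PR S' T γ₂ (b j) (yb j)) ∧
      (∀ i j, i < j → S.r (b j) (yb i) = 1 + S.r (b i) (yb i)) ∧
      ∀ j i, S.r (b j) (ya i) = W (j : ℕ) i := by
  induction m with
  | zero =>
    exact ⟨fun i => i.elim0, fun i => i.elim0, fun i => i.elim0, fun i => i.elim0,
      fun i => i.elim0, fun i => i.elim0, fun i => i.elim0, fun i => i.elim0⟩
  | succ m ih =>
    obtain ⟨b, yb, hbinj, hbA, hba, hbPR, hbseq, hbW⟩ := ih
    have hinj2 : Function.Injective (Sum.elim a b : Fin n ⊕ Fin m → Q) := by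
      rintro (i | i) (j | j) e
      · rw [hinj e]
      · exact absurd e.symm (hba j i)
      · exact absurd e (hba i j)
      · rw [hbinj e]
    obtain ⟨q', y', hy', hq2, hne, hlast⟩ := next hS h hT (ι := Fin n ⊕ Fin m)
      (q := Sum.elim a b) hinj2 (y := Sum.elim ya yb)
      (g := Sum.elim (fun _ => γ₁) (fun _ => γ₂)) (by
        rintro (i | i)
        · exact hPR i
        · exact hbPR i) (Sum.elim (W m) (fun j => 1 + S.r (b j) (yb j))) γ₂ A
    refine ⟨Fin.snoc b q', Fin.snoc yb y', ?_, ?_, ?_, ?_, ?_, ?_⟩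
    · intro i j
      refine Fin.lastCases ?_ (fun i => ?_) i <;> refine Fin.lastCases ?_ (fun j => ?_) j
      · intro _
        rfl
      · intro e
        rw [Fin.snoc_last, Fin.snoc_castSucc] at e
        exact absurd e (hne (Sum.inr j))
      · intro e
        rw [Fin.snoc_last, Fin.snoc_castSucc] at e
        exact absurd e.symm (hne (Sum.inr i))
      · intro e
        rw [Fin.snoc_castSucc, Fin.snoc_castSucc] at e
        rw [hbinj e]
    · intro i
      refine Fin.lastCases ?_ (fun i => ?_) i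
      · rw [Fin.snoc_last]
        exact hq2
      · rw [Fin.snoc_castSucc]
        exact hbA i
    · intro j i
      refine Fin.lastCases ?_ (fun j => ?_) j
      · rw [Fin.snoc_last]
        exact hne (Sum.inl i)
      · rw [Fin.snoc_castSucc]
        exact hba j i
    · intro i
      refine Fin.lastCases ?_ (fun i => ?_) i
      · rw [Fin.snoc_last, Fin.snoc_last]
        exact hy'
      · rw [Fin.snoc_castSucc, Fin.snoc_castSucc]
        exact hbPR i
    · intro i j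
      refine Fin.lastCases ?_ (fun i => ?_) i <;> refine Fin.lastCases ?_ (fun j => ?_) j
      · intro e
        exact absurd e (lt_irrefl _)
      · intro e
        exact absurd (e.trans (Fin.castSucc_lt_last j)) (lt_irrefl _)
      · intro _
        rw [Fin.snoc_last, Fin.snoc_castSucc, Fin.snoc_castSucc]
        exact hlast (Sum.inr i)
      · intro e
        rw [Fin.snoc_castSucc, Fin.snoc_castSucc, Fin.snoc_castSucc]
        exact hbseq i j (Fin.castSucc_lt_castSucc_iff.1 e)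
    · intro j i
      refine Fin.lastCases ?_ (fun j => ?_) j
      · rw [Fin.snoc_last, Fin.val_last]
        exact hlast (Sum.inl i)
      · rw [Fin.snoc_castSucc, Fin.val_castSucc]
        exact hbW j i

/-- A long sequence contains `n` terms of the same colour. -/
private theorem C6_same {D : Type} [Finite D] (n : ℕ) :
    ∃ N : ℕ, ∀ c : Fin N → D, ∃ f : Fin n → Fin N, StrictMono f ∧ ∀ i j, c (f i) = c (f j) := by
  cases nonempty_fintype D
  refine ⟨Fintype.card D * n + 1, fun c => ?_⟩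
  obtain ⟨d, hd⟩ := Fintype.exists_lt_card_fiber_of_mul_lt_card (f := c) (n := n) (by
    rw [Fintype.card_fin]
    exact Nat.lt_succ_self _)
  let g := Finset.orderEmbOfCardLe _ hd.le
  refine ⟨g, g.strictMono, fun i j => ?_⟩
  have h1 := Finset.orderEmbOfCardLe_mem _ hd.le i
  have h2 := Finset.orderEmbOfCardLe_mem _ hd.le j
  rw [Finset.mem_filter] at h1 h2
  exact h1.2.trans h2.2.symm

theorem exists_four {S : SysR B X Q} (hS : S.Ok) {S' T : Finset Q} (h : S' ⊆ T) (hT : S.Good T)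
    {C : Type} [Finite C] (κ : Q → C) (γ₁ γ₂ : Q → B) (A : Finset Q) :
    ∃ (q₁ q₂ q₃ q₄ : Q) (y₁ y₂ y₃ y₄ : X), q₁ ∉ A ∧ q₂ ∉ A ∧ q₃ ∉ A ∧ q₄ ∉ A ∧
      (q₁ ≠ q₂ ∧ q₁ ≠ q₃ ∧ q₁ ≠ q₄ ∧ q₂ ≠ q₃ ∧ q₂ ≠ q₄ ∧ q₃ ≠ q₄) ∧
      (S.PR S' T γ₁ q₁ y₁ ∧ S.PR S' T γ₁ q₂ y₂ ∧ S.PR S' T γ₂ q₃ y₃ ∧ S.PR S' T γ₂ q₄ y₄) ∧
      κ q₁ = κ q₂ ∧ κ q₃ = κ q₄ ∧ S.r q₁ y₁ = S.r q₂ y₂ ∧ S.r q₃ y₃ = S.r q₄ y₄ ∧
      S.r q₂ y₁ = 1 + S.r q₁ y₁ ∧ S.r q₄ y₃ = 1 + S.r q₃ y₃ ∧
      ((S.r q₃ y₁ = 0 ∨ S.r q₃ y₁ = TE.e) ∧ (S.r q₄ y₁ = 0 ∨ S.r q₄ y₁ = TE.e) ∧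
        (S.r q₃ y₂ = 0 ∨ S.r q₃ y₂ = TE.e) ∧ (S.r q₄ y₂ = 0 ∨ S.r q₄ y₂ = TE.e)) ∧
      S.r q₃ y₁ + S.r q₄ y₁ + S.r q₃ y₂ + S.r q₄ y₂ = TE.e := by
  obtain ⟨K, hK⟩ := C6_same (D := B × C) 2
  obtain ⟨N, hN⟩ := C6_same (D := B × C) (K + 1)
  obtain ⟨q, y, hqinj, hqA, hqPR, hqseq⟩ := seq hS h hT γ₁ 1 A N
  obtain ⟨f, hf, hfc⟩ := hN (fun i => (S.r (q i) (y i), κ (q i)))
  have hainj : Function.Injective (fun i => q (f i)) := fun i j e => hf.injective (hqinj e)
  obtain ⟨b, yb, hbinj, hbA, hba, hbPR, hbseq, hbW⟩ := C6_seq hS h hT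
    (a := fun i => q (f i)) (ya := fun i => y (f i)) hainj (fun i => hqPR (f i)) γ₂
    (fun m i => if (i : ℕ) = m + 1 then TE.e else 0) A K
  obtain ⟨g, hg, hgc⟩ := hK (fun i => (S.r (b i) (yb i), κ (b i)))
  have hg01 : g 0 < g 1 := hg (by decide)
  have hbc := hgc 0 1
  have hi : (0 : Fin (K + 1)) < (g 0).succ := Fin.succ_pos _
  have hac := hfc 0 (g 0).succ
  rw [Prod.ext_iff] at hbc hac
  have e1 : S.r (b (g 0)) (y (f 0)) = 0 := by
    rw [hbW]
    exact if_neg (by rw [Fin.val_zero]; omega)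
  have e2 : S.r (b (g 1)) (y (f 0)) = 0 := by
    rw [hbW]
    exact if_neg (by rw [Fin.val_zero]; omega)
  have e3 : S.r (b (g 0)) (y (f (g 0).succ)) = TE.e := by
    rw [hbW]
    exact if_pos (Fin.val_succ _)
  have e4 : S.r (b (g 1)) (y (f (g 0).succ)) = 0 := by
    rw [hbW]
    refine if_neg ?_
    rw [Fin.val_succ]
    have : (g 0 : ℕ) < g 1 := hg01
    omega
  refine ⟨q (f 0), q (f (g 0).succ), b (g 0), b (g 1), y (f 0), y (f (g 0).succ), yb (g 0),
    yb (g 1), hqA _, hqA _, hbA _, hbA _, ⟨?_, ?_, ?_, ?_, ?_, ?_⟩,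
    ⟨hqPR _, hqPR _, hbPR _, hbPR _⟩, hac.2, hbc.2, hac.1, hbc.1, hqseq _ _ (hf hi),
    hbseq _ _ hg01, ⟨Or.inl e1, Or.inl e2, Or.inr e3, Or.inl e4⟩, ?_⟩
  · exact fun e => (hf hi).ne (hqinj e)
  · exact fun e => hba (g 0) 0 e.symm
  · exact fun e => hba (g 1) 0 e.symm
  · exact fun e => hba (g 0) _ e.symm
  · exact fun e => hba (g 1) _ e.symm
  · exact fun e => hg01.ne (hbinj e)
  · rw [e1, e2, e3, e4, zero_add, zero_add, add_zero]

end H26GN
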