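import Pool.Agent.H26.GN.C3
import Pool.Agent.H26.GN.C4
import Pool.Agent.H26.GN.C5
import Pool.Agent.H26.GN.C6

/-!
ROW C7 (MP_78d38b_GN, about 220 lines): the steps.  Paper: /team-store/H26_78d38b_GN.md, 6.1, 6.3, 6.4.  Model for step_pair: `step` in Pool/Agent/H26/OD/A10.lean (proved there; `half` is replaced by `TE.z`).

PROOF. step_pair (`e • v = 0` on `V := Sel S'`, `Bal B V`). Good `T ⊇ S'` (good_exists). If `V ≠ ⊥`: `exists_C` for `V` (finite: injects into `Y S'`; nontrivial) gives `f`, `b : V → B`, `b v * f = b v`, `b v₀ = f`; `e * f = e * b v₀ = b (e • v₀) = 0`. `exists_gamma` (B2) gives `γ` with `f * γ q = γ q`, `b v = bh γ v`.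
 If `V = ⊥`: `f := 0`, `γ := 0` (as in A10_data). `seq` (B3) with `z' := f * TE.z * f + (1 + f)`, pigeonhole on `(r (q i) (y i), κ (q i))` as in `step` of A10, `pair_step` (B4, `e := TE.e`, `z₀ := TE.z`): `Sel (S' ∪ {q₁,q₂}) ≤ {v ∈ V : bh γ v = 0}`.
 EQUALITY is needed for `Bal`: also `{v ∈ V : bh v = 0} ≤ Sel (S' ∪ {q₁, q₂})`: for `v ∈ Sel S'`: `u q v = 0` outside `S'`; `v ∈ Y T`, so `r q₁ v = bh v = 0` (`PR.bh`), `r q₂ v = 0`; `r q v = 0` for `q ∈ S'`. So `Sel (insert q₁ (insert q₂ S')) = {v ∈ Sel S' : bh γ v = 0}` (as submodules of `X`),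
 it is isomorphic to `ker b` (b : Sel S' → B), which is balanced (`exists_C`; for `V = ⊥`: trivially balanced). Transport of `Bal` along a linear isomorphism: `bal_equiv` (prove it first). Strictly smaller if `V ≠ ⊥` (`b v₀ = f ≠ 0`).
step_four (some `v ∈ Sel S'` with `e • v ≠ 0`): `exists_pairE` for `Sel S'` gives `b₁, b₂`; `exists_gamma` with `f := e` (`ee`, `ste`) gives `γ₁, γ₂`, `e * γ q = γ q`; `exists_four`, `four_step`; in the same way equality `Sel (..) = {v ∈ Sel S' : bh₁ v = bh₂ v = 0}`, isomorphic to `ker b₁ ⊓ ker b₂`, balanced; strictly smaller.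
-/

set_option autoImplicit false
open scoped Classical

namespace H26GN

theorem bal_equiv {B V W : Type} [Ring B] [TR B] [AddCommGroup V] [Module B V] [AddCommGroup W]
    [Module B W] (i : V ≃ₗ[B] W) (h : Bal B V) : Bal B W := by
  obtain ⟨β, hβ, hnd⟩ := h
  refine ⟨fun x y => β (i.symm x) (i.symm y), ⟨fun x x' y => ?_, fun x y y' => ?_,
    fun a x y => ?_⟩, fun x hx => ?_⟩
  · rw [map_add]
    exact hβ.al _ _ _
  · rw [map_add]
    exact hβ.ar _ _ _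
  · rw [map_smul, map_smul]
    exact hβ.inv _ _ _
  · have h1 : i.symm x = 0 := hnd _ fun y => by
      have h2 : β (i.symm x) (i.symm (i y)) + β (i.symm (i y)) (i.symm x) = 0 := hx (i y)
      rw [i.symm_apply_apply] at h2
      exact h2
    rw [← i.apply_symm_apply x, h1, map_zero]

private theorem C7_bal {B X : Type} [Ring B] [TR B] [AddCommGroup X] [Module B X]
    {V W : Submodule B X} {K : Submodule B V} (h : K.map V.subtype = W) (hK : Bal B K) :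
    Bal B W := by
  subst h
  exact bal_equiv (Submodule.equivMapOfInjective V.subtype V.injective_subtype K) hK

variable {B X Q : Type} [Ring B] [TR B] [TE B] [Finite B] [IsSemisimpleRing B] [AddCommGroup X]
  [Module B X]

omit [TE B] [Finite B] [IsSemisimpleRing B] in
private theorem C7_ge {S : SysR B X Q} {S' l : Finset Q} (hl : S' ⊆ l) {v : X} (hv : v ∈ S.Sel S')
    (hr : ∀ q ∈ l, q ∈ S' ∨ S.r q v = 0) : v ∈ S.Sel l := by
  refine ⟨fun q hq => hv.1 q fun h => hq (hl h), fun q hq => ?_⟩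
  rcases hr q hq with h | h
  · exact hv.2 q h
  · exact h

omit [TE B] [Finite B] [IsSemisimpleRing B] in
private theorem C7_finSel {S : SysR B X Q} (hS : S.Ok) (S' : Finset Q) : Finite (S.Sel S') := by
  have := hS.finY S'
  refine Finite.of_injective (fun v : S.Sel S' => (⟨v.1, v.2.1⟩ : S.Y S')) ?_
  intro a b h
  exact Subtype.ext (congrArg (fun w : S.Y S' => w.1) h)

omit [TE B] [Finite B] [IsSemisimpleRing B] in
private theorem C7_Y {S : SysR B X Q} {S' T : Finset Q} (h : S' ⊆ T) {v : X} (hv : v ∈ S.Sel S') :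
    v ∈ S.Y T := fun q hq => hv.1 q fun h1 => hq (h h1)

/-- The idempotent, the good set and the vector `γ`. -/
private theorem C7_data {S : SysR B X Q} (hS : S.Ok) (S' : Finset Q)
    (hN : ∀ v ∈ S.Sel S', (TE.e : B) • v = 0) (hb : Bal B (S.Sel S')) :
    ∃ (f : B) (T : Finset Q) (γ : Q → B) (b : S.Sel S' →ₗ[B] B), f * f = f ∧ st f = f ∧
      TE.e * f = 0 ∧ S' ⊆ T ∧ S.Good T ∧ (∀ q, f * γ q = γ q) ∧
      (∃ v ∈ S.Sel S', S.bh S' T γ v = f) ∧ (S.Sel S' ≠ ⊥ → f ≠ 0) ∧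
      (∀ v : S.Sel S', b v = S.bh S' T γ v) ∧ Bal B (LinearMap.ker b) := by
  obtain ⟨T, hT1, hT⟩ := good_exists hS S'
  by_cases hne : S.Sel S' = ⊥
  · refine ⟨0, T, fun _ => 0, 0, by rw [mul_zero], st_zero, by rw [mul_zero], hT1, hT,
      fun q => by rw [mul_zero], ⟨0, Submodule.zero_mem _, by rw [map_zero]⟩,
      fun h => absurd hne h, fun v => ?_, ?_⟩
    · rw [SysR.bh_apply, LinearMap.zero_apply]
      refine (Finset.sum_eq_zero fun q _ => ?_).symm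
      rw [st_zero, mul_zero]
    · rw [LinearMap.ker_zero]
      exact bal_equiv Submodule.topEquiv.symm hb
  · have hfin := C7_finSel hS S'
    have hnt : Nontrivial (S.Sel S') := (Submodule.nontrivial_iff_ne_bot).2 hne
    obtain ⟨f, b, hf, hst, hf0, hbf, ⟨v₀, hv₀⟩, hker⟩ := exists_C (V := S.Sel S')
      (fun v => Subtype.ext (hN v.1 v.2)) hb
    have hef : TE.e * f = 0 := by
      have h1 : (TE.e : B) • v₀ = 0 := Subtype.ext (hN v₀.1 v₀.2)
      have h2 : b ((TE.e : B) • v₀) = TE.e * b v₀ := by rw [map_smul, smul_eq_mul]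
      rw [← hv₀, ← h2, h1, map_zero]
    obtain ⟨γ, hγ, hbh⟩ := exists_gamma hS hT1 hT hf hst b hbf
    exact ⟨f, T, γ, b, hf, hst, hef, hT1, hT, hγ, ⟨v₀.1, v₀.2, by rw [← hbh, hv₀]⟩, fun _ => hf0,
      hbh, hker⟩

theorem step_pair {S : SysR B X Q} (hS : S.Ok) {C : Type} [Finite C] (κ : Q → C) (S' A : Finset Q)
    (hN : ∀ v ∈ S.Sel S', (TE.e : B) • v = 0) (hb : Bal B (S.Sel S')) :
    ∃ q₁ q₂ : Q, q₁ ≠ q₂ ∧ q₁ ∉ A ∧ q₂ ∉ A ∧ q₁ ∉ S' ∧ q₂ ∉ S' ∧ κ q₁ = κ q₂ ∧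
      Bal B (S.Sel (insert q₁ (insert q₂ S'))) ∧
      S.Sel (insert q₁ (insert q₂ S')) ≤ S.Sel S' ∧
      (S.Sel S' ≠ ⊥ → S.Sel (insert q₁ (insert q₂ S')) < S.Sel S') := by
  obtain ⟨f, T, γ, b, hf, hst, hef, hT1, hT, hγ, hsurj, hf0, hbh, hker⟩ := C7_data hS S' hN hb
  let _ := Fintype.ofFinite (B × C)
  obtain ⟨q, y, hinj, hA, hPR, hr⟩ := seq hS hT1 hT γ (f * TE.z * f + (1 + f)) (A ∪ S')
    (Fintype.card (B × C) + 1)
  obtain ⟨i, j, hij, hval⟩ : ∃ i j : Fin (Fintype.card (B × C) + 1), i < j ∧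
      ((S.r (q i) (y i), κ (q i)) : B × C) = (S.r (q j) (y j), κ (q j)) := by
    obtain ⟨i, j, hne, he⟩ := Fintype.exists_ne_map_eq_of_card_lt
      (fun i : Fin (Fintype.card (B × C) + 1) => ((S.r (q i) (y i), κ (q i)) : B × C))
      (by rw [Fintype.card_fin]; exact Nat.lt_succ_self _)
    rcases lt_or_gt_of_ne hne with h | h
    · exact ⟨i, j, h, he⟩
    · exact ⟨j, i, h, he.symm⟩
  have hv1 : S.r (q i) (y i) = S.r (q j) (y j) := congrArg Prod.fst hval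
  have hv2 : κ (q i) = κ (q j) := congrArg Prod.snd hval
  have hne : q i ≠ q j := fun h => hij.ne (hinj h)
  have hp := pair_step hT1 hf hst hef TE.zz rfl hγ hsurj hne (hPR i) (hPR j) hv1 (hr i j hij)
  have hle : S.Sel (insert (q i) (insert (q j) S')) ≤ S.Sel S' := fun x hx => (hp x hx).1
  have hmap : (LinearMap.ker b).map (S.Sel S').subtype =
      S.Sel (insert (q i) (insert (q j) S')) := by
    apply le_antisymm
    · rintro x ⟨v, hv, rfl⟩
      have hv' : S.bh S' T γ (v : X) = 0 := by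
        rw [← hbh]
        exact LinearMap.mem_ker.1 hv
      refine C7_ge (fun p hp => Finset.mem_insert_of_mem (Finset.mem_insert_of_mem hp)) v.2
        fun p hp => ?_
      rw [Finset.mem_insert, Finset.mem_insert] at hp
      rcases hp with rfl | rfl | hp
      · right
        exact ((hPR i).bh _ (C7_Y hT1 v.2)).trans hv'
      · right
        exact ((hPR j).bh _ (C7_Y hT1 v.2)).trans hv'
      · exact Or.inl hp
    · intro x hx
      refine ⟨⟨x, hle hx⟩, ?_, rfl⟩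
      refine LinearMap.mem_ker.2 ?_
      rw [hbh]
      exact (hp x hx).2
  refine ⟨q i, q j, hne, fun h => hA i (Finset.mem_union_left _ h), fun h => hA j (Finset.mem_union_left _ h),
    fun h => hA i (Finset.mem_union_right _ h), fun h => hA j (Finset.mem_union_right _ h), hv2,
    C7_bal hmap hker, hle, fun hb' => ?_⟩
  refine lt_of_le_of_ne hle fun he => ?_
  obtain ⟨v, hv, hvf⟩ := hsurj
  rw [← he] at hv
  exact hf0 hb' (hvf.symm.trans (hp v hv).2)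

theorem step_four {S : SysR B X Q} (hS : S.Ok) {C : Type} [Finite C] (κ : Q → C) (S' A : Finset Q)
    (hN : ∃ v ∈ S.Sel S', (TE.e : B) • v ≠ 0) (hb : Bal B (S.Sel S')) :
    ∃ q₁ q₂ q₃ q₄ : Q, (q₁ ∉ A ∧ q₂ ∉ A ∧ q₃ ∉ A ∧ q₄ ∉ A) ∧
      (q₁ ∉ S' ∧ q₂ ∉ S' ∧ q₃ ∉ S' ∧ q₄ ∉ S') ∧
      (q₁ ≠ q₂ ∧ q₁ ≠ q₃ ∧ q₁ ≠ q₄ ∧ q₂ ≠ q₃ ∧ q₂ ≠ q₄ ∧ q₃ ≠ q₄) ∧ κ q₁ = κ q₂ ∧ κ q₃ = κ q₄ ∧
      Bal B (S.Sel (insert q₁ (insert q₂ (insert q₃ (insert q₄ S'))))) ∧
      S.Sel (insert q₁ (insert q₂ (insert q₃ (insert q₄ S')))) < S.Sel S' := by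
  have hfin := C7_finSel hS S'
  obtain ⟨T, hT1, hT⟩ := good_exists hS S'
  obtain ⟨b₁, b₂, ⟨v₁, hv₁₁, hv₁₂⟩, ⟨v₂, hv₂₁, hv₂₂⟩, hbe₁, hbe₂, hker⟩ :=
    exists_pairE (V := S.Sel S') hb (by
      obtain ⟨v, hv, hne⟩ := hN
      exact ⟨⟨v, hv⟩, fun h => hne (congrArg Subtype.val h)⟩)
  obtain ⟨γ₁, hγ₁, hbh₁⟩ := exists_gamma hS hT1 hT TE.ee TE.ste b₁ hbe₁
  obtain ⟨γ₂, hγ₂, hbh₂⟩ := exists_gamma hS hT1 hT TE.ee TE.ste b₂ hbe₂
  obtain ⟨q₁, q₂, q₃, q₄, y₁, y₂, y₃, y₄, hA₁, hA₂, hA₃, hA₄, ⟨n12, n13, n14, n23, n24, n34⟩,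
    ⟨h₁, h₂, h₃, h₄⟩, hκ₁, hκ₂, c12, c34, r12, r34, ⟨x13, x14, x23, x24⟩, hx⟩ :=
    exists_four hS hT1 hT κ γ₁ γ₂ (A ∪ S')
  have hp := four_step hT1 hγ₁ hγ₂ ⟨v₁.1, v₁.2, by rw [← hbh₁, hv₁₁], by rw [← hbh₂, hv₁₂]⟩
    ⟨v₂.1, v₂.2, by rw [← hbh₁, hv₂₁], by rw [← hbh₂, hv₂₂]⟩ n12 n13 n14 n23 n24 n34 h₁ h₂ h₃ h₄
    c12 c34 r12 r34 x13 x14 x23 x24 hx
  have hle : S.Sel (insert q₁ (insert q₂ (insert q₃ (insert q₄ S')))) ≤ S.Sel S' :=
    fun x hx => (hp x hx).1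
  have hmap : (LinearMap.ker b₁ ⊓ LinearMap.ker b₂ : Submodule B (S.Sel S')).map
      (S.Sel S').subtype = S.Sel (insert q₁ (insert q₂ (insert q₃ (insert q₄ S')))) := by
    apply le_antisymm
    · rintro x ⟨v, hv, rfl⟩
      have hv1 : S.bh S' T γ₁ (v : X) = 0 := by
        rw [← hbh₁]
        exact LinearMap.mem_ker.1 hv.1
      have hv2 : S.bh S' T γ₂ (v : X) = 0 := by
        rw [← hbh₂]
        exact LinearMap.mem_ker.1 hv.2
      refine C7_ge (fun p hp => Finset.mem_insert_of_mem (Finset.mem_insert_of_mem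
        (Finset.mem_insert_of_mem (Finset.mem_insert_of_mem hp)))) v.2 fun p hp => ?_
      rw [Finset.mem_insert, Finset.mem_insert, Finset.mem_insert, Finset.mem_insert] at hp
      rcases hp with rfl | rfl | rfl | rfl | hp
      · right
        exact (h₁.bh _ (C7_Y hT1 v.2)).trans hv1
      · right
        exact (h₂.bh _ (C7_Y hT1 v.2)).trans hv1
      · right
        exact (h₃.bh _ (C7_Y hT1 v.2)).trans hv2
      · right
        exact (h₄.bh _ (C7_Y hT1 v.2)).trans hv2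
      · exact Or.inl hp
    · intro x hx
      refine ⟨⟨x, hle hx⟩, ⟨LinearMap.mem_ker.2 ?_, LinearMap.mem_ker.2 ?_⟩, rfl⟩
      · rw [hbh₁]
        exact (hp x hx).2.1
      · rw [hbh₂]
        exact (hp x hx).2.2
  refine ⟨q₁, q₂, q₃, q₄, ⟨fun h => hA₁ (Finset.mem_union_left _ h),
    fun h => hA₂ (Finset.mem_union_left _ h), fun h => hA₃ (Finset.mem_union_left _ h),
    fun h => hA₄ (Finset.mem_union_left _ h)⟩, ⟨fun h => hA₁ (Finset.mem_union_right _ h),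
    fun h => hA₂ (Finset.mem_union_right _ h), fun h => hA₃ (Finset.mem_union_right _ h),
    fun h => hA₄ (Finset.mem_union_right _ h)⟩, ⟨n12, n13, n14, n23, n24, n34⟩, hκ₁, hκ₂,
    C7_bal hmap hker, lt_of_le_of_ne hle fun he => ?_⟩
  have h1 : (v₁ : X) ∈ S.Sel (insert q₁ (insert q₂ (insert q₃ (insert q₄ S')))) := by
    rw [he]
    exact v₁.2
  have h2 := (hp _ h1).2.1
  rw [← hbh₁, hv₁₁] at h2
  exact TE.ne h2

end H26GN
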