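import Pool.Agent.H26.GN.C7

/-!
ROW C8 (MP_78d38b_GN, about 130 lines): the loop.  Model: A10_prs_cons, A10_st, A10_next, A10_loop, main_R in Pool/Agent/H26/OD/A10.lean (proved there).

PROOF. State of a list `l` of pairs: `κ e.1 = κ e.2` for `e ∈ l`, `(l.map fst ++ l.map snd).Nodup`, the members are not in `A`, `Bal B (S.Sel (prs l))`. `[]`: `prs [] = ∅`.
Next: if some `v ∈ Sel (prs l)` has `e • v ≠ 0`: `step_four` with `S' := prs l`, new list `(q₁, q₂) :: (q₃, q₄) :: l`, `prs = insert q₁ (insert q₂ (insert q₃ (insert q₄ (prs l))))`, strictly smaller Selmer group. Otherwise `step_pair`, new list `(q₁, q₂) :: l`; smaller if `≠ ⊥`, contained in `⊥` if `= ⊥`.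
Loop on `ncard` of the Selmer group (finite: contained in `Y (prs l)`, `hS.finY`) until it is `⊥`; if the list is empty then, do one more `step_pair` (`Sel = ⊥`, so the new one is `≤ ⊥`).
-/

set_option autoImplicit false
open scoped Classical

namespace H26GN

/-- The state of a list of pairs. -/
def C8L {Q C : Type} (κ : Q → C) (A : Finset Q) (l : List (Q × Q)) : Prop :=
  (∀ e ∈ l, κ e.1 = κ e.2) ∧ (l.map Prod.fst ++ l.map Prod.snd).Nodup ∧ (∀ q ∈ prs l, q ∉ A)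

theorem C8_prs_cons {Q : Type} (e : Q × Q) (l : List (Q × Q)) :
    prs (e :: l) = insert e.1 (insert e.2 (prs l)) := by
  ext q
  simp only [prs, List.map_cons, List.mem_toFinset, List.mem_append, List.mem_cons, Finset.mem_insert]
  tauto

theorem C8_cons {Q C : Type} {κ : Q → C} {A : Finset Q} {l : List (Q × Q)} (hl : C8L κ A l)
    {q₁ q₂ : Q} (hne : q₁ ≠ q₂) (ha₁ : q₁ ∉ A) (ha₂ : q₂ ∉ A) (hs₁ : q₁ ∉ prs l)
    (hs₂ : q₂ ∉ prs l) (hκ : κ q₁ = κ q₂) : C8L κ A ((q₁, q₂) :: l) := by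
  obtain ⟨h1, h2, h3⟩ := hl
  have hp : prs ((q₁, q₂) :: l) = insert q₁ (insert q₂ (prs l)) := C8_prs_cons _ _
  refine ⟨?_, ?_, ?_⟩
  · intro e he
    rcases List.mem_cons.mp he with rfl | he
    · exact hκ
    · exact h1 e he
  · have hperm : (((q₁, q₂) :: l).map Prod.fst ++ ((q₁, q₂) :: l).map Prod.snd).Perm
        (q₁ :: q₂ :: (l.map Prod.fst ++ l.map Prod.snd)) := by
      rw [List.map_cons, List.map_cons, List.cons_append]
      exact List.Perm.cons _ List.perm_middle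
    rw [hperm.nodup_iff, List.nodup_cons, List.nodup_cons]
    have m₁ : q₁ ∉ (l.map Prod.fst ++ l.map Prod.snd) := fun h => hs₁ (List.mem_toFinset.mpr h)
    have m₂ : q₂ ∉ (l.map Prod.fst ++ l.map Prod.snd) := fun h => hs₂ (List.mem_toFinset.mpr h)
    refine ⟨fun h => ?_, m₂, h2⟩
    rcases List.mem_cons.mp h with h | h
    · exact hne h
    · exact m₁ h
  · intro q hq
    rw [hp, Finset.mem_insert, Finset.mem_insert] at hq
    rcases hq with rfl | rfl | hq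
    · exact ha₁
    · exact ha₂
    · exact h3 q hq

variable {B X Q : Type} [Ring B] [TR B] [TE B] [Finite B] [IsSemisimpleRing B] [AddCommGroup X]
  [Module B X]

omit [TE B] [Finite B] [IsSemisimpleRing B] in
theorem C8_finSel {S : SysR B X Q} (hS : S.Ok) (S' : Finset Q) : Finite (S.Sel S') := by
  have := hS.finY S'
  refine Finite.of_injective (fun v : S.Sel S' => (⟨v.1, v.2.1⟩ : S.Y S')) ?_
  intro a b h
  exact Subtype.ext (congrArg (fun w : S.Y S' => w.1) h)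

theorem C8_pair {S : SysR B X Q} (hS : S.Ok) {C : Type} [Finite C] (κ : Q → C) (A : Finset Q)
    {l : List (Q × Q)} (hl : C8L κ A l) (hb : Bal B (S.Sel (prs l)))
    (hN : ∀ v ∈ S.Sel (prs l), (TE.e : B) • v = 0) :
    ∃ e : Q × Q, C8L κ A (e :: l) ∧ Bal B (S.Sel (prs (e :: l))) ∧
      S.Sel (prs (e :: l)) ≤ S.Sel (prs l) ∧
      (S.Sel (prs l) ≠ ⊥ → S.Sel (prs (e :: l)) < S.Sel (prs l)) := by
  obtain ⟨q₁, q₂, hne, ha₁, ha₂, hs₁, hs₂, hκ, hbal, hle, hlt⟩ := step_pair hS κ (prs l) A hN hb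
  refine ⟨(q₁, q₂), C8_cons hl hne ha₁ ha₂ hs₁ hs₂ hκ, ?_, ?_, ?_⟩
  · rw [C8_prs_cons]
    exact hbal
  · rw [C8_prs_cons]
    exact hle
  · rw [C8_prs_cons]
    exact hlt

theorem C8_next {S : SysR B X Q} (hS : S.Ok) {C : Type} [Finite C] (κ : Q → C) (A : Finset Q)
    {l : List (Q × Q)} (hl : C8L κ A l) (hb : Bal B (S.Sel (prs l))) (hne : S.Sel (prs l) ≠ ⊥) :
    ∃ l' : List (Q × Q), C8L κ A l' ∧ Bal B (S.Sel (prs l')) ∧ S.Sel (prs l') < S.Sel (prs l) := by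
  by_cases hN : ∃ v ∈ S.Sel (prs l), (TE.e : B) • v ≠ 0
  · obtain ⟨q₁, q₂, q₃, q₄, ⟨a₁, a₂, a₃, a₄⟩, ⟨s₁, s₂, s₃, s₄⟩, ⟨n₁₂, n₁₃, n₁₄, n₂₃, n₂₄, n₃₄⟩, k₁, k₂,
      hbal, hlt⟩ := step_four hS κ (prs l) A hN hb
    have hl1 : C8L κ A ((q₃, q₄) :: l) := C8_cons hl n₃₄ a₃ a₄ s₃ s₄ k₂
    have hp1 : prs ((q₃, q₄) :: l) = insert q₃ (insert q₄ (prs l)) := C8_prs_cons _ _
    have t₁ : q₁ ∉ prs ((q₃, q₄) :: l) := by
      rw [hp1, Finset.mem_insert, Finset.mem_insert]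
      rintro (h | h | h)
      · exact n₁₃ h
      · exact n₁₄ h
      · exact s₁ h
    have t₂ : q₂ ∉ prs ((q₃, q₄) :: l) := by
      rw [hp1, Finset.mem_insert, Finset.mem_insert]
      rintro (h | h | h)
      · exact n₂₃ h
      · exact n₂₄ h
      · exact s₂ h
    have hl2 : C8L κ A ((q₁, q₂) :: (q₃, q₄) :: l) := C8_cons hl1 n₁₂ a₁ a₂ t₁ t₂ k₁
    have hp2 : prs ((q₁, q₂) :: (q₃, q₄) :: l) =
        insert q₁ (insert q₂ (insert q₃ (insert q₄ (prs l)))) := by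
      rw [C8_prs_cons, hp1]
    refine ⟨(q₁, q₂) :: (q₃, q₄) :: l, hl2, ?_, ?_⟩
    · rw [hp2]
      exact hbal
    · rw [hp2]
      exact hlt
  · have hN' : ∀ v ∈ S.Sel (prs l), (TE.e : B) • v = 0 := by
      intro v hv
      by_contra h
      exact hN ⟨v, hv, h⟩
    obtain ⟨e, he, hbal, _, hlt⟩ := C8_pair hS κ A hl hb hN'
    exact ⟨e :: l, he, hbal, hlt hne⟩

theorem C8_loop {S : SysR B X Q} (hS : S.Ok) {C : Type} [Finite C] (κ : Q → C) (A : Finset Q)
    (n : ℕ) : ∀ l : List (Q × Q), C8L κ A l → Bal B (S.Sel (prs l)) →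
      (S.Sel (prs l) : Set X).ncard ≤ n →
      ∃ l' : List (Q × Q), C8L κ A l' ∧ Bal B (S.Sel (prs l')) ∧ S.Sel (prs l') = ⊥ := by
  induction n with
  | zero =>
    intro l hl hbal hn
    have hfin := C8_finSel hS (prs l)
    have h1 : (S.Sel (prs l) : Set X).Finite := Set.toFinite _
    have h2 : (S.Sel (prs l) : Set X) = ∅ := (Set.ncard_eq_zero h1).mp (Nat.le_zero.mp hn)
    have h3 : (0 : X) ∈ (S.Sel (prs l) : Set X) := Submodule.zero_mem _
    rw [h2] at h3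
    exact absurd h3 (Set.notMem_empty _)
  | succ n ih =>
    intro l hl hbal hn
    by_cases hb : S.Sel (prs l) = ⊥
    · exact ⟨l, hl, hbal, hb⟩
    · obtain ⟨l', hl', hbal', hlt⟩ := C8_next hS κ A hl hbal hb
      have hfin := C8_finSel hS (prs l)
      have h1 : (S.Sel (prs l) : Set X).Finite := Set.toFinite _
      have h2 : (S.Sel (prs l') : Set X).ncard < (S.Sel (prs l) : Set X).ncard :=
        Set.ncard_lt_ncard hlt h1
      exact ih l' hl' hbal' (by omega)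

theorem main_B {S : SysR B X Q} (hS : S.Ok) {C : Type} [Finite C] (κ : Q → C)
    (h0 : Bal B (S.Sel ∅)) (A : Finset Q) :
    ∃ l : List (Q × Q), l ≠ [] ∧ (∀ e ∈ l, κ e.1 = κ e.2) ∧
      (l.map Prod.fst ++ l.map Prod.snd).Nodup ∧ (∀ q ∈ prs l, q ∉ A) ∧ S.Sel (prs l) = ⊥ := by
  have hempty : prs ([] : List (Q × Q)) = ∅ := rfl
  have hst : C8L κ A [] := by
    refine ⟨fun e he => absurd he List.not_mem_nil, List.nodup_nil, fun q hq => ?_⟩
    rw [hempty] at hq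
    exact absurd hq (Finset.notMem_empty _)
  obtain ⟨l, hl, hbal, hb⟩ := C8_loop hS κ A _ [] hst (by rw [hempty]; exact h0) le_rfl
  have hN : ∀ v ∈ S.Sel (prs l), (TE.e : B) • v = 0 := by
    intro v hv
    rw [hb, Submodule.mem_bot] at hv
    rw [hv, smul_zero]
  obtain ⟨e, he, _, hle, _⟩ := C8_pair hS κ A hl hbal hN
  rw [hb, le_bot_iff] at hle
  exact ⟨e :: l, List.cons_ne_nil _ _, he.1, he.2.1, he.2.2, hle⟩

end H26GN
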