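import Pool.Agent.H26.GN.B3

/-!
MP_78d38b_GN (helper26): reduction modulo the Jacobson radical (definitions). Paper: section 4.
-/

set_option autoImplicit false
open scoped Classical

namespace H26GN

variable {A X Q : Type} [Ring A] [TR A] [AddCommGroup X] [Module A X]

/-- The ring modulo its radical. -/
abbrev QJ (A : Type) [Ring A] : Type := A ⧸ Ring.jacobson A

/-- The module modulo the radical. -/
abbrev XJ (A X : Type) [Ring A] [AddCommGroup X] [Module A X] : Type :=
  X ⧸ (Ring.jacobson A • (⊤ : Submodule A X))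

/-- The projection of the ring. -/
def mkA (a : A) : QJ A := Ideal.Quotient.mk (Ring.jacobson A) a

/-- The projection of the module. -/
def mkX (A : Type) {X : Type} [Ring A] [AddCommGroup X] [Module A X] (x : X) : XJ A X :=
  Submodule.Quotient.mk x

omit [TR A] in
theorem mkA_eq_zero {a : A} : mkA a = 0 ↔ a ∈ Ring.jacobson A := Ideal.Quotient.eq_zero_iff_mem

omit [TR A] in
theorem mkX_eq_zero {x : X} : mkX A x = 0 ↔ x ∈ Ring.jacobson A • (⊤ : Submodule A X) :=
  Submodule.Quotient.mk_eq_zero _

omit [TR A] in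
theorem mkA_add (a b : A) : mkA (a + b) = mkA a + mkA b := rfl

omit [TR A] in
theorem mkA_mul (a b : A) : mkA (a * b) = mkA a * mkA b := rfl

omit [TR A] in
theorem mkA_surj (b : QJ A) : ∃ a : A, mkA a = b := Ideal.Quotient.mk_surjective b

omit [TR A] in
theorem mkX_surj (y : XJ A X) : ∃ x : X, mkX A x = y := Submodule.Quotient.mk_surjective _ y

omit [TR A] in
theorem mkX_add (x y : X) : mkX A (x + y) = mkX A x + mkX A y := rfl

omit [TR A] in
theorem mkX_smul (a : A) (x : X) : mkX A (a • x) = mkA a • mkX A x := rfl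

omit [TR A] in
theorem le_comap_red (f : X →ₗ[A] A) :
    Ring.jacobson A • (⊤ : Submodule A X) ≤ Submodule.comap f (Ring.jacobson A) := by
  rw [Submodule.smul_le]
  intro j hj x _
  change f (j • x) ∈ Ring.jacobson A
  rw [map_smul, smul_eq_mul]
  exact Ideal.IsTwoSided.mul_mem_of_left _ hj

/-- The reduction of a functional. -/
def redf (f : X →ₗ[A] A) : XJ A X →ₗ[QJ A] QJ A where
  toFun := Submodule.mapQ (Ring.jacobson A • (⊤ : Submodule A X)) (Ring.jacobson A) f (le_comap_red f)
  map_add' x y := map_add _ x y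
  map_smul' b x := by
    obtain ⟨a, rfl⟩ := mkA_surj b
    obtain ⟨x, rfl⟩ := mkX_surj (A := A) x
    rw [← mkX_smul, RingHom.id_apply]
    change mkA (f (a • x)) = mkA a * mkA (f x)
    rw [map_smul, smul_eq_mul, mkA_mul]

omit [TR A] in
theorem redf_mk (f : X →ₗ[A] A) (x : X) : redf f (mkX A x) = mkA (f x) := rfl

/-- The trace structures are compatible. -/
def Cpt (A : Type) [Ring A] [TR A] [TR (QJ A)] : Prop := ∀ a : A, st (mkA a) = mkA (st a)

theorem redf_zero : mkA (0 : A) = 0 := rfl

/-- The reduced system. -/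
noncomputable def red [TR (QJ A)] (hc : Cpt A) (S : SysR A X Q) : SysR (QJ A) (XJ A X) Q where
  u q := redf (S.u q)
  r q := redf (S.r q)
  fin x := by
    obtain ⟨x, rfl⟩ := mkX_surj (A := A) x
    refine (S.fin x).subset ?_
    intro q hq h
    apply hq
    rw [redf_mk, h]
    rfl
  recip x y := by
    obtain ⟨x, rfl⟩ := mkX_surj (A := A) x
    obtain ⟨y, rfl⟩ := mkX_surj (A := A) y
    have h := S.recip x y
    have hf : (Function.support fun q => S.u q x * st (S.r q y) + S.r q x * st (S.u q y)).Finite := by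
      refine ((S.fin x).union (S.fin y)).subset ?_
      intro q hq
      by_contra hq'
      rw [Set.mem_union, not_or] at hq'
      have h1 : S.u q x = 0 := by
        by_contra h1
        exact hq'.1 h1
      have h2 : S.u q y = 0 := by
        by_contra h2
        exact hq'.2 h2
      apply hq
      change S.u q x * st (S.r q y) + S.r q x * st (S.u q y) = 0
      rw [h1, h2, st_zero, zero_mul, mul_zero, add_zero]
    have e : ∀ q, redf (S.u q) (mkX A x) * st (redf (S.r q) (mkX A y)) +
        redf (S.r q) (mkX A x) * st (redf (S.u q) (mkX A y)) =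
        (Ideal.Quotient.mk (Ring.jacobson A)).toAddMonoidHom
          (S.u q x * st (S.r q y) + S.r q x * st (S.u q y)) := by
      intro q
      rw [redf_mk, redf_mk, redf_mk, redf_mk, hc, hc]
      rfl
    rw [finsum_congr e, ← AddMonoidHom.map_finsum _ hf, h, map_zero]

theorem red_u [TR (QJ A)] (hc : Cpt A) (S : SysR A X Q) (q : Q) (x : X) :
    (red hc S).u q (mkX A x) = mkA (S.u q x) := rfl

theorem red_r [TR (QJ A)] (hc : Cpt A) (S : SysR A X Q) (q : Q) (x : X) :
    (red hc S).r q (mkX A x) = mkA (S.r q x) := rfl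

/-- The localization. -/
def loc (S : SysR A X Q) (T : Finset Q) : X →ₗ[A] ((T → A) × (T → A)) where
  toFun x := (fun q => S.u q x, fun q => S.r q x)
  map_add' x y := Prod.ext (funext fun q => map_add (S.u q) x y) (funext fun q => map_add (S.r q) x y)
  map_smul' a x := Prod.ext (funext fun q => map_smul (S.u q) a x)
    (funext fun q => map_smul (S.r q) a x)

/-- There is a retraction onto the relaxed group. -/
def Ret (S : SysR A X Q) (T : Finset Q) : Prop :=
  ∃ ρ : ((T → A) × (T → A)) →ₗ[A] X, (∀ w, ρ w ∈ S.Y T) ∧ ∀ y ∈ S.Y T, ρ (loc S T y) = y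

/-- The elements killed by the radical. -/
def jk (V : Submodule A X) (hj : ∀ j ∈ Ring.jacobson A, ∀ a : A, j * a ∈ Ring.jacobson A) :
    Submodule A X where
  carrier := {x | x ∈ V ∧ ∀ j ∈ Ring.jacobson A, j • x = 0}
  zero_mem' := ⟨V.zero_mem, fun j _ => smul_zero j⟩
  add_mem' := fun {x y} hx hy => ⟨V.add_mem hx.1 hy.1, fun j h => by
    rw [smul_add, hx.2 j h, hy.2 j h, add_zero]⟩
  smul_mem' := fun a x hx => ⟨V.smul_mem a hx.1, fun j h => by
    rw [← mul_smul]
    exact hx.2 _ (hj j h a)⟩

omit [TR A] in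
theorem jmul : ∀ j ∈ Ring.jacobson A, ∀ a : A, j * a ∈ Ring.jacobson A :=
  fun _ hj _ => Ideal.IsTwoSided.mul_mem_of_left _ hj

/-- Balanced socle. -/
def SBal (V : Submodule A X) : Prop :=
  Bal A (jk V jmul)

end H26GN
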