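import Pool.Agent.H26.GN.D1

/-!
ROW D2 (MP_78d38b_GN, about 100 lines): the relaxed groups of the reduced system.  Paper: /team-store/H26_78d38b_GN.md, 4.1, 4.2.

PROOF. red_Y (←): `red_u`. (→): `x = mkX x₀` (mkX_surj). `T' := T ∪ (S.fin x₀).toFinset`; for `q ∈ T' \ T`: `mkA (S.u q x₀) = 0`, so `S.u q x₀ ∈ J` (mkA_eq_zero). `u_surj hS hT` (B1) gives `y_q ∈ S.Y (insert q T)` with `S.u q y_q = 1`. `y := x₀ + ∑ q ∈ T' \ T, S.u q x₀ • y_q`.
`y ∈ S.Y T`: for `q ∉ T`: `u q y_q' = 0` for `q' ≠ q`; `u q y = u q x₀ + u q x₀ * 1 = 0` for `q ∈ T' \ T` (add_self), and `u q x₀ = 0` for `q ∉ T'`. `mkX y = mkX x₀ + ∑ mkA (u q x₀) • mkX y_q = mkX x₀`.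
mem_J_of: `loc S T y = ∑ over the coordinates of (coordinate) • (basis vector)`: a finite sum of elements `j • w` with `j ∈ J`, so `y = ρ (loc S T y) = ∑ j • ρ w ∈ J • ⊤` (`Submodule.smul_mem_smul`), `mkX_eq_zero`. [`(f, g) = ∑ q : T, (f q • (Pi.single q 1, 0) + g q • (0, Pi.single q 1))`.]
-/

set_option autoImplicit false
open scoped Classical

namespace H26GN

variable {A X Q : Type} [Ring A] [TR A] [Finite A] [AddCommGroup X] [Module A X] [TR (QJ A)]

theorem red_Y (hc : Cpt A) {S : SysR A X Q} (hS : S.Ok) {T : Finset Q} (hT : S.Good T)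
    {x : XJ A X} : x ∈ (red hc S).Y T ↔ ∃ y ∈ S.Y T, mkX A y = x := by
  constructor
  · intro hx
    obtain ⟨x₀, rfl⟩ := mkX_surj (A := A) x
    have hJ : ∀ q, q ∉ T → mkA (S.u q x₀) = 0 := fun q hq => hx q hq
    have hex : ∀ q, ∃ y, q ∉ T → (y ∈ S.Y (insert q T) ∧ S.u q y = 1) := by
      intro q
      by_cases hq : q ∈ T
      · exact ⟨0, fun h => absurd hq h⟩
      · obtain ⟨y, hy1, hy2⟩ := u_surj hS hT hq 1
        exact ⟨y, fun _ => ⟨hy1, hy2⟩⟩
    choose yy hyy using hex
    set F : Finset Q := (S.fin x₀).toFinset \ T with hF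
    refine ⟨x₀ + ∑ q ∈ F, S.u q x₀ • yy q, ?_, ?_⟩
    · intro q hq
      rw [map_add, map_sum]
      have hterm : ∀ q' ∈ F, S.u q (S.u q' x₀ • yy q') = if q' = q then S.u q x₀ else 0 := by
        intro q' hq'
        have hq'T : q' ∉ T := (Finset.mem_sdiff.1 hq').2
        obtain ⟨h1, h2⟩ := hyy q' hq'T
        rw [map_smul]
        by_cases e : q' = q
        · subst e
          rw [if_pos rfl, h2, smul_eq_mul, mul_one]
        · rw [if_neg e]
          have h3 : S.u q (yy q') = 0 := by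
            refine h1 q ?_
            intro h4
            rcases Finset.mem_insert.1 h4 with h5 | h5
            · exact e h5.symm
            · exact hq h5
          rw [h3, smul_zero]
      rw [Finset.sum_congr rfl hterm, Finset.sum_ite_eq']
      by_cases hqF : q ∈ F
      · rw [if_pos hqF]
        exact add_self _
      · rw [if_neg hqF, add_zero]
        by_contra h
        apply hqF
        rw [hF, Finset.mem_sdiff]
        exact ⟨(S.fin x₀).mem_toFinset.2 h, hq⟩
    · have h1 : mkX A (x₀ + ∑ q ∈ F, S.u q x₀ • yy q) =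
          mkX A x₀ + mkX A (∑ q ∈ F, S.u q x₀ • yy q) := mkX_add _ _
      rw [h1]
      have h2 : mkX A (∑ q ∈ F, S.u q x₀ • yy q) = 0 := by
        rw [mkX_eq_zero]
        refine Submodule.sum_mem _ ?_
        intro q hq
        exact Submodule.smul_mem_smul (mkA_eq_zero.1 (hJ q (Finset.mem_sdiff.1 hq).2))
          Submodule.mem_top
      rw [h2, add_zero]
  · rintro ⟨y, hy, rfl⟩
    intro q hq
    rw [red_u, hy q hq]
    rfl

theorem mem_J_of {S : SysR A X Q} {T : Finset Q} (hR : Ret S T) {y : X} (hy : y ∈ S.Y T)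
    (h : ∀ q ∈ T, S.u q y ∈ Ring.jacobson A ∧ S.r q y ∈ Ring.jacobson A) : mkX A y = 0 := by
  obtain ⟨ρ, _, h2⟩ := hR
  rw [mkX_eq_zero, ← h2 y hy]
  have e : loc S T y = ∑ q : T, (S.u q y • ((Pi.single q 1 : T → A), (0 : T → A)) +
      S.r q y • ((0 : T → A), (Pi.single q 1 : T → A))) := by
    refine Prod.ext ?_ ?_
    · funext q'
      rw [Prod.fst_sum, Finset.sum_apply]
      change S.u q' y = _
      rw [Finset.sum_eq_single q']
      · change S.u q' y = S.u q' y • (Pi.single q' (1 : A) : T → A) q' + S.r q' y • (0 : A)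
        rw [Pi.single_eq_same, smul_eq_mul, mul_one, smul_zero, add_zero]
      · intro q _ hq
        change S.u q y • (Pi.single q (1 : A) : T → A) q' + S.r q y • (0 : A) = 0
        rw [Pi.single_eq_of_ne hq.symm, smul_zero, smul_zero, add_zero]
      · intro hq
        exact absurd (Finset.mem_univ _) hq
    · funext q'
      rw [Prod.snd_sum, Finset.sum_apply]
      change S.r q' y = _
      rw [Finset.sum_eq_single q']
      · change S.r q' y = S.u q' y • (0 : A) + S.r q' y • (Pi.single q' (1 : A) : T → A) q'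
        rw [Pi.single_eq_same, smul_eq_mul, smul_eq_mul, mul_one, mul_zero, zero_add]
      · intro q _ hq
        change S.u q y • (0 : A) + S.r q y • (Pi.single q (1 : A) : T → A) q' = 0
        rw [Pi.single_eq_of_ne hq.symm, smul_zero, smul_zero, add_zero]
      · intro hq
        exact absurd (Finset.mem_univ _) hq
  rw [e, map_sum]
  refine Submodule.sum_mem _ ?_
  intro q _
  rw [map_add, map_smul, map_smul]
  exact Submodule.add_mem _ (Submodule.smul_mem_smul (h q q.2).1 Submodule.mem_top)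
    (Submodule.smul_mem_smul (h q q.2).2 Submodule.mem_top)

theorem red_good (hc : Cpt A) {S : SysR A X Q} (hS : S.Ok) {T : Finset Q} (hT : S.Good T)
    (hR : Ret S T) : (red hc S).Good T := by
  intro x hx h0
  obtain ⟨y, hy, rfl⟩ := (red_Y hc hS hT).1 hx
  refine mem_J_of hR hy fun q hq => ?_
  have h1 := h0 q hq
  rw [red_u, red_r, mkA_eq_zero, mkA_eq_zero] at h1
  exact h1

end H26GN
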