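import Pool.Agent.H26.GN.D2

/-!
ROW D3 (MP_78d38b_GN, about 200 lines): the reduced system has the properties `Ok`.  Paper: /team-store/H26_78d38b_GN.md, 4.3, 4.4.

PROOF. red_orth (4.4): choose `a' b' : Q → A` with `mkA (a' q) = a q`, `mkA (b' q) = b q`. For `w : (T → A) × (T → A)` let `H w := ∑ q : T, (a' q * st (w.2 q) + b' q * st (w.1 q))`. For `y ∈ S.Y T`: `mkA (H (loc S T y)) = 0` by `h` (red_Y, red_u, red_r, hc), so `H (loc y) ∈ J`. `ρ` from `Ret S T`.
Basis vectors `E₁ q := (Pi.single q 1, 0)`, `E₂ q := (0, Pi.single q 1)`. `w = ∑ q, (w.1 q • E₁ q + w.2 q • E₂ q)`. `H (loc (ρ w))` is additive in `w` and `H (loc (ρ (c • w))) = H (loc (ρ w)) * st c` (`st (c * x) = st x * st c`). So `H (loc (ρ w)) = ∑ q, (j₁ q * st (w.1 q) + j₂ q * st (w.2 q))` with `j₁ q := H (loc (ρ (E₁ q))) ∈ J`, `j₂ q := H (loc (ρ (E₂ q))) ∈ J`.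
For `y ∈ S.Y T` (`ρ (loc y) = y`): `∑ q, ((a' q - j₂ q) * st (S.r q y) + (b' q - j₁ q) * st (S.u q y)) = 0`. `orth hS hT` (B1) for `a' - j₂`, `b' - j₁` gives `y₀ ∈ S.Y T` with `S.u q y₀ = a' q - j₂ q`, `S.r q y₀ = b' q - j₁ q`; `mkX y₀` is the element.
red_card: `(red hc S).Good T` (red_good). In the notation of B1 (`A6_W`, `A6_B`, `A6_B_nd`, `A6_B_W`, `A6_card_W` for the system `red hc S`): `A6_W` is isotropic and contains its orthogonal (red_orth: an element of the orthogonal satisfies the hypothesis; the `tau`-condition gives the ring condition as `W` is a submodule: `eq_zero_of_tau`), so `W = W^⊥`, `finrank_orthogonal`: `|W|^2 = |QJ A| ^ (2 |T|)`. See the proof of `A6_main`.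
red_ok: finY: `(red hc S).Y T ≤ (red hc S).Y T'`, `T ⊆ T'` good (good_exists hS T), finite by red_Y (`S.Y T'` finite). card: `T' ⊇ T` good: the kernel of `(red).Y T' → (T' \ T → QJ A)` (the `u`'s) is `(red).Y T`, so `|QJ A|^|T'| = |Y T'| ≤ |Y T| * |QJ A|^(|T'| - |T|)`.
cheb: `T, A₀, φ : XJ A X →ₗ QJ A`. `T' ⊇ T` good, `ρ`. Choose lifts `e₁ q, e₂ q : A` of `φ (mkX (ρ (E₁ q)))`, `φ (mkX (ρ (E₂ q)))`. `ψ : X →ₗ A`, `ψ x := ∑ q : T', (S.u q x * e₁ q + S.r q x * e₂ q)`. For `y ∈ S.Y T'`: `mkA (ψ y) = φ (mkX (ρ (loc y))) = φ (mkX y)`. `hS.cheb T' A₀ ψ`: `q ∉ T'`, `q ∉ A₀`, `S.r q y = ψ y` on `S.Y T'`.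
For `x ∈ (red).Y T ≤ (red).Y T'`: `x = mkX y`, `(red).r q x = mkA (S.r q y) = mkA (ψ y) = φ x`.
-/

set_option autoImplicit false
open scoped Classical

namespace H26GN

variable {A X Q : Type} [Ring A] [TR A] [Finite A] [AddCommGroup X] [Module A X] [TR (QJ A)]

omit [Finite A] in
theorem D3_mkA_sum {ι : Type} (s : Finset ι) (f : ι → A) :
    mkA (∑ i ∈ s, f i) = ∑ i ∈ s, mkA (f i) :=
  map_sum (Ideal.Quotient.mk (Ring.jacobson A)) f s

omit [TR A] [Finite A] [TR (QJ A)] in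
theorem D3_mkX_sum {ι : Type} (s : Finset ι) (f : ι → X) :
    mkX A (∑ i ∈ s, f i) = ∑ i ∈ s, mkX A (f i) :=
  map_sum (Submodule.mkQ (Ring.jacobson A • (⊤ : Submodule A X))) f s

/-- Basis vectors. -/
noncomputable def D3_e1 (A : Type) [Ring A] {Q : Type} (T : Finset Q) (q : Q) : (T → A) × (T → A) :=
  (fun q' => if (q' : Q) = q then 1 else 0, 0)

/-- Basis vectors. -/
noncomputable def D3_e2 (A : Type) [Ring A] {Q : Type} (T : Finset Q) (q : Q) : (T → A) × (T → A) :=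
  (0, fun q' => if (q' : Q) = q then 1 else 0)

omit [Finite A] [TR (QJ A)] in
theorem D3_loc (S : SysR A X Q) (T : Finset Q) (y : X) :
    loc S T y = ∑ q ∈ T, (S.u q y • D3_e1 A T q + S.r q y • D3_e2 A T q) := by
  refine Prod.ext ?_ ?_
  · funext q'
    rw [Prod.fst_sum, Finset.sum_apply]
    change S.u q' y = _
    rw [Finset.sum_eq_single (q' : Q)]
    · change S.u q' y = S.u q' y * (if (q' : Q) = q' then 1 else 0) + S.r q' y * 0
      rw [if_pos rfl, mul_one, mul_zero, add_zero]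
    · intro q _ hq
      change S.u q y * (if (q' : Q) = q then 1 else 0) + S.r q y * 0 = 0
      rw [if_neg (Ne.symm hq), mul_zero, mul_zero, add_zero]
    · intro h
      exact absurd q'.2 h
  · funext q'
    rw [Prod.snd_sum, Finset.sum_apply]
    change S.r q' y = _
    rw [Finset.sum_eq_single (q' : Q)]
    · change S.r q' y = S.u q' y * 0 + S.r q' y * (if (q' : Q) = q' then 1 else 0)
      rw [if_pos rfl, mul_one, mul_zero, zero_add]
    · intro q _ hq
      change S.u q y * 0 + S.r q y * (if (q' : Q) = q then 1 else 0) = 0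
      rw [if_neg (Ne.symm hq), mul_zero, mul_zero, add_zero]
    · intro h
      exact absurd q'.2 h

/-- The form given by `a`, `b`. -/
noncomputable def D3_H (T : Finset Q) (a b : Q → A) : ((T → A) × (T → A)) →+ A :=
  AddMonoidHom.mk' (fun w => ∑ q : T, (a q * st (w.2 q) + b q * st (w.1 q))) (by
    intro w w'
    rw [← Finset.sum_add_distrib]
    refine Finset.sum_congr rfl fun q _ => ?_
    rw [Prod.fst_add, Prod.snd_add, Pi.add_apply, Pi.add_apply, st_add, st_add, mul_add, mul_add]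
    abel)

omit [Finite A] [TR (QJ A)] in
theorem D3_H_apply (T : Finset Q) (a b : Q → A) (w : (T → A) × (T → A)) :
    D3_H T a b w = ∑ q : T, (a q * st (w.2 q) + b q * st (w.1 q)) := rfl

omit [Finite A] [TR (QJ A)] in
theorem D3_H_smul (T : Finset Q) (a b : Q → A) (c : A) (w : (T → A) × (T → A)) :
    D3_H T a b (c • w) = D3_H T a b w * st c := by
  rw [D3_H_apply, D3_H_apply, Finset.sum_mul]
  refine Finset.sum_congr rfl fun q _ => ?_
  change a q * st (c * w.2 q) + b q * st (c * w.1 q) = _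
  rw [st_mul, st_mul, add_mul, mul_assoc, mul_assoc]

omit [Finite A] [TR (QJ A)] in
theorem D3_H_loc (S : SysR A X Q) (T : Finset Q) (a b : Q → A) (y : X) :
    D3_H T a b (loc S T y) = ∑ q ∈ T, (a q * st (S.r q y) + b q * st (S.u q y)) :=
  Finset.sum_coe_sort T (fun q => a q * st (S.r q y) + b q * st (S.u q y))

theorem red_orth (hc : Cpt A) {S : SysR A X Q} (hS : S.Ok) {T : Finset Q} (hT : S.Good T)
    (hR : Ret S T) (a b : Q → QJ A)
    (h : ∀ y ∈ (red hc S).Y T,
      ∑ q ∈ T, (a q * st ((red hc S).r q y) + b q * st ((red hc S).u q y)) = 0) :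
    ∃ y₀ ∈ (red hc S).Y T, ∀ q ∈ T, (red hc S).u q y₀ = a q ∧ (red hc S).r q y₀ = b q := by
  choose a' ha' using fun q => mkA_surj (a q)
  choose b' hb' using fun q => mkA_surj (b q)
  obtain ⟨ρ, hρ1, hρ2⟩ := hR
  have hJ : ∀ y ∈ S.Y T, D3_H T a' b' (loc S T y) ∈ Ring.jacobson A := by
    intro y hy
    rw [← mkA_eq_zero, D3_H_loc, D3_mkA_sum]
    have h1 := h (mkX A y) ((red_Y hc hS hT).2 ⟨y, hy, rfl⟩)
    rw [← h1]
    refine Finset.sum_congr rfl fun q _ => ?_
    rw [mkA_add, mkA_mul, mkA_mul, ha', hb', red_r, red_u, hc, hc]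
  obtain ⟨j1, hj1⟩ : ∃ j : Q → A, ∀ q, j q = D3_H T a' b' (loc S T (ρ (D3_e1 A T q))) :=
    ⟨_, fun _ => rfl⟩
  obtain ⟨j2, hj2⟩ : ∃ j : Q → A, ∀ q, j q = D3_H T a' b' (loc S T (ρ (D3_e2 A T q))) :=
    ⟨_, fun _ => rfl⟩
  have hJ1 : ∀ q, mkA (j1 q) = 0 := fun q => by
    rw [mkA_eq_zero, hj1]
    exact hJ _ (hρ1 _)
  have hJ2 : ∀ q, mkA (j2 q) = 0 := fun q => by
    rw [mkA_eq_zero, hj2]
    exact hJ _ (hρ1 _)
  have key : ∀ y ∈ S.Y T, D3_H T a' b' (loc S T y) =
      ∑ q ∈ T, (j1 q * st (S.u q y) + j2 q * st (S.r q y)) := by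
    intro y hy
    conv_lhs => rw [← hρ2 y hy, D3_loc S T y, map_sum, map_sum, map_sum]
    refine Finset.sum_congr rfl fun q _ => ?_
    rw [ρ.map_add, (loc S T).map_add, (D3_H T a' b').map_add, ρ.map_smul, ρ.map_smul,
      (loc S T).map_smul, (loc S T).map_smul, D3_H_smul, D3_H_smul, ← hj1, ← hj2]
  obtain ⟨y₀, hy₀, hy₀'⟩ := orth hS hT (fun q => a' q + j2 q) (fun q => b' q + j1 q) (by
    intro y hy
    have h1 := key y hy
    rw [D3_H_loc] at h1
    have h2 : ∑ q ∈ T, ((a' q + j2 q) * st (S.r q y) + (b' q + j1 q) * st (S.u q y)) =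
        ∑ q ∈ T, (a' q * st (S.r q y) + b' q * st (S.u q y)) +
        ∑ q ∈ T, (j1 q * st (S.u q y) + j2 q * st (S.r q y)) := by
      rw [← Finset.sum_add_distrib]
      refine Finset.sum_congr rfl fun q _ => ?_
      rw [add_mul, add_mul]
      abel
    rw [h2, h1]
    exact add_self _)
  refine ⟨mkX A y₀, (red_Y hc hS hT).2 ⟨y₀, hy₀, rfl⟩, fun q hq => ?_⟩
  obtain ⟨h1, h2⟩ := hy₀' q hq
  rw [red_u, red_r, h1, h2, mkA_add, mkA_add, hJ1, hJ2, add_zero, add_zero]
  exact ⟨ha' q, hb' q⟩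

attribute [local instance] zB

theorem red_card (hc : Cpt A) {S : SysR A X Q} (hS : S.Ok) {T : Finset Q} (hT : S.Good T)
    (hR : Ret S T) : Nat.card ((red hc S).Y T) = Nat.card (QJ A) ^ T.card := by
  haveI : Finite (QJ A) := Quotient.finite _
  have hG : (red hc S).Good T := red_good hc hS hT hR
  have hiso : A6_W (red hc S) T ≤ (A6_B (QJ A) T).orthogonal (A6_W (red hc S) T) := by
    rintro _ ⟨x, hx, rfl⟩
    exact A6_B_W (fun q => (red hc S).u q x) (fun q => (red hc S).r q x)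
      fun y hy => A6_recip hx hy
  have hiso' : (A6_B (QJ A) T).orthogonal (A6_W (red hc S) T) ≤ A6_W (red hc S) T := by
    intro v hv
    obtain ⟨a, ha⟩ : ∃ a : Q → QJ A, ∀ q : T, a q = v.1 q :=
      ⟨fun q => if h : q ∈ T then v.1 ⟨q, h⟩ else 0, fun q => dif_pos q.2⟩
    obtain ⟨b, hb⟩ : ∃ b : Q → QJ A, ∀ q : T, b q = v.2 q :=
      ⟨fun q => if h : q ∈ T then v.2 ⟨q, h⟩ else 0, fun q => dif_pos q.2⟩
    have htau : ∀ y ∈ (red hc S).Y T,
        tau (∑ q ∈ T, (a q * st ((red hc S).r q y) + b q * st ((red hc S).u q y))) = 0 := by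
      intro y hy
      rw [LinearMap.BilinForm.mem_orthogonal_iff] at hv
      have h1 : A6_B (QJ A) T (A6_loc (red hc S) T y) v = 0 := hv _ ⟨y, hy, rfl⟩
      rw [A6_B_apply] at h1
      rw [tau_sum, ← h1, ← Finset.sum_coe_sort T
        (fun q => tau (a q * st ((red hc S).r q y) + b q * st ((red hc S).u q y)))]
      refine Finset.sum_congr rfl fun q _ => ?_
      rw [← tau_st (a q * st ((red hc S).r q y) + b q * st ((red hc S).u q y)), st_add, st_mul,
        st_mul, st_st, st_st, add_comm, ha, hb]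
      rfl
    obtain ⟨y₀, hy₀, hy₀'⟩ := red_orth hc hS hT hR a b (by
      intro y hy
      apply eq_zero_of_tau
      intro x
      have h2 := htau (st x • y) (((red hc S).Y T).smul_mem _ hy)
      have h3 : ∑ q ∈ T, (a q * st ((red hc S).r q (st x • y)) +
          b q * st ((red hc S).u q (st x • y))) =
          (∑ q ∈ T, (a q * st ((red hc S).r q y) + b q * st ((red hc S).u q y))) * x := by
        rw [Finset.sum_mul]
        refine Finset.sum_congr rfl fun q _ => ?_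
        rw [map_smul, map_smul, smul_eq_mul, smul_eq_mul, st_mul, st_mul, st_st, add_mul,
          mul_assoc, mul_assoc]
      rw [h3] at h2
      rw [tau_mul_comm]
      exact h2)
    refine ⟨y₀, hy₀, Prod.ext (funext fun q => ?_) (funext fun q => ?_)⟩
    · exact (hy₀' q q.2).1.trans (ha q)
    · exact (hy₀' q q.2).2.trans (hb q)
  have heq := le_antisymm hiso' hiso
  have hfr := LinearMap.BilinForm.finrank_orthogonal (A6_B_nd (B := QJ A) T) (A6_W (red hc S) T)
  rw [heq] at hfr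
  have hV : Module.finrank (ZMod 2) ((T → QJ A) × (T → QJ A)) =
      T.card * Module.finrank (ZMod 2) (QJ A) + T.card * Module.finrank (ZMod 2) (QJ A) := by
    rw [Module.finrank_prod, Module.finrank_pi_fintype, Finset.sum_const, Finset.card_univ,
      Fintype.card_coe, smul_eq_mul]
  have hleV : Module.finrank (ZMod 2) (A6_W (red hc S) T) ≤
      Module.finrank (ZMod 2) ((T → QJ A) × (T → QJ A)) := Submodule.finrank_le _
  have h2 : Nat.card (ZMod 2) = 2 := by rw [Nat.card_eq_fintype_card, ZMod.card]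
  have hcW : Nat.card (A6_W (red hc S) T) =
      2 ^ Module.finrank (ZMod 2) (A6_W (red hc S) T) := by
    rw [Module.natCard_eq_pow_finrank (K := ZMod 2), h2]
  have hcR : Nat.card (QJ A) = 2 ^ Module.finrank (ZMod 2) (QJ A) := by
    rw [Module.natCard_eq_pow_finrank (K := ZMod 2), h2]
  have hW : Module.finrank (ZMod 2) (A6_W (red hc S) T) =
      T.card * Module.finrank (ZMod 2) (QJ A) := by omega
  rw [A6_card_W hG, hcW, hW, hcR, ← pow_mul, mul_comm]

theorem D3_finY (hc : Cpt A) {S : SysR A X Q} (hS : S.Ok) (T : Finset Q) :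
    Finite ((red hc S).Y T) := by
  obtain ⟨T', h1, h2⟩ := good_exists hS T
  haveI := hS.finY T'
  have hfin : ((fun x : X => mkX A x) '' (S.Y T' : Set X)).Finite :=
    (Set.toFinite (S.Y T' : Set X)).image _
  refine (hfin.subset ?_ : ((red hc S).Y T : Set (XJ A X)).Finite)
  intro x hx
  have hx' : x ∈ (red hc S).Y T' := fun q hq => hx q (fun hq' => hq (h1 hq'))
  obtain ⟨y, hy, rfl⟩ := (red_Y hc hS h2).1 hx'
  exact ⟨y, hy, rfl⟩

theorem D3_card (hc : Cpt A) {S : SysR A X Q} (hS : S.Ok) (hR : ∀ T, S.Good T → Ret S T)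
    (T : Finset Q) : Nat.card (QJ A) ^ T.card ≤ Nat.card ((red hc S).Y T) := by
  haveI : Finite (QJ A) := Quotient.finite _
  obtain ⟨T', h1, h2⟩ := good_exists hS T
  haveI := D3_finY hc hS T
  haveI := D3_finY hc hS T'
  let f : (red hc S).Y T' →+ ((T' \ T : Finset Q) → QJ A) :=
    AddMonoidHom.mk' (fun y q => (red hc S).u q (y : XJ A X)) (by
      intro x y
      funext q
      exact map_add ((red hc S).u q) (x : XJ A X) y)
  have hk : Nat.card f.ker = Nat.card ((red hc S).Y T) := by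
    refine Nat.card_congr (Equiv.ofBijective (fun y : f.ker =>
      (⟨(y : (red hc S).Y T'), fun q' hq' => ?_⟩ : (red hc S).Y T)) ⟨?_, ?_⟩)
    · by_cases he : q' ∈ T'
      · exact congrFun y.2 ⟨q', Finset.mem_sdiff.2 ⟨he, hq'⟩⟩
      · exact (y : (red hc S).Y T').2 q' he
    · intro x y hxy
      have h0 : ((x : (red hc S).Y T') : XJ A X) = ((y : (red hc S).Y T') : XJ A X) :=
        congrArg (fun z : (red hc S).Y T => (z : XJ A X)) hxy
      exact Subtype.ext (Subtype.ext h0)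
    · rintro ⟨y, hy⟩
      exact ⟨⟨⟨y, fun q' hq' => hy q' fun h => hq' (h1 h)⟩, funext fun q =>
        hy q (Finset.mem_sdiff.1 q.2).2⟩, rfl⟩
  have h3 := f.ker.card_mul_index
  rw [AddSubgroup.index_ker, hk, red_card hc hS h2 (hR T' h2)] at h3
  have h4 : Nat.card f.range ≤ Nat.card (QJ A) ^ (T' \ T).card := by
    have h5 : Nat.card ((T' \ T : Finset Q) → QJ A) = Nat.card (QJ A) ^ (T' \ T).card := by
      have h55 : Nat.card (T' \ T : Finset Q) = (T' \ T).card := by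
        rw [Nat.card_eq_fintype_card, Fintype.card_coe]
      rw [Nat.card_fun, h55]
    rw [← h5]
    exact Nat.card_le_card_of_injective (fun x : f.range => (x : (T' \ T : Finset Q) → QJ A))
      Subtype.val_injective
  have h6 : T'.card = T.card + (T' \ T).card := by
    rw [Finset.card_sdiff_of_subset h1]
    have := Finset.card_le_card h1
    omega
  have h7 : 0 < Nat.card (QJ A) ^ (T' \ T).card := pow_pos Nat.card_pos _
  have h8 : Nat.card (QJ A) ^ T.card * Nat.card (QJ A) ^ (T' \ T).card ≤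
      Nat.card ((red hc S).Y T) * Nat.card (QJ A) ^ (T' \ T).card := by
    rw [← pow_add, ← h6, ← h3]
    exact Nat.mul_le_mul_left _ h4
  exact Nat.le_of_mul_le_mul_right h8 h7

theorem D3_cheb (hc : Cpt A) {S : SysR A X Q} (hS : S.Ok) (hR : ∀ T, S.Good T → Ret S T)
    (T A₀ : Finset Q) (φ : XJ A X →ₗ[QJ A] QJ A) :
    ∃ q, q ∉ T ∧ q ∉ A₀ ∧ ∀ y ∈ (red hc S).Y T, (red hc S).r q y = φ y := by
  obtain ⟨T', h1, h2⟩ := good_exists hS T
  obtain ⟨ρ, hρ1, hρ2⟩ := hR T' h2
  choose e₁ he₁ using fun q => mkA_surj (φ (mkX A (ρ (D3_e1 A T' q))))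
  choose e₂ he₂ using fun q => mkA_surj (φ (mkX A (ρ (D3_e2 A T' q))))
  let ψ : X →ₗ[A] A :=
    { toFun := fun x => ∑ q ∈ T', (S.u q x * e₁ q + S.r q x * e₂ q)
      map_add' := by
        intro x y
        rw [← Finset.sum_add_distrib]
        refine Finset.sum_congr rfl fun q _ => ?_
        rw [map_add, map_add, add_mul, add_mul]
        abel
      map_smul' := by
        intro c x
        rw [RingHom.id_apply, smul_eq_mul, Finset.mul_sum]
        refine Finset.sum_congr rfl fun q _ => ?_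
        rw [map_smul, map_smul, smul_eq_mul, smul_eq_mul, mul_add, mul_assoc, mul_assoc] }
  have hψ : ∀ x, ψ x = ∑ q ∈ T', (S.u q x * e₁ q + S.r q x * e₂ q) := fun _ => rfl
  have hψ2 : ∀ y ∈ S.Y T', mkA (ψ y) = φ (mkX A y) := by
    intro y hy
    have h3 : mkX A y = ∑ q ∈ T', (mkA (S.u q y) • mkX A (ρ (D3_e1 A T' q)) +
        mkA (S.r q y) • mkX A (ρ (D3_e2 A T' q))) := by
      conv_lhs => rw [← hρ2 y hy, D3_loc S T' y, map_sum, D3_mkX_sum]
      refine Finset.sum_congr rfl fun q _ => ?_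
      rw [map_add, map_smul, map_smul, mkX_add, mkX_smul, mkX_smul]
    rw [h3, map_sum, hψ, D3_mkA_sum]
    refine Finset.sum_congr rfl fun q _ => ?_
    rw [mkA_add, mkA_mul, mkA_mul, map_add, map_smul, map_smul, he₁, he₂, smul_eq_mul, smul_eq_mul]
  obtain ⟨q, hq1, hq2, hq3⟩ := hS.cheb T' A₀ ψ
  refine ⟨q, fun h => hq1 (h1 h), hq2, fun x hx => ?_⟩
  have hx' : x ∈ (red hc S).Y T' := fun q hq => hx q (fun hq' => hq (h1 hq'))
  obtain ⟨y, hy, rfl⟩ := (red_Y hc hS h2).1 hx'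
  rw [red_r, hq3 y hy, hψ2 y hy]

theorem red_ok (hc : Cpt A) {S : SysR A X Q} (hS : S.Ok) (hR : ∀ T, S.Good T → Ret S T) :
    (red hc S).Ok :=
  ⟨fun T => D3_finY hc hS T, fun T => D3_card hc hS hR T, fun T A₀ φ => D3_cheb hc hS hR T A₀ φ⟩

end H26GN
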