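import Pool.Agent.H26.GN.D3

/-!
ROW D4 (MP_78d38b_GN, about 120 lines): vanishing of the Selmer group.  Paper: /team-store/H26_78d38b_GN.md, 4.5.

PROOF. `T ⊇ T'` good (good_exists hS T'), `x ∈ S.Sel T'`. `c : S.Y T →ₗ (T → A)`, `c y q := S.cc T' q y` (`A7_pi S T (S.cc T')` of B2). By `mem_Sel_cc` (B2) `S.Sel T'` is the kernel of `c`. The reduced map `cb : (red).Y T → (T → QJ A)`, `cb y q := (red).cc T' q y` is injective (its kernel is `(red).Sel T' = ⊥`, mem_Sel_cc) and
`|(red).Y T| = |QJ A| ^ |T|` (red_card), so it is onto. Hence for every `a : T → A` there is `y ∈ S.Y T` with `c y q - a q ∈ J` for all `q` (red_Y; `(red).cc T' q (mkX y) = mkA (S.cc T' q y)`). So `range c ⊔ J • ⊤ = ⊤` in `T → A` (an element of `T → A` with all coordinates in `J` is in `J • ⊤`),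
and Nakayama gives `range c = ⊤` (finite module; e.g. apply `Submodule.FG.eq_bot_of_le_jacobson_smul` to `(T → A) ⧸ range c`, or `Submodule.sup_jacobson..`). `|S.Y T| = |A| ^ |T|` (card_eq hS hT, B1), so `c` is bijective and `x = 0`.
-/

set_option autoImplicit false
open scoped Classical

namespace H26GN

variable {A X Q : Type} [Ring A] [TR A] [Finite A] [AddCommGroup X] [Module A X] [TR (QJ A)]

omit [Finite A] in
theorem D4_cc (hc : Cpt A) (S : SysR A X Q) (T' : Finset Q) (q : Q) (y : X) :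
    (red hc S).cc T' q (mkX A y) = mkA (S.cc T' q y) := by
  unfold SysR.cc
  by_cases h : q ∈ T'
  · rw [if_pos h, if_pos h]
    exact red_r hc S q y
  · rw [if_neg h, if_neg h]
    exact red_u hc S q y

omit [TR A] [Finite A] [TR (QJ A)] in
theorem D4_mem {ι : Type} [Fintype ι] (a : ι → A) (h : ∀ i, a i ∈ Ring.jacobson A) :
    a ∈ Ring.jacobson A • (⊤ : Submodule A (ι → A)) := by
  have e : a = ∑ i, a i • (Pi.single i (1 : A) : ι → A) := by
    funext j
    rw [Finset.sum_apply, Finset.sum_eq_single j]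
    · rw [Pi.smul_apply, Pi.single_eq_same, smul_eq_mul, mul_one]
    · intro i _ hi
      rw [Pi.smul_apply, Pi.single_eq_of_ne hi.symm, smul_zero]
    · intro h
      exact absurd (Finset.mem_univ _) h
  rw [e]
  exact Submodule.sum_mem _ fun i _ => Submodule.smul_mem_smul (h i) Submodule.mem_top

omit [TR A] [Finite A] [TR (QJ A)] in
theorem D4_nak {W : Type} [AddCommGroup W] [Module A W] [Finite W] (N : Submodule A W)
    (h : ∀ w : W, ∃ n ∈ N, w - n ∈ Ring.jacobson A • (⊤ : Submodule A W)) : N = ⊤ := by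
  have hfin : Finite (W ⧸ N) := Finite.of_surjective _ N.mkQ_surjective
  have hmf : Module.Finite A (W ⧸ N) := Module.Finite.of_finite
  have h1 : (⊤ : Submodule A (W ⧸ N)) ≤ Ring.jacobson A • (⊤ : Submodule A (W ⧸ N)) := by
    intro x _
    obtain ⟨w, rfl⟩ := N.mkQ_surjective x
    obtain ⟨n, hn, hw⟩ := h w
    have h2 : N.mkQ w = N.mkQ (w - n) := by
      rw [map_sub, N.mkQ_apply n, (Submodule.Quotient.mk_eq_zero N).2 hn, sub_zero]
    rw [h2]
    have h3 := Submodule.mem_map_of_mem (f := N.mkQ) hw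
    rw [Submodule.map_smul''] at h3
    exact Submodule.smul_mono le_rfl le_top h3
  have h2 := (Module.Finite.fg_top (R := A) (M := W ⧸ N)).eq_bot_of_le_jacobson_smul h1
  rw [eq_top_iff]
  intro w _
  have h3 : N.mkQ w ∈ (⊤ : Submodule A (W ⧸ N)) := Submodule.mem_top
  rw [h2, Submodule.mem_bot, N.mkQ_apply, Submodule.Quotient.mk_eq_zero] at h3
  exact h3

theorem sel_bot (hc : Cpt A) {S : SysR A X Q} (hS : S.Ok) (hR : ∀ T, S.Good T → Ret S T)
    {T' : Finset Q} (h : (red hc S).Sel T' = ⊥) : S.Sel T' = ⊥ := by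
  have hQ : Finite (QJ A) := Quotient.finite _
  obtain ⟨T, h1, h2⟩ := good_exists hS T'
  have hf1 := hS.finY T
  have hf2 := D3_finY hc hS T
  have hbi : Function.Injective (A7_pi (red hc S) T ((red hc S).cc T')) := by
    rw [← LinearMap.ker_eq_bot, LinearMap.ker_eq_bot']
    intro y hy
    have h3 : (y : XJ A X) ∈ (red hc S).Sel T' :=
      (mem_Sel_cc h1).2 ⟨y.2, fun q hq => congrFun hy ⟨q, hq⟩⟩
    rw [h, Submodule.mem_bot] at h3
    exact Subtype.ext h3
  have hbs : Function.Surjective (A7_pi (red hc S) T ((red hc S).cc T')) := by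
    have e : Nat.card ((red hc S).Y T) = Nat.card (T → QJ A) := by
      rw [red_card hc hS h2 (hR T h2), Nat.card_fun, A7_card]
    exact ((Nat.bijective_iff_injective_and_card _).2 ⟨hbi, e⟩).2
  have htop : LinearMap.range (A7_pi S T (S.cc T')) = ⊤ := by
    refine D4_nak _ fun a => ?_
    obtain ⟨⟨yb, hyb⟩, hyb'⟩ := hbs fun q => mkA (a q)
    obtain ⟨y, hy, rfl⟩ := (red_Y hc hS h2).1 hyb
    refine ⟨A7_pi S T (S.cc T') ⟨y, hy⟩, ⟨_, rfl⟩, D4_mem _ fun q => ?_⟩
    have h3 : (red hc S).cc T' q (mkX A y) = mkA (a q) := congrFun hyb' q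
    rw [D4_cc] at h3
    have h4 : mkA (a q - S.cc T' q y) = 0 := by
      have h5 : mkA (a q - S.cc T' q y) = mkA (a q) - mkA (S.cc T' q y) := rfl
      rw [h5, h3, sub_self]
    exact mkA_eq_zero.1 h4
  have hinj : Function.Injective (A7_pi S T (S.cc T')) := by
    have e : Nat.card (S.Y T) = Nat.card (T → A) := by
      rw [card_eq hS h2, Nat.card_fun, A7_card]
    exact ((Nat.bijective_iff_surjective_and_card _).2 ⟨LinearMap.range_eq_top.1 htop, e⟩).1
  rw [eq_bot_iff]
  intro x hx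
  obtain ⟨h3, h4⟩ := (mem_Sel_cc h1).1 hx
  have h5 : A7_pi S T (S.cc T') ⟨x, h3⟩ = A7_pi S T (S.cc T') 0 := by
    rw [map_zero]
    funext q
    exact h4 q q.2
  have h6 := congrArg (fun z : S.Y T => (z : X)) (hinj h5)
  rw [Submodule.mem_bot]
  exact h6

end H26GN
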