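import Pool.Agent.H26.GN.D3

/-!
ROW D5 (MP_78d38b_GN, about 200 lines): the socle of the Selmer group and the reduced Selmer group.  Paper: /team-store/H26_78d38b_GN.md, 4.6.

PROOF. `T` good (good_exists hS ∅). `W := jk (S.Sel ∅) jmul`, `Vb := (red hc S).Sel ∅`. Additive maps `F₁ w : (T → A) →+ ZMod 2`, `F₁ w a := tau (∑ q, a q * st (S.r q w))` for `w ∈ W`; `F₂ v a := tau (∑ q, mkA (a q) * st ((red hc S).r q v))` for `v ∈ Vb`.
Both are injective: `F₁ w = 0` gives `S.r q w = 0` for `q ∈ T` (nondegeneracy: `tau (x * st c) = 0` for all `x` gives `c = 0`), `S.u q w = 0` as `w ∈ S.Sel ∅`, `Good`. `F₂`: the same with red_good.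
Both have the image `Im := {l | l vanishes on (u(y))_q for y ∈ S.Y T, and on the a with all a q ∈ J}`.
 `F₁ w ∈ Im`: for `y ∈ S.Y T`: `∑ (S.u q y * st (S.r q w) + S.r q y * st (S.u q w)) = 0` (recip: `A6_recip` in B1), `S.u q w = 0`. For `a q ∈ J`: `tau (a q * st (S.r q w)) = tau (st (S.r q w) * a q)`.. `= tau (S.r q w * st (a q))`(tau_st) `= tau (st (a q) * S.r q w) = tau (S.r q (st (a q) • w)) = 0` since `st (a q) ∈ J` and `J w = 0`
  [`st J = J`: from `hc`: `mkA (st j) = st (mkA j) = st 0 = 0`].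
 Every `l ∈ Im` is `F₁ w`: `repr` (B0) gives `a₀` with `l a = tau (∑ q, a₀ q * st (a q)) = tau (∑ a q * st (a₀ q))`. `l (u(c • y)) = 0` for all `c`: `∑ q, S.u q y * st (a₀ q) = 0` (eq_zero_of_tau), so (apply st) `∑ (a₀ q * st (S.u q y)) = 0`, `orth hS hT 0 a₀`: `w ∈ S.Y T` with `S.u q w = 0`, `S.r q w = a₀ q` on `T`; `w ∈ S.Sel ∅`. `j • w = 0` for `j ∈ J`:
  `tau (S.r q (j • w) * c) = tau (j * S.r q w * c) = tau ((c * j) * S.r q w)`, this is a value of `l` on an element with coordinates in `J` (up to st): zero; so `S.r q (j • w) = 0`, `Good`.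
 The same for `F₂` over `QJ A`: `l ∈ Im` vanishes on the `a` with coordinates in `J`, so `l a = lb (mkA ∘ a)` with `lb : (T → QJ A) →+ ZMod 2`; `repr` over `QJ A`, `red_orth`.
So there is an additive bijection `i : W ≃ Vb` with `F₂ (i w) = F₁ w`, and `i (a • w) = mkA a • i w` (`F₁ (a • w) x = F₁ w (x * st.. )`: `tau (x q * st (a * r)) = tau (x q * st r * st a) = tau (st a * x q * st r)`, i.e. `F₁ (a • w) x = F₁ w (st a • x)`; the same for `F₂`, `hc`).
`Bal A W` gives `β`; `βb (i w) (i w') := β w w'` is a form over `QJ A`: `βb (mkA a • v) v' = βb v (st (mkA a) • v') `(hc). Nondegenerate in the same way.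
-/

set_option autoImplicit false
open scoped Classical

namespace H26GN

private theorem D5_flip {B : Type} [Ring B] [TR B] (x a u : B) :
    tau (x * (a * st u)) = tau ((st x * u) * st a) := by
  rw [← tau_st (x * (a * st u)), st_mul, st_mul, st_st, tau_mul_comm, ← mul_assoc]

private theorem D5_sum {B Q : Type} [Ring B] [TR B] (T : Finset Q) (a u r : Q → B)
    (h : ∀ x : B, tau (∑ q ∈ T, (st x * u q) * st (a q)) = 0) :
    ∑ q ∈ T, (0 * st (r q) + a q * st (u q)) = 0 := by
  apply eq_zero_of_tau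
  intro x
  rw [← h x, Finset.mul_sum, tau_sum, tau_sum]
  refine Finset.sum_congr rfl fun q _ => ?_
  rw [zero_mul, zero_add, D5_flip]

private theorem D5_nd {B : Type} [Ring B] [TR B] {c : B} (h : ∀ x : B, tau (x * st c) = 0) :
    c = 0 := by
  have h1 : st c = 0 := eq_zero_of_tau h
  rw [← st_st c, h1, st_zero]

variable {A X Q : Type} [Ring A] [TR A] [Finite A] [AddCommGroup X] [Module A X] [TR (QJ A)]

/-- Corresponding elements of the socle and of the reduced Selmer group. -/
private def D5_Rel (hc : Cpt A) (S : SysR A X Q) (T : Finset Q) (w : X) (v : XJ A X) : Prop :=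
  ∀ q ∈ T, ∀ x : A, tau (x * st (S.r q w)) = tau (mkA x * st ((red hc S).r q v))

omit [Finite A] in
private theorem D5_add {hc : Cpt A} {S : SysR A X Q} {T : Finset Q} {w w' : X} {v v' : XJ A X}
    (h : D5_Rel hc S T w v) (h' : D5_Rel hc S T w' v') : D5_Rel hc S T (w + w') (v + v') := by
  intro q hq x
  rw [map_add, map_add, st_add, st_add, mul_add, mul_add, tau_add, tau_add, h q hq x, h' q hq x]

omit [Finite A] in
private theorem D5_smul {hc : Cpt A} {S : SysR A X Q} {T : Finset Q} {w : X} {v : XJ A X}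
    (h : D5_Rel hc S T w v) (a : A) : D5_Rel hc S T (a • w) (mkA a • v) := by
  intro q hq x
  have h1 := h q hq (st a * x)
  have e1 : tau (x * st (S.r q (a • w))) = tau (st a * x * st (S.r q w)) := by
    rw [map_smul, smul_eq_mul, st_mul, ← mul_assoc, tau_mul_comm, ← mul_assoc]
  have e2 : tau (mkA x * st ((red hc S).r q (mkA a • v))) =
      tau (mkA (st a * x) * st ((red hc S).r q v)) := by
    rw [map_smul, smul_eq_mul, st_mul, ← mul_assoc, tau_mul_comm, ← mul_assoc, hc, mkA_mul]
  rw [e1, e2, h1]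

omit [Finite A] in
private theorem D5_st {hc : Cpt A} {j : A} (hj : j ∈ Ring.jacobson A) :
    st j ∈ Ring.jacobson A := by
  rw [← mkA_eq_zero, ← hc, mkA_eq_zero.2 hj, st_zero]

/-- From the socle to the reduced Selmer group. -/
private theorem D5_one (hc : Cpt A) {S : SysR A X Q} (hS : S.Ok) {T : Finset Q} (hT : S.Good T)
    (hR : Ret S T) {w : X} (hw : w ∈ jk (S.Sel ∅) jmul) :
    ∃ v ∈ (red hc S).Sel ∅, D5_Rel hc S T w v := by
  have : Finite (QJ A) := Finite.of_surjective (mkA (A := A)) mkA_surj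
  have hu : ∀ q, S.u q w = 0 := fun q => hw.1.1 q (Finset.notMem_empty q)
  have hwT : w ∈ S.Y T := fun q _ => hu q
  have hJ : ∀ q, ∀ j ∈ Ring.jacobson A, tau (j * st (S.r q w)) = 0 := by
    intro q j hj
    have h1 : st j • w = 0 := hw.2 _ (D5_st (hc := hc) hj)
    rw [← tau_st, st_mul, st_st, tau_mul_comm, ← smul_eq_mul, ← map_smul, h1, map_zero, tau_zero]
  have hex : ∀ q, ∃ b : QJ A, ∀ x : A, tau (x * st (S.r q w)) = tau (mkA x * st b) := by
    intro q
    have hwd : ∀ a a' : A, mkA a = mkA a' → tau (a * st (S.r q w)) = tau (a' * st (S.r q w)) := by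
      intro a a' haa
      have h1 : a - a' ∈ Ring.jacobson A := (Ideal.Quotient.eq).1 haa
      have h2 := hJ q _ h1
      have h3 : a * st (S.r q w) = (a - a') * st (S.r q w) + a' * st (S.r q w) := by
        rw [← add_mul, sub_add_cancel]
      rw [h3, tau_add, h2, zero_add]
    let l : QJ A →+ ZMod 2 := AddMonoidHom.mk'
      (fun c => tau ((mkA_surj c).choose * st (S.r q w))) (by
        intro c c'
        have h1 := (mkA_surj c).choose_spec
        have h2 := (mkA_surj c').choose_spec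
        have h3 := (mkA_surj (c + c')).choose_spec
        rw [← tau_add, ← add_mul]
        apply hwd
        rw [h3, mkA_add, h1, h2])
    obtain ⟨b, hb⟩ := exists_rep l
    refine ⟨st b, fun x => ?_⟩
    rw [st_st, ← hb]
    exact hwd _ _ (mkA_surj (mkA x)).choose_spec.symm
  choose a₀ ha₀ using hex
  obtain ⟨v, hv, hv'⟩ := red_orth hc hS hT hR (fun _ => 0) a₀ (by
    intro y hy
    refine D5_sum T a₀ (fun q => (red hc S).u q y) (fun q => (red hc S).r q y) fun x => ?_
    obtain ⟨y', hy', he⟩ := (red_Y hc hS hT).1 (((red hc S).Y T).smul_mem (st x) hy)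
    have e : ∀ q ∈ T, tau ((st x * (red hc S).u q y) * st (a₀ q)) =
        tau (S.u q y' * st (S.r q w)) := by
      intro q _
      rw [ha₀, ← red_u hc, he, map_smul, smul_eq_mul]
    rw [tau_sum, Finset.sum_congr rfl e, ← tau_sum]
    have h1 := A6_recip hy' hwT
    have h2 : ∀ q ∈ T, S.u q y' * st (S.r q w) + S.r q y' * st (S.u q w) =
        S.u q y' * st (S.r q w) := by
      intro q _
      rw [hu, st_zero, mul_zero, add_zero]
    rw [Finset.sum_congr rfl h2] at h1
    rw [h1, tau_zero])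
  refine ⟨v, ⟨fun q _ => ?_, fun q hq => absurd hq (Finset.notMem_empty q)⟩, fun q hq x => ?_⟩
  · by_cases hq : q ∈ T
    · exact (hv' q hq).1
    · exact hv q hq
  · rw [(hv' q hq).2, ha₀]

/-- From the reduced Selmer group to the socle. -/
private theorem D5_two (hc : Cpt A) {S : SysR A X Q} (hS : S.Ok) {T : Finset Q} (hT : S.Good T)
    {v : XJ A X} (hv : v ∈ (red hc S).Sel ∅) :
    ∃ w ∈ jk (S.Sel ∅) jmul, D5_Rel hc S T w v := by
  have : Finite (QJ A) := Finite.of_surjective (mkA (A := A)) mkA_surj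
  have hu : ∀ q, (red hc S).u q v = 0 := fun q => hv.1 q (Finset.notMem_empty q)
  have hvT : v ∈ (red hc S).Y T := fun q _ => hu q
  have hex : ∀ q, ∃ b : A, ∀ x : A, tau (x * st b) = tau (mkA x * st ((red hc S).r q v)) := by
    intro q
    let l : A →+ ZMod 2 := AddMonoidHom.mk'
      (fun c => tau (mkA c * st ((red hc S).r q v))) (by
        intro c c'
        rw [← tau_add, ← add_mul, mkA_add])
    obtain ⟨b, hb⟩ := exists_rep l
    refine ⟨st b, fun x => ?_⟩
    rw [st_st, ← hb]
    rfl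
  choose a₀ ha₀ using hex
  obtain ⟨w, hw, hw'⟩ := orth hS hT (fun _ => 0) a₀ (by
    intro y hy
    refine D5_sum T a₀ (fun q => S.u q y) (fun q => S.r q y) fun x => ?_
    have hy' : mkX A (st x • y) ∈ (red hc S).Y T := by
      intro q hq
      rw [red_u, map_smul, hy q hq, smul_zero]
      rfl
    have e : ∀ q ∈ T, tau ((st x * S.u q y) * st (a₀ q)) =
        tau ((red hc S).u q (mkX A (st x • y)) * st ((red hc S).r q v)) := by
      intro q _
      rw [ha₀, red_u, map_smul, smul_eq_mul]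
    rw [tau_sum, Finset.sum_congr rfl e, ← tau_sum]
    have h1 := A6_recip hy' hvT
    have h2 : ∀ q ∈ T, (red hc S).u q (mkX A (st x • y)) * st ((red hc S).r q v) +
        (red hc S).r q (mkX A (st x • y)) * st ((red hc S).u q v) =
        (red hc S).u q (mkX A (st x • y)) * st ((red hc S).r q v) := by
      intro q _
      rw [hu, st_zero, mul_zero, add_zero]
    rw [Finset.sum_congr rfl h2] at h1
    rw [h1, tau_zero])
  refine ⟨w, ⟨⟨fun q _ => ?_, fun q hq => absurd hq (Finset.notMem_empty q)⟩, fun j hj => ?_⟩,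
    fun q hq x => ?_⟩
  · by_cases hq : q ∈ T
    · exact (hw' q hq).1
    · exact hw q hq
  · refine hT _ ((S.Y T).smul_mem j hw) fun q hq => ⟨?_, ?_⟩
    · rw [map_smul, (hw' q hq).1, smul_zero]
    · rw [map_smul, (hw' q hq).2, smul_eq_mul]
      apply eq_zero_of_tau
      intro x
      have h1 := ha₀ q (st (x * j))
      have h2 : mkA (st (x * j)) = 0 := by
        rw [← hc, mkA_mul, mkA_eq_zero.2 hj, mul_zero, st_zero]
      rw [h2, zero_mul, tau_zero, ← st_mul, tau_st] at h1
      rw [← mul_assoc, tau_mul_comm]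
      exact h1
  · rw [(hw' q hq).2, ha₀]

theorem bal_red (hc : Cpt A) {S : SysR A X Q} (hS : S.Ok) (hR : ∀ T, S.Good T → Ret S T)
    (h : SBal (S.Sel ∅)) : Bal (QJ A) ((red hc S).Sel ∅) := by
  obtain ⟨T, -, hT⟩ := good_exists hS ∅
  have hg := red_good hc hS hT (hR T hT)
  obtain ⟨β, hβ, hnd⟩ := h
  have h1 : ∀ w : jk (S.Sel ∅) jmul, ∃ v : (red hc S).Sel ∅, D5_Rel hc S T w v := by
    intro w
    obtain ⟨v, hv, hvw⟩ := D5_one hc hS hT (hR T hT) w.2
    exact ⟨⟨v, hv⟩, hvw⟩
  have h2 : ∀ v : (red hc S).Sel ∅, ∃ w : jk (S.Sel ∅) jmul, D5_Rel hc S T w v := by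
    intro v
    obtain ⟨w, hw, hwv⟩ := D5_two hc hS hT v.2
    exact ⟨⟨w, hw⟩, hwv⟩
  choose g hg' using h2
  have uniq : ∀ (w w' : jk (S.Sel ∅) jmul) (v : XJ A X), D5_Rel hc S T w v →
      D5_Rel hc S T w' v → w = w' := by
    intro w w' v hw hw'
    have h3 : (w : X) - w' = 0 := by
      refine hT _ (fun q _ => ?_) fun q hq => ⟨?_, ?_⟩
      · rw [map_sub, w.2.1.1 q (Finset.notMem_empty q), w'.2.1.1 q (Finset.notMem_empty q),
          sub_zero]
      · rw [map_sub, w.2.1.1 q (Finset.notMem_empty q), w'.2.1.1 q (Finset.notMem_empty q),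
          sub_zero]
      · rw [map_sub, sub_eq_zero]
        have h4 : st (S.r q w) = st (S.r q w') := by
          apply eq_of_tau
          intro x
          rw [hw q hq x, hw' q hq x]
        rw [← st_st (S.r q w), h4, st_st]
    exact Subtype.ext (sub_eq_zero.1 h3)
  refine ⟨fun v v' => β (g v) (g v'), ⟨fun x x' y => ?_, fun x y y' => ?_, fun a x y => ?_⟩,
    fun x hx => ?_⟩
  · have e : g (x + x') = g x + g x' := uniq _ _ _ (hg' (x + x')) (D5_add (hg' x) (hg' x'))
    change β (g (x + x')) (g y) = _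
    rw [e, hβ.al]
  · have e : g (y + y') = g y + g y' := uniq _ _ _ (hg' (y + y')) (D5_add (hg' y) (hg' y'))
    change β (g x) (g (y + y')) = _
    rw [e, hβ.ar]
  · obtain ⟨a, rfl⟩ := mkA_surj a
    have e : g (mkA a • x) = a • g x := uniq _ _ _ (hg' (mkA a • x)) (D5_smul (hg' x) a)
    have e' : g (st (mkA a) • y) = st a • g y := by
      rw [hc]
      exact uniq _ _ _ (hg' (mkA (st a) • y)) (D5_smul (hg' y) (st a))
    change β (g (mkA a • x)) (g y) = β (g x) (g (st (mkA a) • y))
    rw [e, e', hβ.inv]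
  · have h3 : g x = 0 := by
      apply hnd
      intro w
      obtain ⟨v, hv⟩ := h1 w
      have e : g v = w := uniq _ _ _ (hg' v) hv
      rw [← e]
      exact hx v
    have h4 := hg' x
    rw [h3] at h4
    apply Subtype.ext
    refine hg _ (fun q _ => x.2.1 q (Finset.notMem_empty q)) fun q hq =>
      ⟨x.2.1 q (Finset.notMem_empty q), ?_⟩
    apply D5_nd
    intro b
    obtain ⟨a, rfl⟩ := mkA_surj b
    rw [← h4 q hq a]
    change tau (a * st (S.r q (0 : X))) = 0
    rw [map_zero, st_zero, mul_zero, tau_zero]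

end H26GN
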