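import Mathlib

/-!
MP_78d38b_GN (helper26): finite rings with involution and trace form, systems of functionals (definitions).
Paper proof: /team-store/H26_78d38b_GN.md.
-/

set_option autoImplicit false
open scoped Classical

namespace H26GN

/-- A ring of characteristic two with an involution and a nondegenerate trace form. -/
class TR (B : Type) [Ring B] where
  st : B → B
  tau : B → ZMod 2
  two' : ∀ a : B, a + a = 0
  st_add' : ∀ a b : B, st (a + b) = st a + st b
  st_mul' : ∀ a b : B, st (a * b) = st b * st a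
  st_st' : ∀ a : B, st (st a) = a
  tau_add' : ∀ a b : B, tau (a + b) = tau a + tau b
  tau_comm' : ∀ a b : B, tau (a * b) = tau (b * a)
  tau_st' : ∀ a : B, tau (st a) = tau a
  nd' : ∀ a : B, (∀ x : B, tau (x * a) = 0) → a = 0

export TR (st tau)

section Basic

variable {B : Type} [Ring B] [TR B]

theorem add_self (a : B) : a + a = 0 := TR.two' a
theorem st_add (a b : B) : st (a + b) = st a + st b := TR.st_add' a b
theorem st_mul (a b : B) : st (a * b) = st b * st a := TR.st_mul' a b
theorem st_st (a : B) : st (st a) = a := TR.st_st' a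
theorem tau_add (a b : B) : tau (a + b) = tau a + tau b := TR.tau_add' a b
theorem tau_mul_comm (a b : B) : tau (a * b) = tau (b * a) := TR.tau_comm' a b
theorem tau_st (a : B) : tau (st a) = tau a := TR.tau_st' a
theorem eq_zero_of_tau {a : B} (h : ∀ x : B, tau (x * a) = 0) : a = 0 := TR.nd' a h

theorem st_zero : st (0 : B) = 0 := by
  have h := st_add (0 : B) 0
  rw [add_zero] at h
  rwa [left_eq_add] at h

theorem tau_zero : tau (0 : B) = 0 := by
  have h := tau_add (0 : B) 0
  rw [add_zero] at h
  rwa [left_eq_add] at h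

theorem st_sum {ι : Type*} (s : Finset ι) (f : ι → B) : st (∑ i ∈ s, f i) = ∑ i ∈ s, st (f i) := by
  induction s using Finset.induction_on with
  | empty => rw [Finset.sum_empty, Finset.sum_empty, st_zero]
  | insert a s ha ih => rw [Finset.sum_insert ha, Finset.sum_insert ha, st_add, ih]

theorem tau_sum {ι : Type*} (s : Finset ι) (f : ι → B) :
    tau (∑ i ∈ s, f i) = ∑ i ∈ s, tau (f i) := by
  induction s using Finset.induction_on with
  | empty => rw [Finset.sum_empty, Finset.sum_empty, tau_zero]
  | insert a s ha ih => rw [Finset.sum_insert ha, Finset.sum_insert ha, tau_add, ih]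

theorem st_one : st (1 : B) = 1 := by
  have h : st (1 : B) * st (st 1) = st (1 : B) * st (st 1) := rfl
  have h1 : st (1 : B) = st 1 * 1 := (mul_one _).symm
  have h2 : st (st (1 : B) * 1) = st (1 : B) * st (st 1) := st_mul _ _
  rw [mul_one, st_st, mul_one] at h2
  exact h2.symm

/-- The involution as an additive map. -/
def stH (B : Type) [Ring B] [TR B] : B →+ B := AddMonoidHom.mk' st st_add

/-- The trace form as an additive map. -/
def tauH (B : Type) [Ring B] [TR B] : B →+ ZMod 2 := AddMonoidHom.mk' tau tau_add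

theorem mod_two {V : Type} [AddCommGroup V] [Module B V] (x : V) : x + x = 0 := by
  have h : ((1 : B) + 1) • x = 0 := by rw [add_self, zero_smul]
  rw [add_smul, one_smul] at h
  exact h

end Basic

/-- The dual group. -/
def Du (V : Type) [AddCommGroup V] : Type := V →+ ZMod 2

noncomputable instance (V : Type) [AddCommGroup V] : AddCommGroup (Du V) :=
  inferInstanceAs (AddCommGroup (V →+ ZMod 2))

instance (V : Type) [AddCommGroup V] : FunLike (Du V) V (ZMod 2) :=
  inferInstanceAs (FunLike (V →+ ZMod 2) V (ZMod 2))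

instance (V : Type) [AddCommGroup V] : AddMonoidHomClass (Du V) V (ZMod 2) :=
  inferInstanceAs (AddMonoidHomClass (V →+ ZMod 2) V (ZMod 2))

instance (V : Type) [AddCommGroup V] [Finite V] : Finite (Du V) :=
  Finite.of_injective (fun f : Du V => (f : V → ZMod 2)) DFunLike.coe_injective

/-- The action on the dual module: `(a φ) x = φ (a* x)`. -/
noncomputable instance (B V : Type) [Ring B] [TR B] [AddCommGroup V] [Module B V] :
    Module B (Du V) where
  smul a φ := (AddMonoidHom.comp (φ : V →+ ZMod 2)
    (DistribSMul.toAddMonoidHom V (st a) : V →+ V) : V →+ ZMod 2)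
  one_smul φ := by
    apply DFunLike.ext
    intro x
    change φ (st (1 : B) • x) = φ x
    rw [st_one, one_smul]
  mul_smul a b φ := by
    apply DFunLike.ext
    intro x
    change φ (st (a * b) • x) = φ (st b • (st a • x))
    rw [st_mul, mul_smul]
  smul_zero a := by
    apply DFunLike.ext
    intro x
    rfl
  smul_add a φ ψ := by
    apply DFunLike.ext
    intro x
    rfl
  add_smul a b φ := by
    apply DFunLike.ext
    intro x
    change φ (st (a + b) • x) = φ (st a • x) + φ (st b • x)
    rw [st_add, add_smul, map_add]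
  zero_smul φ := by
    apply DFunLike.ext
    intro x
    change φ (st (0 : B) • x) = 0
    rw [st_zero, zero_smul, map_zero]

theorem Du_smul {B V : Type} [Ring B] [TR B] [AddCommGroup V] [Module B V] (a : B) (φ : Du V)
    (x : V) : (a • φ) x = φ (st a • x) := rfl

variable (B X Q : Type) [Ring B] [TR B] [AddCommGroup X] [Module B X]

/-- Two families of linear functionals with a reciprocity law. -/
structure SysR where
  u : Q → X →ₗ[B] B
  r : Q → X →ₗ[B] B
  fin : ∀ x, {q | u q x ≠ 0}.Finite
  recip : ∀ x y, ∑ᶠ q, (u q x * st (r q y) + r q x * st (u q y)) = 0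

variable {B X Q}

namespace SysR

/-- The elements which are unramified outside `T`. -/
def Y (S : SysR B X Q) (T : Finset Q) : Submodule B X where
  carrier := {x | ∀ q, q ∉ T → S.u q x = 0}
  zero_mem' := fun q _ => map_zero _
  add_mem' := fun {x y} hx hy q hq => by rw [map_add, hx q hq, hy q hq, add_zero]
  smul_mem' := fun a x hx q hq => by rw [map_smul, hx q hq, smul_zero]

theorem mem_Y {S : SysR B X Q} {T : Finset Q} {x : X} :
    x ∈ S.Y T ↔ ∀ q, q ∉ T → S.u q x = 0 := Iff.rfl

/-- The Selmer group of the twist by `T`. -/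
def Sel (S : SysR B X Q) (T : Finset Q) : Submodule B X where
  carrier := {x | (∀ q, q ∉ T → S.u q x = 0) ∧ ∀ q ∈ T, S.r q x = 0}
  zero_mem' := ⟨fun q _ => map_zero _, fun q _ => map_zero _⟩
  add_mem' := fun {x y} hx hy => ⟨fun q hq => by rw [map_add, hx.1 q hq, hy.1 q hq, add_zero],
    fun q hq => by rw [map_add, hx.2 q hq, hy.2 q hq, add_zero]⟩
  smul_mem' := fun a x hx => ⟨fun q hq => by rw [map_smul, hx.1 q hq, smul_zero],
    fun q hq => by rw [map_smul, hx.2 q hq, smul_zero]⟩

theorem mem_Sel {S : SysR B X Q} {T : Finset Q} {x : X} :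
    x ∈ S.Sel T ↔ (∀ q, q ∉ T → S.u q x = 0) ∧ ∀ q ∈ T, S.r q x = 0 := Iff.rfl

/-- The properties of the system. -/
structure Ok (S : SysR B X Q) : Prop where
  finY : ∀ T : Finset Q, Finite (S.Y T)
  card : ∀ T : Finset Q, Nat.card B ^ T.card ≤ Nat.card (S.Y T)
  cheb : ∀ (T A : Finset Q) (φ : X →ₗ[B] B), ∃ q, q ∉ T ∧ q ∉ A ∧ ∀ y ∈ S.Y T, S.r q y = φ y

/-- The localization at `T` is injective. -/
def Good (S : SysR B X Q) (T : Finset Q) : Prop :=
  ∀ x ∈ S.Y T, (∀ q ∈ T, S.u q x = 0 ∧ S.r q x = 0) → x = 0

/-- The coordinate which vanishes on the Selmer group of the twist by `S'`. -/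
noncomputable def cc (S : SysR B X Q) (S' : Finset Q) (q : Q) : X →ₗ[B] B :=
  if q ∈ S' then S.r q else S.u q

/-- The other coordinate. -/
noncomputable def dd (S : SysR B X Q) (S' : Finset Q) (q : Q) : X →ₗ[B] B :=
  if q ∈ S' then S.u q else S.r q

/-- The functional given by `γ`. -/
noncomputable def bh (S : SysR B X Q) (S' T : Finset Q) (γ : Q → B) : X →ₗ[B] B where
  toFun x := ∑ q ∈ T, S.dd S' q x * st (γ q)
  map_add' x y := by
    rw [← Finset.sum_add_distrib]
    refine Finset.sum_congr rfl fun q _ => ?_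
    rw [map_add, add_mul]
  map_smul' a x := by
    rw [RingHom.id_apply, Finset.smul_sum]
    refine Finset.sum_congr rfl fun q _ => ?_
    rw [map_smul, smul_mul_assoc]

theorem bh_apply (S : SysR B X Q) (S' T : Finset Q) (γ : Q → B) (x : X) :
    S.bh S' T γ x = ∑ q ∈ T, S.dd S' q x * st (γ q) := rfl

/-- A prime `q` outside `T` with the functional `bh` and the class `y` with the coordinates `(γ, 0)`. -/
structure PR (S : SysR B X Q) (S' T : Finset Q) (γ : Q → B) (q : Q) (y : X) : Prop where
  notin : q ∉ T
  mem : ∀ q', q' ∉ T → q' ≠ q → S.u q' y = 0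
  one : S.u q y = 1
  cc : ∀ q' ∈ T, S.cc S' q' y = γ q'
  dd : ∀ q' ∈ T, S.dd S' q' y = 0
  bh : ∀ y' ∈ S.Y T, S.r q y' = S.bh S' T γ y'

end SysR

/-- The idempotent of the trivial module and the solution of `z + z* = 1 + e`. -/
class TE (B : Type) [Ring B] [TR B] where
  e : B
  z : B
  ee : e * e = e
  ste : st e = e
  ne : e ≠ 0
  triv : ∀ a : B, a * e = 0 ∨ a * e = e
  cen : ∀ a : B, a * e = e * a
  zz : z + st z = 1 + e

/-- An invariant bilinear form. -/
structure Frm (B : Type) {V : Type} [Ring B] [TR B] [AddCommGroup V] [Module B V]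
    (β : V → V → ZMod 2) : Prop where
  al : ∀ x x' y, β (x + x') y = β x y + β x' y
  ar : ∀ x y y', β x (y + y') = β x y + β x y'
  inv : ∀ (a : B) x y, β (a • x) y = β x (st a • y)

/-- A balanced module: it has an invariant bilinear form `β` such that `β(x,y) + β(y,x)` is nondegenerate. -/
def Bal (B V : Type) [Ring B] [TR B] [AddCommGroup V] [Module B V] : Prop :=
  ∃ β : V → V → ZMod 2, Frm B β ∧ ∀ x, (∀ y, β x y + β y x = 0) → x = 0

/-- The set of the members of a list of pairs. -/
noncomputable def prs {Q : Type} (l : List (Q × Q)) : Finset Q :=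
  (l.map Prod.fst ++ l.map Prod.snd).toFinset

end H26GN
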