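import Pool.Agent.H26.GN.Qb

/-!
ROW E1 (MP_78d38b_GN, about 180 lines): the retraction.  Paper: /team-store/H26_78d38b_GN.md, section 3.

`A = RG G = F_2[G]`, `W` a finite `A`-module, `Y` a submodule, `P` a subgroup of odd index and of order a power of two, `|Y^P| ^ |P| ≤ |Y|`.
PROOF. `W` is a `ZMod 2`-vector space (`mod_two`). Let `F := Y^P` and `i₁, ..., i_d : Y → ZMod 2` functionals whose restrictions are a basis of the dual of `F` (`d = dim F`; simpler: ONE linear map `l : W →ₗ[ZMod 2] F` which is the identity on `F` (a projection)). With the projection `l : W →+ F` (`l y = y` for `y ∈ F`) put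
`Lam : W → (P → F)`, `Lam w p := l (of p⁻¹ • w)`. `Lam` is additive and `Lam (of p' • w) p = Lam w (p'⁻¹ p)`. Injective on `Y`: `{y ∈ Y | Lam y = 0}` is a `P`-stable subgroup of `Y`; if it is not zero it contains a nonzero `P`-fixed element `y` (2-group acting on a nontrivial 2-group: `IsPGroup.card_modEq_card_fixedPoints`), then `y ∈ F`, `Lam y 1 = l y = y ≠ 0`.
`|P → F| = |F| ^ |P| ≤ |Y|`, so `Lam` maps `Y` bijectively onto `P → F`. `e_P w := (Lam|Y)⁻¹ (Lam w)`: additive `W → Y`, identity on `Y`, `P`-equivariant (`Lam` is equivariant for the action `(p' f) p = f (p'⁻¹ p)` on `P → F`, injective on `Y`).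
`ρ w := ∑ over representatives g of G / P of of g • e_P (of g⁻¹ • w)` (independent of the representatives as `e_P` is `P`-equivariant; `G ⧸ P` finite, `Quotient.out`); it commutes with `of h` (the left multiplication by `h` permutes the cosets), so it is `RG G`-linear (additive + H26OD.rg_induction). `ρ w ∈ Y`; for `y ∈ Y`: `ρ y = P.index • y = y` (odd).
-/

set_option autoImplicit false
open scoped Classical

namespace H26GN

open H26OD (RG)

theorem of_mul_smul {G W : Type} [Group G] [AddCommGroup W] [Module (RG G) W] (g h : G) (w : W) :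
    MonoidAlgebra.of (ZMod 2) G (g * h) • w =
      MonoidAlgebra.of (ZMod 2) G g • MonoidAlgebra.of (ZMod 2) G h • w := by
  rw [map_mul, mul_smul]

theorem of_one_smul {G W : Type} [Group G] [AddCommGroup W] [Module (RG G) W] (w : W) :
    MonoidAlgebra.of (ZMod 2) G 1 • w = w := by
  rw [map_one, one_smul]

/-- The `P`-equivariant retraction onto `Y`. -/
theorem exists_retract_P {G W : Type} [Group G] [Finite G] [AddCommGroup W] [Module (RG G) W]
    [Finite W] (Y : Submodule (RG G) W) (P : Subgroup G) (hP : IsPGroup 2 P)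
    (hc : Nat.card {y : W // y ∈ Y ∧ ∀ p ∈ P, MonoidAlgebra.of (ZMod 2) G p • y = y} ^ Nat.card P ≤
      Nat.card Y) :
    ∃ e : W → W, (∀ w, e w ∈ Y) ∧ (∀ w w', e (w + w') = e w + e w') ∧ (∀ y ∈ Y, e y = y) ∧
      ∀ p ∈ P, ∀ w, e (MonoidAlgebra.of (ZMod 2) G p • w) =
        MonoidAlgebra.of (ZMod 2) G p • e w := by
  have h2 : ∀ w : W, w + w = 0 := fun w => by
    have h := H26OD.add_self (1 : RG G)
    have h' : ((1 : RG G) + 1) • w = 0 := by rw [h, zero_smul]
    rwa [add_smul, one_smul] at h'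
  let _ : Module (ZMod 2) W := AddCommGroup.zmodModule (n := 2) (fun w => by
    rw [two_nsmul]; exact h2 w)
  -- the fixed points
  let F0 : AddSubgroup W :=
    { carrier := {y | y ∈ Y ∧ ∀ p ∈ P, MonoidAlgebra.of (ZMod 2) G p • y = y}
      zero_mem' := ⟨Y.zero_mem, fun p _ => smul_zero _⟩
      add_mem' := fun {a b} ha hb => ⟨Y.add_mem ha.1 hb.1, fun p hp => by
        rw [smul_add, ha.2 p hp, hb.2 p hp]⟩
      neg_mem' := fun {a} ha => ⟨Y.neg_mem ha.1, fun p hp => by
        rw [smul_neg, ha.2 p hp]⟩ }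
  let F : Submodule (ZMod 2) W := AddSubgroup.toZModSubmodule 2 F0
  have hF : ∀ y : W, y ∈ F ↔ (y ∈ Y ∧ ∀ p ∈ P, MonoidAlgebra.of (ZMod 2) G p • y = y) :=
    fun y => Iff.rfl
  obtain ⟨l, hl⟩ := LinearMap.exists_leftInverse_of_injective F.subtype (Submodule.ker_subtype F)
  have hl' : ∀ y : F, l (y : W) = y := fun y => by
    have := LinearMap.congr_fun hl y
    exact this
  let Lam : W → (P → F) := fun w p => l (MonoidAlgebra.of (ZMod 2) G ((p : G)⁻¹) • w)
  have Lam_add : ∀ w w', Lam (w + w') = Lam w + Lam w' := fun w w' => by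
    funext p
    change l _ = l _ + l _
    rw [smul_add, map_add]
  have Lam_zero : Lam 0 = 0 := by
    funext p
    change l _ = 0
    rw [smul_zero, map_zero]
  have Lam_neg : ∀ w, Lam (-w) = - Lam w := fun w => by
    funext p
    change l _ = - l _
    rw [smul_neg, map_neg]
  have Lam_of : ∀ (p q : P) (w : W), Lam (MonoidAlgebra.of (ZMod 2) G (p : G) • w) q =
      Lam w (p⁻¹ * q) := fun p q w => by
    change l _ = l _
    rw [← of_mul_smul]
    congr 3
    rw [Subgroup.coe_mul, mul_inv_rev, Subgroup.coe_inv, inv_inv]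
  -- injectivity on Y
  let S : AddSubgroup W :=
    { carrier := {y | y ∈ Y ∧ Lam y = 0}
      zero_mem' := ⟨Y.zero_mem, Lam_zero⟩
      add_mem' := fun {a b} ha hb => ⟨Y.add_mem ha.1 hb.1, by
        rw [Lam_add, ha.2, hb.2, add_zero]⟩
      neg_mem' := fun {a} ha => ⟨Y.neg_mem ha.1, by
        rw [Lam_neg, ha.2, neg_zero]⟩ }
  let act : MulAction P S :=
    { smul := fun p s => ⟨MonoidAlgebra.of (ZMod 2) G (p : G) • (s : W),
        Y.smul_mem _ s.2.1, by
          funext q
          rw [Lam_of, s.2.2]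
          rfl⟩
      one_smul := fun s => Subtype.ext (of_one_smul (G := G) (s : W))
      mul_smul := fun p q s => Subtype.ext (of_mul_smul (p : G) (q : G) (s : W)) }
  have hS : ∀ y ∈ Y, Lam y = 0 → y = 0 := by
    intro y hy hy0
    by_contra hne
    have hdvd : 2 ∣ Nat.card S := by
      have ho : addOrderOf (⟨y, hy, hy0⟩ : S) = 2 := by
        refine addOrderOf_eq_prime ?_ ?_
        · rw [two_nsmul]
          exact Subtype.ext (h2 y)
        · intro h
          exact hne (congrArg Subtype.val h)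
      rw [← ho]
      exact addOrderOf_dvd_natCard _
    have h0 : (0 : S) ∈ MulAction.fixedPoints P S := by
      intro p
      exact Subtype.ext (smul_zero _)
    have : Fact (Nat.Prime 2) := ⟨Nat.prime_two⟩
    obtain ⟨b, hb, hb0⟩ := hP.exists_fixed_point_of_prime_dvd_card_of_fixed_point S hdvd h0
    have hbF : (b : W) ∈ F := by
      rw [hF]
      refine ⟨b.2.1, fun p hp => ?_⟩
      exact congrArg Subtype.val (hb ⟨p, hp⟩)
    have h1 : Lam (b : W) 1 = ⟨(b : W), hbF⟩ := by
      change l _ = _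
      rw [Subgroup.coe_one, inv_one, of_one_smul]
      exact hl' ⟨(b : W), hbF⟩
    rw [b.2.2] at h1
    apply hb0
    apply Subtype.ext
    have h3 : ((0 : F) : W) = (b : W) := congrArg Subtype.val h1
    exact h3
  have inj : ∀ y ∈ Y, ∀ y' ∈ Y, Lam y = Lam y' → y = y' := by
    intro y hy y' hy' h
    have := hS (y + -y') (Y.add_mem hy (Y.neg_mem hy')) (by
      rw [Lam_add, Lam_neg, h, add_neg_cancel])
    exact add_neg_eq_zero.mp this
  have bij : Function.Bijective (fun y : Y => Lam (y : W)) := by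
    apply Function.Injective.bijective_of_nat_card_le
    · intro y y' h
      exact Subtype.ext (inj _ y.2 _ y'.2 h)
    · rw [Nat.card_fun]
      exact hc
  have hex : ∀ w, ∃ y ∈ Y, Lam y = Lam w := fun w => by
    obtain ⟨y, hy⟩ := bij.2 (Lam w)
    exact ⟨y, y.2, hy⟩
  choose e he he' using hex
  refine ⟨e, he, ?_, ?_, ?_⟩
  · intro w w'
    apply inj _ (he _) _ (Y.add_mem (he _) (he _))
    rw [he', Lam_add, Lam_add, he', he']
  · intro y hy
    exact inj _ (he _) _ hy (he' _)
  · intro p hp w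
    apply inj _ (he _) _ (Y.smul_mem _ (he _))
    rw [he']
    funext q
    rw [Lam_of ⟨p, hp⟩ q w, Lam_of ⟨p, hp⟩ q (e w), he']

theorem exists_retract {G W : Type} [Group G] [Finite G] [AddCommGroup W] [Module (RG G) W] [Finite W]
    (Y : Submodule (RG G) W) (P : Subgroup G) (hP : IsPGroup 2 P) (hodd : Odd P.index)
    (hc : Nat.card {y : W // y ∈ Y ∧ ∀ p ∈ P, MonoidAlgebra.of (ZMod 2) G p • y = y} ^ Nat.card P ≤
      Nat.card Y) :
    ∃ ρ : W →ₗ[RG G] W, (∀ w, ρ w ∈ Y) ∧ ∀ y ∈ Y, ρ y = y := by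
  obtain ⟨e, he, hadd, hid, heq⟩ := exists_retract_P Y P hP hc
  have h2 : ∀ w : W, w + w = 0 := fun w => by
    have h := H26OD.add_self (1 : RG G)
    have h' : ((1 : RG G) + 1) • w = 0 := by rw [h, zero_smul]
    rwa [add_smul, one_smul] at h'
  have he0 : e 0 = 0 := by
    have h := hadd 0 0
    rw [add_zero] at h
    rwa [left_eq_add] at h
  let _ : Fintype (G ⧸ P) := Fintype.ofFinite _
  let T : G → W → W := fun g w =>
    MonoidAlgebra.of (ZMod 2) G g • e (MonoidAlgebra.of (ZMod 2) G g⁻¹ • w)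
  have T_P : ∀ (g p : G) (_ : p ∈ P) (w : W), T (g * p) w = T g w := by
    intro g p hp w
    change MonoidAlgebra.of (ZMod 2) G (g * p) • e (MonoidAlgebra.of (ZMod 2) G (g * p)⁻¹ • w) =
      MonoidAlgebra.of (ZMod 2) G g • e (MonoidAlgebra.of (ZMod 2) G g⁻¹ • w)
    rw [mul_inv_rev, of_mul_smul p⁻¹, heq p⁻¹ (P.inv_mem hp), of_mul_smul g p, ← of_mul_smul p,
      mul_inv_cancel, of_one_smul]
  have T_out : ∀ (g : G) (w : W), T (Quotient.out (QuotientGroup.mk g : G ⧸ P)) w = T g w := by
    intro g w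
    obtain ⟨p, hp⟩ := QuotientGroup.mk_out_eq_mul P g
    rw [hp]
    exact T_P g p p.2 w
  have T_add : ∀ (g : G) (w w' : W), T g (w + w') = T g w + T g w' := by
    intro g w w'
    change MonoidAlgebra.of (ZMod 2) G g • e (MonoidAlgebra.of (ZMod 2) G g⁻¹ • (w + w')) =
      MonoidAlgebra.of (ZMod 2) G g • e (MonoidAlgebra.of (ZMod 2) G g⁻¹ • w) +
        MonoidAlgebra.of (ZMod 2) G g • e (MonoidAlgebra.of (ZMod 2) G g⁻¹ • w')
    rw [smul_add, hadd, smul_add]
  have T_of : ∀ (g h : G) (w : W), T (h * g) (MonoidAlgebra.of (ZMod 2) G h • w) =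
      MonoidAlgebra.of (ZMod 2) G h • T g w := by
    intro g h w
    change MonoidAlgebra.of (ZMod 2) G (h * g) • e (MonoidAlgebra.of (ZMod 2) G (h * g)⁻¹ •
      MonoidAlgebra.of (ZMod 2) G h • w) =
      MonoidAlgebra.of (ZMod 2) G h • MonoidAlgebra.of (ZMod 2) G g •
        e (MonoidAlgebra.of (ZMod 2) G g⁻¹ • w)
    rw [← of_mul_smul, ← of_mul_smul, mul_inv_rev, inv_mul_cancel_right]
  let R : W → W := fun w => ∑ x : G ⧸ P, T (Quotient.out x) w
  have R_add : ∀ w w', R (w + w') = R w + R w' := by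
    intro w w'
    change ∑ x : G ⧸ P, T (Quotient.out x) (w + w') = _
    rw [Finset.sum_congr rfl (fun x _ => T_add _ w w'), Finset.sum_add_distrib]
  have R_zero : R 0 = 0 := by
    have h := R_add 0 0
    rw [add_zero] at h
    rwa [left_eq_add] at h
  have R_of : ∀ (h : G) (w : W), R (MonoidAlgebra.of (ZMod 2) G h • w) =
      MonoidAlgebra.of (ZMod 2) G h • R w := by
    intro h w
    change ∑ x : G ⧸ P, T (Quotient.out x) (MonoidAlgebra.of (ZMod 2) G h • w) =
      MonoidAlgebra.of (ZMod 2) G h • ∑ x : G ⧸ P, T (Quotient.out x) w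
    rw [Finset.smul_sum, ← Equiv.sum_comp (MulAction.toPerm h : Equiv.Perm (G ⧸ P))]
    refine Finset.sum_congr rfl (fun x _ => ?_)
    rw [← T_of, ← T_out (h * Quotient.out x)]
    congr 2
    rw [MulAction.toPerm_apply, ← smul_eq_mul, ← MulAction.Quotient.smul_mk]
    congr 1
    exact (QuotientGroup.out_eq' x).symm
  refine ⟨{ toFun := R, map_add' := R_add, map_smul' := ?_ }, ?_, ?_⟩
  · intro a w
    rw [RingHom.id_apply]
    induction a using H26OD.rg_induction with
    | h0 => rw [zero_smul, zero_smul, R_zero]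
    | hof g => exact R_of g w
    | hadd a b ha hb => rw [add_smul, add_smul, R_add, ha, hb]
  · intro w
    exact Y.sum_mem (fun x _ => Y.smul_mem _ (he _))
  · intro y hy
    change ∑ x : G ⧸ P, T (Quotient.out x) y = y
    have hT : ∀ g : G, T g y = y := by
      intro g
      change MonoidAlgebra.of (ZMod 2) G g • e (MonoidAlgebra.of (ZMod 2) G g⁻¹ • y) = y
      rw [hid _ (Y.smul_mem _ hy), ← of_mul_smul, mul_inv_cancel, of_one_smul]
    rw [Finset.sum_congr rfl (fun x _ => hT _), Finset.sum_const, Finset.card_univ,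
      ← Nat.card_eq_fintype_card]
    change P.index • y = y
    obtain ⟨k, hk⟩ := hodd
    rw [hk, add_nsmul, one_nsmul, mul_comm, mul_nsmul, two_nsmul, h2, zero_add]

end H26GN
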