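import Mathlib

/-!
ROW Wa (MP_78d38b_GN, about 120 lines): the trace form of a finite semisimple ring of characteristic two.
Paper: /team-store/H26_78d38b_GN.md, 5.1.

PROOF. `B` is a `ZMod 2`-algebra (`Algebra` from `a + a = 0`: `ZMod.algebra` with `CharP B 2`, or build it; `B` may be trivial: then everything is zero).
`IsSemisimpleRing.exists_algEquiv_pi_matrix_divisionRing_finite (ZMod 2) B` gives `e : B ≃ₐ Π i, Matrix (Fin (d i)) (Fin (d i)) (D i)` with division rings `D i` finite over `ZMod 2`, so finite, so fields (`littleWedderburn` instance).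
For a finite field `k` of characteristic two let `t : k → ZMod 2` be the trace `Algebra.trace (ZMod 2) k`: additive, `t (x * x) = t x` (`Algebra.trace_eq_of_algEquiv` with the Frobenius `frobeniusEquiv`/`FiniteField.frobeniusAlgEquiv`, or `FiniteField.trace...`), nondegenerate (`traceForm_nondegenerate`).
`tau x := ∑ i, t_i (Matrix.trace (e x i))`. additive; `tau (a b) = tau (b a)`: `Matrix.trace_mul_comm`; nondegenerate: for `a ≠ 0` some entry `(e a i) r s ≠ 0`, take `x` with `e x i = c • single s r 1` (0 at the other indices): `trace = c * entry`, choose `c` with `t (c * entry) ≠ 0`.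
`tau (x * x) = tau x`: `trace (M * M) = (trace M)^2` in characteristic two (commutative entries: `∑_{r,s} M r s * M s r`, the terms with `r ≠ s` cancel in pairs) and `t (y^2) = t y`.
-/

set_option autoImplicit false
open scoped Classical

namespace H26GN

theorem Wa_field {D : Type} [DivisionRing D] [Algebra (ZMod 2) D] [Module.Finite (ZMod 2) D] :
    (∀ a b : D, a * b = b * a) ∧ (∀ a : D, a + a = 0) ∧
    ∃ t : D → ZMod 2, (∀ a b, t (a + b) = t a + t b) ∧
      (∀ a, (∀ x, t (x * a) = 0) → a = 0) ∧ ∀ x, t (x * x) = t x := by
  haveI : Finite D := Module.finite_of_finite (ZMod 2)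
  letI : Field D := littleWedderburn D
  haveI : CharP D 2 := charP_of_injective_algebraMap (algebraMap (ZMod 2) D).injective 2
  refine ⟨fun a b => mul_comm a b, fun a => CharTwo.add_self_eq_zero a,
    fun x => Algebra.trace (ZMod 2) D x, fun a b => map_add _ a b, ?_, ?_⟩
  · intro a ha
    by_contra hne
    have hnd := (traceForm_nondegenerate (ZMod 2) D).1 a
    apply hne
    apply hnd
    intro x
    rw [Algebra.traceForm_apply, mul_comm]
    exact ha x
  · intro x
    have h := Algebra.trace_eq_of_algEquiv
      (FiniteField.frobeniusAlgEquivOfAlgebraic (ZMod 2) D) x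
    have h3 : (FiniteField.frobeniusAlgEquivOfAlgebraic (ZMod 2) D) x = x * x := by
      rw [FiniteField.frobeniusAlgEquivOfAlgebraic_apply]
      simp [pow_two]
    rw [h3] at h
    exact h

theorem Wa_mat {D : Type} [DivisionRing D] [Algebra (ZMod 2) D] [Module.Finite (ZMod 2) D]
    (n : ℕ) :
    ∃ tau : Matrix (Fin n) (Fin n) D → ZMod 2, (∀ a b, tau (a + b) = tau a + tau b) ∧
      (∀ a b, tau (a * b) = tau (b * a)) ∧ (∀ a, (∀ x, tau (x * a) = 0) → a = 0) ∧
      ∀ x, tau (x * x) = tau x := by
  obtain ⟨hc, h2, t, tadd, tnd, tsq⟩ := Wa_field (D := D)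
  have t0 : t 0 = 0 := by
    have h := tadd 0 0
    simpa using h
  have trc : ∀ a b : Matrix (Fin n) (Fin n) D, Matrix.trace (a * b) = Matrix.trace (b * a) := by
    intro a b
    simp only [Matrix.trace, Matrix.diag, Matrix.mul_apply]
    rw [Finset.sum_comm]
    exact Finset.sum_congr rfl fun i _ => Finset.sum_congr rfl fun j _ => hc _ _
  refine ⟨fun a => t (Matrix.trace a), fun a b => ?_, fun a b => ?_, fun a ha => ?_, fun x => ?_⟩
  · simp only [Matrix.trace_add, tadd]
  · simp only [trc a b]
  · ext r s
    apply tnd
    intro c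
    have h := ha (Matrix.single s r c)
    have h1 : Matrix.trace (Matrix.single s r c * a) = c * a r s := by
      rw [Matrix.trace]
      rw [Finset.sum_eq_single s]
      · simp [Matrix.diag]
      · intro b _ hb
        simp [Matrix.diag, Matrix.single_mul_apply_of_ne, hb]
      · intro h; exact absurd (Finset.mem_univ _) h
    simp only [h1] at h
    exact h
  · have h1 : Matrix.trace (x * x) = Matrix.trace x * Matrix.trace x := by
      have hA : Matrix.trace (x * x) = ∑ p : Fin n × Fin n, x p.1 p.2 * x p.2 p.1 := by
        rw [Fintype.sum_prod_type]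
        simp only [Matrix.trace, Matrix.diag, Matrix.mul_apply]
      have hB : Matrix.trace x * Matrix.trace x
          = ∑ p : Fin n × Fin n, x p.1 p.1 * x p.2 p.2 := by
        rw [Fintype.sum_prod_type]
        simp only [Matrix.trace, Matrix.diag, Finset.sum_mul, Finset.mul_sum]
        exact Finset.sum_comm
      have key : ∀ f : Fin n × Fin n → D, (∀ i j, f (i, j) = f (j, i)) →
          ∑ p, f p = ∑ i, f (i, i) := by
        intro f hf
        have hs : ∑ p, f p = ∑ p ∈ Finset.univ.filter (fun p : Fin n × Fin n => p.1 = p.2), f p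
            + ∑ p ∈ Finset.univ.filter (fun p : Fin n × Fin n => ¬ p.1 = p.2), f p :=
          (Finset.sum_filter_add_sum_filter_not _ _ _).symm
        have hz : ∑ p ∈ Finset.univ.filter (fun p : Fin n × Fin n => ¬ p.1 = p.2), f p = 0 := by
          refine Finset.sum_involution (fun p _ => (p.2, p.1)) ?_ ?_ ?_ ?_
          · rintro ⟨i, j⟩ _
            simp only [hf i j]
            exact h2 _
          · rintro ⟨i, j⟩ hij _ h
            simp only [Finset.mem_filter, Finset.mem_univ, true_and] at hij
            exact hij (by simpa using (congrArg Prod.fst h).symm)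
          · rintro ⟨i, j⟩ hij
            simp only [Finset.mem_filter, Finset.mem_univ, true_and] at hij ⊢
            exact fun h => hij h.symm
          · rintro ⟨i, j⟩ _
            rfl
        rw [hs, hz, add_zero]
        refine (Finset.sum_bij (fun i _ => (i, i)) ?_ ?_ ?_ ?_).symm
        · intro i _; simp
        · intro i _ j _ h; exact congrArg Prod.fst h
        · rintro ⟨i, j⟩ h
          simp only [Finset.mem_filter, Finset.mem_univ, true_and] at h
          exact ⟨i, Finset.mem_univ _, by simp [h]⟩
        · intro i _; rfl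
      rw [hA, hB, key _ (fun i j => hc _ _), key _ (fun i j => hc _ _)]
    simp only [h1, tsq]

theorem exists_tau {B : Type} [Ring B] [Finite B] [IsSemisimpleRing B] (h2 : ∀ a : B, a + a = 0) :
    ∃ tau : B → ZMod 2, (∀ a b, tau (a + b) = tau a + tau b) ∧
      (∀ a b, tau (a * b) = tau (b * a)) ∧ (∀ a, (∀ x, tau (x * a) = 0) → a = 0) ∧
      ∀ x, tau (x * x) = tau x := by
  rcases subsingleton_or_nontrivial B with hB | hB
  · exact ⟨fun _ => 0, by simp, by simp, fun a _ => Subsingleton.elim _ _, by simp⟩
  haveI : CharP B 2 := by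
    refine CharP.charP_iff_prime_eq_zero Nat.prime_two |>.mpr ?_
    have := h2 1
    rw [Nat.cast_two, ← one_add_one_eq_two]
    exact this
  letI : Algebra (ZMod 2) B := ZMod.algebra B 2
  haveI : Module.Finite (ZMod 2) B := Module.Finite.of_finite
  obtain ⟨n, D, d, i1, i2, i3, hd, ⟨e⟩⟩ :=
    IsSemisimpleRing.exists_algEquiv_pi_matrix_divisionRing_finite (ZMod 2) B
  have hm := fun i => Wa_mat (D := D i) (d i)
  choose t tadd tcomm tnd tsq using hm
  have t0 : ∀ i, t i 0 = 0 := by
    intro i
    have h := tadd i 0 0
    simpa using h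
  refine ⟨fun x => ∑ i, t i (e x i), fun a b => ?_, fun a b => ?_, fun a ha => ?_, fun x => ?_⟩
  · simp only [map_add, Pi.add_apply, tadd, Finset.sum_add_distrib]
  · simp only [map_mul, Pi.mul_apply]
    exact Finset.sum_congr rfl fun i _ => tcomm i _ _
  · have : e a = 0 := by
      funext i
      apply tnd i
      intro y
      have h := ha (e.symm (Pi.single i y))
      simp only [map_mul, AlgEquiv.apply_symm_apply, Pi.mul_apply] at h
      rw [Finset.sum_eq_single i] at h
      · simpa using h
      · intro j _ hj
        rw [Pi.single_eq_of_ne hj, zero_mul, t0]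
      · intro h; exact absurd (Finset.mem_univ _) h
    exact (map_eq_zero_iff e e.injective).mp this
  · simp only [map_mul, Pi.mul_apply, tsq]

end H26GN
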