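import Mathlib

/-!
ROW Wb (MP_78d38b_GN, about 100 lines): the trace form is invariant under every involution.
Paper: /team-store/H26_78d38b_GN.md, 5.1.

PROOF. `exists c, tau (s x) = tau (c * x)` for all `x`: the map `B → (B →+ ZMod 2)`, `c ↦ (x ↦ tau (c * x))` is injective (nd, tau_comm) and hence onto (finite `ZMod 2`-vector spaces of equal dimension, `Subspace.dual_finrank_eq`).
`c` is central: `tau (c * (x * y)) = tau (s (x * y)) = tau (s y * s x) = tau (s x * s y) = tau (s (y * x)) = tau (c * (y * x)) = tau (x * c * y)`, so `tau ((c * x - x * c) * y) = 0` for all `y`.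
`tau (c * (x * x)) = tau (s (x * x)) = tau (s x * s x) = tau (s x) = tau (c * x) = tau ((c * x) * (c * x)) = tau (c * c * (x * x))`. So with `a := c + c * c` (central): `tau (a * (x * x)) = 0` for all `x`.
The center `Z` of `B` is finite and has no `z ≠ 0` with `z * z = 0` (`hred`), so `z ↦ z * z` is injective on `Z` (`(z + w)^2 = z^2 + w^2` in characteristic two) and onto: `a = d * d` with `d` central. `tau (d * x) = tau ((d * x) * (d * x)) = tau (a * (x * x)) = 0` for all `x`: `d = 0`, `a = 0`, `c * c = c`.
`c` is injective by multiplication: if `c * x = 0` then `tau (s (x * y)) = tau (c * x * y) = 0` for all `y`, `tau (s y * s x) = 0`, so `s x = 0` (nd, `s` onto), `x = s (s x) = 0` (`s 0 = 0`). `c * (c - 1) = 0` gives `c = 1`.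
-/

set_option autoImplicit false
open scoped Classical

namespace H26GN

theorem tau_st_of {B : Type} [Ring B] [Finite B] (h2 : ∀ a : B, a + a = 0)
    (hred : ∀ c : B, (∀ a, c * a = a * c) → c * c = 0 → c = 0) {tau : B → ZMod 2}
    (hadd : ∀ a b, tau (a + b) = tau a + tau b) (hcomm : ∀ a b, tau (a * b) = tau (b * a))
    (hnd : ∀ a, (∀ x, tau (x * a) = 0) → a = 0) (hsq : ∀ x, tau (x * x) = tau x) {s : B → B}
    (sadd : ∀ a b, s (a + b) = s a + s b) (smul : ∀ a b, s (a * b) = s b * s a)
    (ss : ∀ a, s (s a) = a) (a : B) : tau (s a) = tau a := by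
  let _ : Module (ZMod 2) B := AddCommGroup.zmodModule (n := 2) (fun x => by
    rw [two_nsmul]
    exact h2 x)
  let T : B →+ ZMod 2 := AddMonoidHom.mk' tau hadd
  let S : B →+ B := AddMonoidHom.mk' s sadd
  have hT : ∀ x, T x = tau x := fun _ => rfl
  have hS : ∀ x, S x = s x := fun _ => rfl
  let F : B →+ Module.Dual (ZMod 2) B := AddMonoidHom.mk'
    (fun c => (T.comp (AddMonoidHom.mulLeft c)).toZModLinearMap 2) (by
      intro x y
      refine LinearMap.ext fun z => ?_
      change T ((x + y) * z) = T (x * z) + T (y * z)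
      rw [add_mul, map_add])
  let FL : B →ₗ[ZMod 2] Module.Dual (ZMod 2) B := F.toZModLinearMap 2
  have hFL : ∀ c x, FL c x = tau (c * x) := fun _ _ => rfl
  have inj : Function.Injective FL := by
    rw [injective_iff_map_eq_zero]
    intro c hc
    refine hnd c fun x => ?_
    rw [hcomm, ← hFL, hc]
    rfl
  have surj : Function.Surjective FL :=
    (LinearMap.injective_iff_surjective_of_finrank_eq_finrank
      (Subspace.dual_finrank_eq (K := ZMod 2) (V := B)).symm).1 inj
  obtain ⟨c, hc⟩ := surj ((T.comp S).toZModLinearMap 2)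
  have hcx : ∀ x, tau (s x) = tau (c * x) := fun x => (LinearMap.congr_fun hc x).symm
  have hE : ∀ u v : B, (∀ y, tau (u * y) = tau (v * y)) → u = v := by
    intro u v h
    refine sub_eq_zero.1 (hnd (u - v) fun x => ?_)
    rw [hcomm, sub_mul, ← hT, map_sub, hT, hT, h, sub_self]
  have hcen : ∀ x, c * x = x * c := by
    intro x
    refine hE _ _ fun y => ?_
    rw [mul_assoc, ← hcx, smul, hcomm, ← smul, hcx, ← mul_assoc, hcomm, ← mul_assoc]
  have hz : tau 0 = 0 := by rw [← hT, map_zero]
  have hcc : c + c * c = 0 := by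
    have ha : ∀ x, tau ((c + c * c) * (x * x)) = 0 := by
      intro x
      have h3 : tau (c * (x * x)) = tau (c * c * (x * x)) := by
        have e : (c * x) * (c * x) = c * c * (x * x) := by
          rw [mul_assoc, ← mul_assoc x, ← hcen x]
          simp only [mul_assoc]
        rw [← e, hsq, ← hcx, ← hcx, smul, hsq]
      rw [add_mul, hadd, h3]
      exact CharTwo.add_self_eq_zero _
    let f : Subring.center B → Subring.center B := fun z => z * z
    have hf : Function.Injective f := by
      intro z w h
      have h4 : (z : B) * z = w * w := congrArg Subtype.val h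
      have hzc := fun a : B => ((Subring.mem_center_iff.1 z.2) a)
      have hwc := fun a : B => ((Subring.mem_center_iff.1 w.2) a)
      have h5 : (z : B) - w = 0 := by
        apply hred
        · intro y
          rw [sub_mul, mul_sub, hzc, hwc]
        · have e : ((z : B) - w) * (z - w) = (z * z - w * w) - ((z * w - w * w) + (z * w - w * w)) := by
            rw [sub_mul, mul_sub, mul_sub, hwc (z : B)]
            abel
          rw [e, h2, h4, sub_self, sub_zero]
      exact Subtype.ext (sub_eq_zero.1 h5)
    have hs : Function.Surjective f := Finite.injective_iff_surjective.1 hf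
    obtain ⟨d, hd⟩ := hs ⟨c + c * c, Subring.mem_center_iff.2 fun g => by
      rw [mul_add, add_mul, ← mul_assoc, ← hcen g, mul_assoc c g c, ← hcen g, mul_assoc]⟩
    have hd' : (d : B) * d = c + c * c := congrArg Subtype.val hd
    have hdc := fun a : B => ((Subring.mem_center_iff.1 d.2) a)
    have hd0 : (d : B) = 0 := by
      refine hE _ _ fun y => ?_
      rw [zero_mul, hz, ← hsq]
      have e : (d : B) * y * (d * y) = (c + c * c) * (y * y) := by
        rw [← hd', mul_assoc, ← mul_assoc y, hdc y]
        simp only [mul_assoc]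
      rw [e, ha]
    rw [← hd', hd0, mul_zero]
  have hc2 : c * c - c = 0 := by
    have e : c * c - c = (c + c * c) - (c + c) := by abel
    rw [e, hcc, h2, sub_zero]
  have s0 : s 0 = 0 := by rw [← hS, map_zero]
  have hinj : ∀ x, c * x = 0 → x = 0 := by
    intro x hx
    have h6 : s x = 0 := by
      refine hnd _ fun y => ?_
      have h7 : tau (s (x * s y)) = 0 := by
        rw [hcx, ← mul_assoc, hx, zero_mul, hz]
      rwa [smul, ss] at h7
    rw [← ss x, h6, s0]
  have hc1 : c - 1 = 0 := by
    apply hinj
    rw [mul_sub, mul_one, hc2]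
  rw [hcx, sub_eq_zero.1 hc1, one_mul]

end H26GN
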