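import Pool.Agent.H26.GN.B0

/-!
ROW Wc (MP_78d38b_GN, about 120 lines): the idempotent of the trivial module and `z + z* = 1 + e`.
Paper: /team-store/H26_78d38b_GN.md, 5.2, 5.3.

PROOF. exists_e. `exists_rep` (B0.lean) for `ε` gives `e` with `ε c = tau (c * e)` for all `c`. `tau (x * (a * e)) = tau ((x * a) * e) = ε (x * a) = ε x * ε a`; so if `ε a = 1` then `a * e = e`, if `ε a = 0` then `a * e = 0` (`eq_of_tau`).
`a * e = e * a`: `tau (x * (e * a)) = tau ((a * x) * e) = ε (a * x) = ε (x * a) = tau (x * (a * e))` (use tau_mul_comm). `st e = e`: `tau (x * st e) = tau (st (x * st e)) = tau (e * st x) = tau (st x * e) = ε (st x) = ε x`.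
`e * e = e` or `e * e = 0` by the first point; `e * e = 0` is impossible by `hred` as `e ≠ 0` (`ε 1 = 1 = tau (1 * e)`). So `ε e = 1`.
exists_z. Enough (duality of finite `ZMod 2`-vector spaces: the range of the additive map `w ↦ w + st w`; if `1 + e` is not in this subgroup there is an additive functional `l` vanishing on it with `l (1 + e) ≠ 0`, e.g. `Submodule.exists_dual_map_eq_bot...` / `Submodule.exists_le_ker_of_notMem`; `l c = tau (c * x)` by exists_rep):
for `x` with `tau ((w + st w) * x) = 0` for all `w` we have `tau ((1 + e) * x) = 0`. `tau (st w * x) = tau (st (st w * x)) = tau (st x * w) = tau (w * st x)`, so `tau (w * (x + st x)) = 0` for all `w`: `x = st x`.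
`Q y := tau (y * st y)` is additive: `Q (y + y') = Q y + Q y' + tau (y * st y') + tau (y' * st y)` and `tau (y' * st y) = tau (st (y' * st y)) = tau (y * st y')`, characteristic two. `Q (g * y) = Q y` for `g ∈ G`: `tau (g * y * st y * st g) = tau (st g * g * y * st y)`.
So `Q y = tau (y * c)` (exists_rep), `tau (g * y * c) = tau (y * c)` so `c * g = c` for `g ∈ G` (`eq_of_tau` after tau_mul_comm); `{a | c * a = 0 or c * a = c}`: by additive generation (`AddSubgroup.closure_induction`): for every `a`: `c * a = if ε a = 1 then c else 0` (`ε g = 1` for `g ∈ G`: `ε (st g) * ε g = 1`).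
Hence `c * (1 + e) = 0` (`ε (1 + e) = 0` as `ε e = 1`: `he`), `c = c * e`. For `y` with `y * (1 + e) = y`... : `y * e = 0` gives `Q y = tau (y * c) = tau (y * c * e) = tau (y * e * c) = 0` (`e` central).
Now `x = st x`, `x' := x * (1 + e)`: `st x' = x'` (`st e = e`, central), `x' * e = 0`, `tau ((1 + e) * x) = tau x' = tau (x' * x') = Q x' = 0` (hsq).
-/

set_option autoImplicit false
open scoped Classical

namespace H26GN

variable {B : Type} [Ring B] [TR B] [Finite B]

theorem exists_e (hred : ∀ c : B, (∀ a, c * a = a * c) → c * c = 0 → c = 0) (ε : B →+* ZMod 2)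
    (hε : ∀ a, ε (st a) = ε a) :
    ∃ e : B, e * e = e ∧ st e = e ∧ e ≠ 0 ∧ (∀ a, a * e = e * a) ∧ ε e = 1 ∧
      ∀ a, (ε a = 1 → a * e = e) ∧ (ε a = 0 → a * e = 0) := by
  obtain ⟨e, he⟩ := exists_rep (ε : B →+* ZMod 2).toAddMonoidHom
  have he' : ∀ c, ε c = tau (c * e) := he
  have h01 : ∀ x : ZMod 2, x = 0 ∨ x = 1 := by decide
  have ht : ∀ a, (ε a = 1 → a * e = e) ∧ (ε a = 0 → a * e = 0) := by
    intro a
    constructor
    · intro h
      apply eq_of_tau
      intro x
      rw [← mul_assoc, ← he', map_mul, h, mul_one, he']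
    · intro h
      apply eq_zero_of_tau
      intro x
      rw [← mul_assoc, ← he', map_mul, h, mul_zero]
  have hc : ∀ a, a * e = e * a := by
    intro a
    apply eq_of_tau
    intro x
    have h1 : tau (x * (e * a)) = tau ((a * x) * e) := by
      rw [← mul_assoc, tau_mul_comm (x * e) a, ← mul_assoc]
    rw [h1, ← he', ← mul_assoc, ← he', map_mul, map_mul, mul_comm]
  have hs : st e = e := by
    apply eq_of_tau
    intro x
    have h1 : tau (x * st e) = tau (e * st x) := by
      rw [← tau_st (x * st e), st_mul, st_st]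
    rw [h1, tau_mul_comm, ← he', hε, he']
  have hne : e ≠ 0 := by
    intro h
    have h1 := he' 1
    rw [h, mul_zero, tau_zero, map_one] at h1
    exact one_ne_zero h1
  have hee : ε e = 1 := by
    rcases h01 (ε e) with h | h
    · exfalso
      exact hne (hred e (fun a => (hc a).symm) ((ht e).2 h))
    · exact h
  exact ⟨e, (ht e).1 hee, hs, hne, hc, hee, ht⟩

theorem exists_z (hsq : ∀ x : B, tau (x * x) = tau x) (ε : B →+* ZMod 2) {e : B}
    (hee : e * e = e) (hste : st e = e) (hcen : ∀ a, a * e = e * a) (he : ε e = 1)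
    (htr : ∀ a, (ε a = 1 → a * e = e) ∧ (ε a = 0 → a * e = 0)) (hεs : ∀ a, ε (st a) = ε a)
    (G : Set B) (hG : ∀ g ∈ G, st g * g = 1) (hspan : AddSubgroup.closure G = ⊤) :
    ∃ z : B, z + st z = 1 + e := by
  let _ : Module (ZMod 2) B := zB B
  have h01 : ∀ x : ZMod 2, x = 0 ∨ x = 1 := by decide
  by_contra hcon
  let L : B →ₗ[ZMod 2] B := AddMonoidHom.toZModLinearMap 2
    (AddMonoidHom.mk' (fun w : B => w + st w) (fun a b => by rw [st_add]; abel))
  have hx : (1 + e) ∉ LinearMap.range L := by
    rintro ⟨z, hz⟩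
    exact hcon ⟨z, hz⟩
  obtain ⟨f, hf1, hf2⟩ := Submodule.exists_dual_map_eq_bot_of_notMem hx inferInstance
  obtain ⟨x, hfx⟩ := exists_rep f.toAddMonoidHom
  have hfx' : ∀ c, f c = tau (c * x) := hfx
  have h0 : ∀ w : B, tau ((w + st w) * x) = 0 := by
    intro w
    rw [← hfx']
    have h1 : f (w + st w) ∈ (LinearMap.range L).map f := ⟨w + st w, ⟨w, rfl⟩, rfl⟩
    rw [hf2] at h1
    exact (Submodule.mem_bot _).1 h1
  have hxs : st x = x := by
    have h1 : x + st x = 0 := by
      apply eq_zero_of_tau
      intro w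
      have h2 : tau (w * st x) = tau (st w * x) := by
        rw [← tau_st (w * st x), st_mul, st_st, tau_mul_comm]
      rw [mul_add, tau_add, h2, ← tau_add, ← add_mul]
      exact h0 w
    have h2 : st x + x = x + x := by rw [add_comm, h1, add_self]
    exact add_right_cancel h2
  let Q : B →+ ZMod 2 := AddMonoidHom.mk' (fun y : B => tau (y * st y)) (fun y y' => by
    have h1 : tau (y' * st y) = tau (y * st y') := by
      rw [← tau_st (y' * st y), st_mul, st_st]
    rw [st_add, add_mul, mul_add, mul_add, tau_add, tau_add, tau_add, h1]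
    have h2 : tau (y * st y') + tau (y * st y') = 0 := CharTwo.add_self_eq_zero _
    linear_combination h2)
  have hQ : ∀ y, Q y = tau (y * st y) := fun y => rfl
  obtain ⟨c, hc⟩ := exists_rep Q
  have hcg : ∀ g ∈ G, c * g = c := by
    intro g hg
    apply eq_of_tau
    intro y
    have h1 : tau (y * (c * g)) = tau ((g * y) * c) := by
      rw [← mul_assoc, tau_mul_comm (y * c) g, ← mul_assoc]
    rw [h1, ← hc, ← hc, hQ, hQ, st_mul]
    have h2 : g * y * (st y * st g) = (g * (y * st y)) * st g := by
      rw [mul_assoc, mul_assoc, mul_assoc]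
    rw [h2, tau_mul_comm, ← mul_assoc, hG g hg, one_mul]
  have hεg : ∀ g ∈ G, ε g = 1 := by
    intro g hg
    have h1 : ε (st g * g) = 1 := by rw [hG g hg, map_one]
    rw [map_mul, hεs] at h1
    rcases h01 (ε g) with h | h
    · rw [h, mul_zero] at h1
      exact absurd h1 zero_ne_one
    · exact h
  have hca : ∀ a : B, (ε a = 1 → c * a = c) ∧ (ε a = 0 → c * a = 0) := by
    intro a
    have ha : a ∈ AddSubgroup.closure G := by rw [hspan]; trivial
    induction ha using AddSubgroup.closure_induction with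
    | mem g hg =>
      refine ⟨fun _ => hcg g hg, fun h => ?_⟩
      rw [hεg g hg] at h
      exact absurd h one_ne_zero
    | zero =>
      refine ⟨fun h => ?_, fun _ => mul_zero _⟩
      rw [map_zero] at h
      exact absurd h zero_ne_one
    | add a b _ _ iha ihb =>
      rw [map_add, mul_add]
      rcases h01 (ε a) with h1 | h1 <;> rcases h01 (ε b) with h2 | h2
      · rw [h1, h2, iha.2 h1, ihb.2 h2, add_zero, add_zero]
        exact ⟨fun h => absurd h zero_ne_one, fun _ => rfl⟩
      · rw [h1, h2, iha.2 h1, ihb.1 h2, zero_add, zero_add]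
        exact ⟨fun _ => rfl, fun h => absurd h one_ne_zero⟩
      · rw [h1, h2, iha.1 h1, ihb.2 h2, add_zero, add_zero]
        exact ⟨fun _ => rfl, fun h => absurd h one_ne_zero⟩
      · rw [h1, h2, iha.1 h1, ihb.1 h2, add_self c]
        refine ⟨fun h => ?_, fun _ => rfl⟩
        have h3 : (1 : ZMod 2) + 1 = 0 := by decide
        rw [h3] at h
        exact absurd h zero_ne_one
    | neg a _ iha =>
      have h3 : ∀ b : B, -b = b := fun b => neg_eq_of_add_eq_zero_left (add_self b)
      rw [h3 a]
      exact iha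
  have hε1 : ε (1 + e) = 0 := by
    rw [map_add, map_one, he]
    decide
  have hc0 : c * (1 + e) = 0 := (hca _).2 hε1
  have hcen' : ∀ a : B, a * (1 + e) = (1 + e) * a := by
    intro a
    rw [mul_add, add_mul, mul_one, one_mul, hcen]
  apply hf1
  rw [hfx', ← hcen' x]
  have hs' : st (x * (1 + e)) = x * (1 + e) := by
    rw [st_mul, st_add, st_one, hste, hxs, ← hcen']
  rw [← hsq]
  have h5 : tau (x * (1 + e) * (x * (1 + e))) = Q (x * (1 + e)) := by
    rw [hQ, hs']
  rw [h5, hc, mul_assoc, ← hcen' c, hc0, mul_zero, tau_zero]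

end H26GN
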