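import Pool.Agent.H26.GN.Qa
import Pool.Agent.H26.GN.Wa
import Pool.Agent.H26.GN.Wb
import Pool.Agent.H26.GN.Wc
import Pool.Agent.H26.OD.Df

/-!
ROW Qb (MP_78d38b_GN, about 150 lines): the group algebra modulo its radical. Paper: /team-store/H26_78d38b_GN.md, section 5.

PROOF. Instance `TR (RG G)`: the lemmas of `Pool/Agent/H26/OD/Df.lean` (H26OD.st_add, st_mul, st_st, tau_add, tau_mul_comm, tau_st, eq_zero_of_tau, add_self). (Given below, proved.)
exists_QB. `A := RG G`, `B := A ⧸ Ring.jacobson A` is a finite semisimple ring (instances), `b + b = 0`. `s : B → B`, `s (mk a) = mk (st a)`, well defined by `jac_st` (`Ideal.Quotient.eq`, `st (a - b) = st a - st b`); additive, antimultiplicative, involutive (`Ideal.Quotient.mk_surjective`).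
`exists_tau` (Wa) gives `tau`; `tau_st_of` (Wb; `hred` = `central_sq`). This is `t : TR B`, with `tau (x * x) = tau x`.
`ε_A : A →+* ZMod 2`: the augmentation (`MonoidAlgebra.lift` of the trivial homomorphism, `of g ↦ 1`). It vanishes on `Ring.jacobson A` (its elements are nilpotent, `ZMod 2` is reduced; or `Ring.jacobson_le...`), so `Ideal.Quotient.lift` gives `ε : B →+* ZMod 2`; `ε (st b) = ε b` (check `ε_A (st a) = ε_A a` by `rg_induction`).
`exists_e`, `exists_z` (Wc) with `G := {mk (of g)}`: `st (of g) * of g = of g⁻¹ * of g = 1` (H26OD.st_of); `AddSubgroup.closure = ⊤` by `rg_induction`. `triv`: `ε a` is `0` or `1`. `TE` record: `e, z, ee, ste, ne, triv, cen, zz`.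
-/

set_option autoImplicit false
open scoped Classical

namespace H26GN

open H26OD (RG)

noncomputable instance instTRG (G : Type) [Group G] : TR (RG G) where
  st := H26OD.st
  tau := H26OD.tau
  two' := H26OD.add_self
  st_add' := H26OD.st_add
  st_mul' := H26OD.st_mul
  st_st' := H26OD.st_st
  tau_add' := H26OD.tau_add
  tau_comm' := H26OD.tau_mul_comm
  tau_st' := H26OD.tau_st
  nd' := fun _ h => H26OD.eq_zero_of_tau h

instance finRG (G : Type) [Group G] [Finite G] : Finite (RG G) :=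
  Finite.of_injective (fun a : RG G => (fun g : G => a.coeff g)) (by
    intro a b h
    ext g
    exact congrFun h g)

private noncomputable def Qb_aug (G : Type) [Group G] : RG G →+* ZMod 2 :=
  (MonoidAlgebra.lift (ZMod 2) (ZMod 2) G 1 : MonoidAlgebra (ZMod 2) G →ₐ[ZMod 2] ZMod 2).toRingHom

private theorem Qb_aug_of (G : Type) [Group G] (g : G) :
    Qb_aug G (MonoidAlgebra.of (ZMod 2) G g) = 1 := by
  change (MonoidAlgebra.lift (ZMod 2) (ZMod 2) G 1) (MonoidAlgebra.of (ZMod 2) G g) = 1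
  rw [MonoidAlgebra.lift_of, MonoidHom.one_apply]

private theorem Qb_aug_st (G : Type) [Group G] (a : RG G) :
    Qb_aug G (H26OD.st a) = Qb_aug G a := by
  induction a using H26OD.rg_induction with
  | h0 => rw [H26OD.st_zero]
  | hof g => rw [H26OD.st_of, Qb_aug_of, Qb_aug_of]
  | hadd a b ha hb => rw [H26OD.st_add, map_add, map_add, ha, hb]

private theorem Qb_aug_jac (G : Type) [Group G] [Finite G] (a : RG G)
    (ha : a ∈ Ring.jacobson (RG G)) : Qb_aug G a = 0 := by
  obtain ⟨n, hn⟩ := IsSemiprimaryRing.isNilpotent (R := RG G)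
  have h1 : a ^ n ∈ (Ring.jacobson (RG G)) ^ n := Ideal.pow_mem_pow ha n
  rw [hn] at h1
  have h2 : a ^ n = 0 := h1
  have h3 : IsNilpotent (Qb_aug G a) := ⟨n, by rw [← map_pow, h2, map_zero]⟩
  exact h3.eq_zero

theorem exists_QB (G : Type) [Group G] [Finite G] :
    ∃ (t : TR (RG G ⧸ Ring.jacobson (RG G))) (_ : @TE (RG G ⧸ Ring.jacobson (RG G)) _ t),
      ∀ a : RG G, t.st (Ideal.Quotient.mk (Ring.jacobson (RG G)) a) =
        Ideal.Quotient.mk (Ring.jacobson (RG G)) (st a) := by
  obtain ⟨f, hf⟩ : ∃ f : RG G ⧸ Ring.jacobson (RG G) → RG G,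
      ∀ b, Ideal.Quotient.mk (Ring.jacobson (RG G)) (f b) = b :=
    ⟨fun b => (Ideal.Quotient.mk_surjective b).choose,
      fun b => (Ideal.Quotient.mk_surjective b).choose_spec⟩
  have hst : ∀ a a' : RG G, Ideal.Quotient.mk (Ring.jacobson (RG G)) a =
      Ideal.Quotient.mk (Ring.jacobson (RG G)) a' →
      Ideal.Quotient.mk (Ring.jacobson (RG G)) (st a) =
        Ideal.Quotient.mk (Ring.jacobson (RG G)) (st a') := by
    intro a a' h
    rw [Ideal.Quotient.eq] at h ⊢
    have h1 : st a - st a' = st (a - a') := ((stH (RG G)).map_sub a a').symm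
    rw [h1]
    exact jac_st h
  obtain ⟨s, hs⟩ : ∃ s : RG G ⧸ Ring.jacobson (RG G) → RG G ⧸ Ring.jacobson (RG G),
      ∀ a, s (Ideal.Quotient.mk (Ring.jacobson (RG G)) a) =
        Ideal.Quotient.mk (Ring.jacobson (RG G)) (st a) :=
    ⟨fun b => Ideal.Quotient.mk (Ring.jacobson (RG G)) (st (f b)), fun a => hst _ _ (hf _)⟩
  have h2 : ∀ b : RG G ⧸ Ring.jacobson (RG G), b + b = 0 := by
    intro b
    obtain ⟨a, rfl⟩ := Ideal.Quotient.mk_surjective b
    rw [← map_add, add_self, map_zero]
  have sadd : ∀ b c, s (b + c) = s b + s c := by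
    intro b c
    obtain ⟨a, rfl⟩ := Ideal.Quotient.mk_surjective b
    obtain ⟨a', rfl⟩ := Ideal.Quotient.mk_surjective c
    rw [← map_add, hs, hs, hs, st_add, map_add]
  have smul : ∀ b c, s (b * c) = s c * s b := by
    intro b c
    obtain ⟨a, rfl⟩ := Ideal.Quotient.mk_surjective b
    obtain ⟨a', rfl⟩ := Ideal.Quotient.mk_surjective c
    rw [← map_mul, hs, hs, hs, st_mul, map_mul]
  have ss : ∀ b, s (s b) = b := by
    intro b
    obtain ⟨a, rfl⟩ := Ideal.Quotient.mk_surjective b
    rw [hs, hs, st_st]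
  have hred : ∀ c : RG G ⧸ Ring.jacobson (RG G), (∀ a, c * a = a * c) → c * c = 0 → c = 0 :=
    fun c hc h => central_sq c hc h
  have hfinB : Finite (RG G ⧸ Ring.jacobson (RG G)) :=
    Finite.of_surjective _ (Ideal.Quotient.mk_surjective (I := Ring.jacobson (RG G)))
  obtain ⟨ta, tadd, tcomm, tnd, tsq⟩ := exists_tau h2
  let t : TR (RG G ⧸ Ring.jacobson (RG G)) :=
    { st := s
      tau := ta
      two' := h2
      st_add' := sadd
      st_mul' := smul
      st_st' := ss
      tau_add' := tadd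
      tau_comm' := tcomm
      tau_st' := tau_st_of h2 hred tadd tcomm tnd tsq sadd smul ss
      nd' := tnd }
  let ε : RG G ⧸ Ring.jacobson (RG G) →+* ZMod 2 :=
    Ideal.Quotient.lift (Ring.jacobson (RG G)) (Qb_aug G) (fun a ha => Qb_aug_jac G a ha)
  have hεmk : ∀ a, ε (Ideal.Quotient.mk (Ring.jacobson (RG G)) a) = Qb_aug G a := fun a => rfl
  have hεs : ∀ b, ε (st b) = ε b := by
    intro b
    obtain ⟨a, rfl⟩ := Ideal.Quotient.mk_surjective b
    have h3 : st (Ideal.Quotient.mk (Ring.jacobson (RG G)) a) =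
      Ideal.Quotient.mk (Ring.jacobson (RG G)) (st a) := hs a
    rw [h3, hεmk, hεmk]
    exact Qb_aug_st G a
  obtain ⟨e, hee, hste, hne, hcen, hεe, htr⟩ := exists_e hred ε hεs
  obtain ⟨z, hz⟩ := exists_z tsq ε hee hste hcen hεe htr hεs
    (Set.range fun g : G => Ideal.Quotient.mk (Ring.jacobson (RG G)) (MonoidAlgebra.of (ZMod 2) G g))
    (by
      rintro _ ⟨g, rfl⟩
      have h3 : st (Ideal.Quotient.mk (Ring.jacobson (RG G)) (MonoidAlgebra.of (ZMod 2) G g)) =
        Ideal.Quotient.mk (Ring.jacobson (RG G)) (st (MonoidAlgebra.of (ZMod 2) G g)) := hs _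
      have h4 : st (MonoidAlgebra.of (ZMod 2) G g) = MonoidAlgebra.of (ZMod 2) G g⁻¹ :=
        H26OD.st_of g
      simp only []
      rw [h3, h4, ← map_mul, ← map_mul, inv_mul_cancel, map_one, map_one])
    (by
      rw [eq_top_iff]
      intro b _
      obtain ⟨a, rfl⟩ := Ideal.Quotient.mk_surjective b
      induction a using H26OD.rg_induction with
      | h0 =>
        rw [map_zero]
        exact zero_mem _
      | hof g => exact AddSubgroup.subset_closure ⟨g, rfl⟩
      | hadd a b ha hb =>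
        rw [map_add]
        exact add_mem (ha trivial) (hb trivial))
  have h01 : ∀ x : ZMod 2, x = 0 ∨ x = 1 := by decide
  refine ⟨t, ⟨e, z, hee, hste, hne, fun a => ?_, hcen, hz⟩, hs⟩
  rcases h01 (ε a) with h | h
  · exact Or.inl ((htr a).2 h)
  · exact Or.inr ((htr a).1 h)

end H26GN
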