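import Pool.Agent.H26.GN.Sc
import Pool.Agent.H26.GN.D1
import Pool.Agent.H26.GN.Qb

/-!
ROW F1 (MP_78d38b_GN, about 120 lines): the socle is the part killed by the radical.

`A = RG G`, `X` an `A`-module with `of g • x = g • x` (`hof`), `W` a finite submodule.
PROOF. soc_eq: `x ∈ soc W ↔ x ∈ W ∧ ∀ j ∈ Ring.jacobson A, j • x = 0`.
(→) It is enough for a member `U` of the set in `soc` (`sSup_le`; the right hand side is an additive subgroup). `U` is a submodule (stable under `of g`, hence under `A`: H26OD.rg_induction), a simple `A`-module (a submodule `U' ≤ U` is a stable subgroup). The radical kills simple modules: `J • U ≤ Module.jacobson A U = ⊥`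
(`Ring.jacobson_smul_top_le`, simple modules have zero jacobson: `IsSimpleModule`/`IsSemisimpleModule.jacobson_eq_bot`).
(←) `jk W jmul` (D1.lean) is killed by `J`, so it is a module over the semisimple ring `A ⧸ J` (`Module.IsTorsionBySet.module`), so semisimple: as an `A`-module it is semisimple (`IsSemisimpleModule`; its `A`-submodules are its `A ⧸ J`-submodules), so it is the `sSup` of its simple submodules (`IsSemisimpleModule.sSup_simples_eq_top`), and every simple submodule is
a minimal nonzero stable subgroup of `X` contained in `W`. (Alternative: `W' := jk W`: every submodule of `W'` has a complement.)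
sbal_of: transport of `β` to `jk W jmul`; invariance: `β (g x) (g y) = β x y` gives `β (of g • x) y = β x (of g⁻¹ • y) = β x (st (of g) • y)` (H26OD.st_of), then `rg_induction` for all `a`.
-/

set_option autoImplicit false
open scoped Classical

namespace H26GN

open H26OD (RG)

variable {G X : Type} [Group G] [Finite G] [AddCommGroup X] [DistribMulAction G X]
  [Module (RG G) X]

/-- A stable subgroup as a submodule. -/
private def f1_sub (hof : ∀ (g : G) (x : X), MonoidAlgebra.of (ZMod 2) G g • x = g • x)
    (U : AddSubgroup X) (hU : Stb (fun (g : G) (x : X) => g • x) U) : Submodule (RG G) X where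
  carrier := U
  add_mem' := fun ha hb => U.add_mem ha hb
  zero_mem' := U.zero_mem
  smul_mem' := fun a x hx => by
    induction a using H26OD.rg_induction with
    | h0 => rw [zero_smul]; exact U.zero_mem
    | hof g => rw [hof]; exact hU g x hx
    | hadd a b ha hb => rw [add_smul]; exact U.add_mem ha hb

omit [Finite G] in
private theorem f1_stb (hof : ∀ (g : G) (x : X), MonoidAlgebra.of (ZMod 2) G g • x = g • x)
    (W : Submodule (RG G) X) : Stb (fun (g : G) (x : X) => g • x) W.toAddSubgroup := by
  intro g u hu
  change g • u ∈ W
  rw [← hof]
  exact W.smul_mem _ hu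

theorem soc_eq (hof : ∀ (g : G) (x : X), MonoidAlgebra.of (ZMod 2) G g • x = g • x)
    (W : Submodule (RG G) X) (x : X) :
    x ∈ soc (fun (g : G) (x : X) => g • x) W.toAddSubgroup ↔
      x ∈ W ∧ ∀ j ∈ Ring.jacobson (RG G), j • x = 0 := by
  constructor
  · intro hx
    have hle : soc (fun (g : G) (x : X) => g • x) W.toAddSubgroup ≤ (jk W jmul).toAddSubgroup := by
      refine sSup_le ?_
      rintro U ⟨hUW, hU0, hUs, hmin⟩
      have hat : IsAtom (f1_sub hof U hUs) := by
        refine ⟨?_, ?_⟩
        · intro h
          apply hU0
          rw [eq_bot_iff]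
          intro y hy
          have hy' : y ∈ f1_sub hof U hUs := hy
          rw [h] at hy'
          exact (Submodule.mem_bot _).1 hy'
        · intro b hb
          rcases hmin b.toAddSubgroup (fun y hy => hb.le hy) (f1_stb hof b) with h | h
          · rw [eq_bot_iff]
            intro y hy
            have hy' : y ∈ b.toAddSubgroup := hy
            rw [h] at hy'
            exact hy'
          · exfalso
            apply hb.ne
            apply le_antisymm hb.le
            intro y hy
            have hy' : y ∈ U := hy
            rw [← h] at hy'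
            exact hy'
      have : IsSimpleModule (RG G) (f1_sub hof U hUs) := isSimpleModule_iff_isAtom.2 hat
      have hann := IsSemisimpleModule.jacobson_le_annihilator (RG G) (f1_sub hof U hUs)
      intro y hy
      refine ⟨hUW hy, fun j hj => ?_⟩
      have h1 := Module.mem_annihilator.1 (hann hj) ⟨y, hy⟩
      exact congrArg Subtype.val h1
    exact hle hx
  · intro hx
    have hxM : x ∈ jk W jmul := hx
    have : IsSemisimpleModule (RG G) (jk W jmul : Submodule (RG G) X) := by
      have h : Module.IsTorsionBySet (RG G) (jk W jmul : Submodule (RG G) X)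
          (Ring.jacobson (RG G) : Set (RG G)) := by
        rintro ⟨y, hy⟩ ⟨j, hj⟩
        exact Subtype.ext (hy.2 j hj)
      let _ := h.module
      exact (h.semilinearMap.isSemisimpleModule_iff_of_bijective Function.bijective_id).2
        inferInstance
    have htop : (⟨x, hxM⟩ : (jk W jmul : Submodule (RG G) X)) ∈
        sSup {m : Submodule (RG G) (jk W jmul : Submodule (RG G) X) | IsSimpleModule (RG G) m} := by
      rw [IsSemisimpleModule.sSup_simples_eq_top]
      exact Submodule.mem_top
    rw [sSup_eq_iSup'] at htop
    refine Submodule.iSup_induction _ (motive := fun y : (jk W jmul : Submodule (RG G) X) =>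
      (y : X) ∈ soc (fun (g : G) (x : X) => g • x) W.toAddSubgroup) htop ?_ ?_ ?_
    · rintro ⟨m, hm⟩ y hy
      have : IsSimpleModule (RG G) m := hm
      have hinj : Function.Injective (jk W jmul : Submodule (RG G) X).subtype :=
        Subtype.val_injective
      have : IsSimpleModule (RG G) (m.map (jk W jmul : Submodule (RG G) X).subtype) :=
        IsSimpleModule.congr (N := ↥m) (Submodule.equivMapOfInjective _ hinj m).symm
      have hat : IsAtom (m.map (jk W jmul : Submodule (RG G) X).subtype) :=
        isSimpleModule_iff_isAtom.1 this
      have hsub : (m.map (jk W jmul : Submodule (RG G) X).subtype).toAddSubgroup ≤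
          soc (fun (g : G) (x : X) => g • x) W.toAddSubgroup := by
        refine le_sSup ?_
        refine ⟨?_, ?_, f1_stb hof _, ?_⟩
        · rintro _ ⟨z, _, rfl⟩
          exact z.2.1
        · intro h
          apply hat.1
          rw [eq_bot_iff]
          intro z hz
          have hz' : z ∈ (m.map (jk W jmul : Submodule (RG G) X).subtype).toAddSubgroup := hz
          rw [h] at hz'
          exact hz'
        · intro U' hU' hs
          have hle : f1_sub hof U' hs ≤ m.map (jk W jmul : Submodule (RG G) X).subtype :=
            fun z hz => hU' hz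
          rcases hat.le_iff.1 hle with h | h
          · left
            rw [eq_bot_iff]
            intro z hz
            have hz' : z ∈ f1_sub hof U' hs := hz
            rw [h] at hz'
            exact (Submodule.mem_bot _).1 hz'
          · right
            apply le_antisymm hU'
            intro z hz
            have hz' : z ∈ m.map (jk W jmul : Submodule (RG G) X).subtype := hz
            rw [← h] at hz'
            exact hz'
      exact hsub (Submodule.mem_map_of_mem hy)
    · exact AddSubgroup.zero_mem _
    · intro y z hy hz
      exact AddSubgroup.add_mem _ hy hz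

theorem sbal_of (hof : ∀ (g : G) (x : X), MonoidAlgebra.of (ZMod 2) G g • x = g • x)
    (W : Submodule (RG G) X)
    (h : GBal (fun (g : G) (x : X) => g • x) W.toAddSubgroup) : SBal W := by
  obtain ⟨β, h1, h2, h3, h4⟩ := h
  have hm : ∀ x : (jk W jmul : Submodule (RG G) X),
      (x : X) ∈ soc (fun (g : G) (x : X) => g • x) W.toAddSubgroup :=
    fun x => (soc_eq hof W x).2 x.2
  have z1 : ∀ y : (jk W jmul : Submodule (RG G) X), β ((0 : (jk W jmul : Submodule (RG G) X)) : X) y = 0 := by
    intro y
    have h := h1 _ (hm 0) _ (hm 0) _ (hm y)
    rw [← Submodule.coe_add, add_zero] at h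
    exact left_eq_add.1 h
  have z2 : ∀ y : (jk W jmul : Submodule (RG G) X), β y ((0 : (jk W jmul : Submodule (RG G) X)) : X) = 0 := by
    intro y
    have h := h2 _ (hm y) _ (hm 0) _ (hm 0)
    rw [← Submodule.coe_add, add_zero] at h
    exact left_eq_add.1 h
  refine ⟨fun x y => β x y, ?_, ?_⟩
  · refine ⟨?_, ?_, ?_⟩
    · intro x x' y
      exact h1 _ (hm x) _ (hm x') _ (hm y)
    · intro x y y'
      exact h2 _ (hm x) _ (hm y) _ (hm y')
    · intro a x y
      induction a using H26OD.rg_induction with
      | h0 =>
        change β ((0 : RG G) • x : (jk W jmul : Submodule (RG G) X)) y =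
          β x (H26OD.st (0 : RG G) • y : (jk W jmul : Submodule (RG G) X))
        rw [H26OD.st_zero, zero_smul, zero_smul, z1, z2]
      | hof g =>
        change β (MonoidAlgebra.of (ZMod 2) G g • x : (jk W jmul : Submodule (RG G) X)) y =
          β x (H26OD.st (MonoidAlgebra.of (ZMod 2) G g) • y : (jk W jmul : Submodule (RG G) X))
        rw [H26OD.st_of]
        have e := h3 g _ (hm x) _ (hm (MonoidAlgebra.of (ZMod 2) G g⁻¹ • y))
        have e1 : g • ((MonoidAlgebra.of (ZMod 2) G g⁻¹ • y : (jk W jmul : Submodule (RG G) X)) : X) =
            (y : X) := by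
          rw [Submodule.coe_smul, hof, smul_inv_smul]
        have e2 : ((MonoidAlgebra.of (ZMod 2) G g • x : (jk W jmul : Submodule (RG G) X)) : X) =
            g • (x : X) := by
          rw [Submodule.coe_smul, hof]
        rw [e2, ← e]
        change β (g • (x : X)) y = β (g • (x : X)) (g • _)
        rw [e1]
      | hadd a b ha hb =>
        change β ((a + b) • x : (jk W jmul : Submodule (RG G) X)) y =
          β x (H26OD.st (a + b) • y : (jk W jmul : Submodule (RG G) X))
        change β (a • x : (jk W jmul : Submodule (RG G) X)) y =
          β x (H26OD.st a • y : (jk W jmul : Submodule (RG G) X)) at ha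
        change β (b • x : (jk W jmul : Submodule (RG G) X)) y =
          β x (H26OD.st b • y : (jk W jmul : Submodule (RG G) X)) at hb
        rw [H26OD.st_add, add_smul, add_smul, Submodule.coe_add, Submodule.coe_add,
          h1 _ (hm _) _ (hm _) _ (hm _), h2 _ (hm _) _ (hm _) _ (hm _), ha, hb]
  · intro x hx
    apply Subtype.ext
    refine h4 _ (hm x) ?_
    intro y hy
    exact hx ⟨y, (soc_eq hof W y).1 hy⟩

end H26GN
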