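import Pool.Agent.H26.GN.C8
import Pool.Agent.H26.GN.D4
import Pool.Agent.H26.GN.D5
import Pool.Agent.H26.GN.E1
import Pool.Agent.H26.GN.F1
import Pool.Agent.H26.OD.A11

/-!
MP_78d38b_GN (helper26): the linear algebra for a finite group `G`.
-/

set_option autoImplicit false
open scoped Classical

namespace H26GN

open H26OD (RG Sys A11_lR A11_SR A11_mem_Y A11_card_RG A11_lR_eq_zero A11_tl)

/-- The properties of the system (no condition on the group). -/
structure OkN {G X Q : Type} [Group G] [Finite G] [AddCommGroup X] [DistribMulAction G X]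
    (S : Sys G X Q) : Prop where
  two : ∀ x : X, x + x = 0
  finY : ∀ T : Finset Q, Finite (S.Y T)
  card : ∀ T : Finset Q, 2 ^ (Nat.card G * T.card) ≤ Nat.card (S.Y T)
  cheb : ∀ (T A : Finset Q) (φ : X →+ ZMod 2), ∃ q, q ∉ T ∧ q ∉ A ∧ ∀ y ∈ S.Y T, S.r q y = φ y
  fr : ∃ P : Subgroup G, IsPGroup 2 P ∧ Odd P.index ∧ ∀ T : Finset Q,
    (∀ x ∈ S.Y T, (∀ q ∈ T, ∀ g : G, S.u q (g • x) = 0 ∧ S.r q (g • x) = 0) → x = 0) →
    Nat.card {y : X // y ∈ S.Y T ∧ ∀ p ∈ P, p • y = y} ≤ 2 ^ (P.index * T.card)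

/-- The system over the group algebra. -/
noncomputable def toR {G X Q : Type} [Group G] [Finite G] [AddCommGroup X] [DistribMulAction G X]
    [Module (RG G) X] (hof : ∀ (g : G) (x : X), MonoidAlgebra.of (ZMod 2) G g • x = g • x)
    (S : Sys G X Q) : SysR (RG G) X Q :=
  ⟨(A11_SR hof S).u, (A11_SR hof S).r, (A11_SR hof S).fin, (A11_SR hof S).recip⟩

section

variable {G X Q : Type} [Group G] [Finite G] [AddCommGroup X] [DistribMulAction G X]
  [Module (RG G) X] (hof : ∀ (g : G) (x : X), MonoidAlgebra.of (ZMod 2) G g • x = g • x)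

theorem toR_mem_Y (S : Sys G X Q) (T : Finset Q) (x : X) : x ∈ (toR hof S).Y T ↔ x ∈ S.Y T :=
  A11_mem_Y hof S T x

theorem toR_card (S : Sys G X Q) (T : Finset Q) :
    Nat.card ((toR hof S).Y T) = Nat.card (S.Y T) :=
  Nat.card_congr (Equiv.subtypeEquivRight fun x => toR_mem_Y hof S T x)

theorem toR_ok {S : Sys G X Q} (hS : OkN S) : (toR hof S).Ok where
  finY T := by
    have h1 := hS.finY T
    exact Finite.of_equiv _ (Equiv.subtypeEquivRight fun x => (toR_mem_Y hof S T x).symm)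
  card T := by
    rw [toR_card, A11_card_RG, ← pow_mul]
    exact hS.card T
  cheb T A φ := by
    obtain ⟨q, hqT, hqA, hq⟩ := hS.cheb T A ((A11_tl (1 : RG G)).comp φ.toAddMonoidHom)
    refine ⟨q, hqT, hqA, fun y hy => ?_⟩
    ext g
    change S.r q (g⁻¹ • y) = _
    have hy2 : g⁻¹ • y ∈ S.Y T := by
      rw [← toR_mem_Y hof, ← hof]
      exact Submodule.smul_mem _ _ hy
    rw [hq _ hy2, H26OD.coeff_eq_tau, ← smul_eq_mul, ← map_smul, hof]
    change H26OD.tau (1 * φ (g⁻¹ • y)) = _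
    rw [one_mul]

theorem toR_ret {S : Sys G X Q} (hS : OkN S) {T : Finset Q} (hT : (toR hof S).Good T) :
    Ret (toR hof S) T := by
  have hok := toR_ok hof hS
  obtain ⟨P, hP, hodd, hfr⟩ := hS.fr
  have hfr' := hfr T (by
    intro x hx h0
    refine hT x ((toR_mem_Y hof S T x).2 hx) fun q hq => ?_
    exact ⟨(A11_lR_eq_zero hof _ x).2 fun g => (h0 q hq g).1,
      (A11_lR_eq_zero hof _ x).2 fun g => (h0 q hq g).2⟩)
  have hinj : ∀ x ∈ (toR hof S).Y T, ∀ y ∈ (toR hof S).Y T,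
      loc (toR hof S) T x = loc (toR hof S) T y → x = y := by
    intro x hx y hy h
    have h1 : x - y = 0 := by
      refine hT _ (Submodule.sub_mem _ hx hy) fun q hq => ?_
      have e1 := congrFun (congrArg Prod.fst h) ⟨q, hq⟩
      have e2 := congrFun (congrArg Prod.snd h) ⟨q, hq⟩
      rw [map_sub, map_sub, sub_eq_zero, sub_eq_zero]
      exact ⟨e1, e2⟩
    exact sub_eq_zero.1 h1
  have hfinY := hS.finY T
  have hfinY' := hok.finY T
  obtain ⟨ρ, hρ1, hρ2⟩ := exists_retract (G := G) (((toR hof S).Y T).map (loc (toR hof S) T)) P hP hodd (by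
    have e1 : Nat.card (((toR hof S).Y T).map (loc (toR hof S) T) : Submodule (RG G) _) =
        2 ^ (Nat.card G * T.card) := by
      have e2 : Nat.card ((toR hof S).Y T) =
          Nat.card (((toR hof S).Y T).map (loc (toR hof S) T) : Submodule (RG G) _) := by
        refine Nat.card_congr (Equiv.ofBijective (fun y => (⟨loc (toR hof S) T y.1, y.1, y.2, rfl⟩ :
          (((toR hof S).Y T).map (loc (toR hof S) T) : Submodule (RG G) _))) ⟨?_, ?_⟩)
        · intro x y h
          exact Subtype.ext (hinj x.1 x.2 y.1 y.2 (congrArg Subtype.val h))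
        · rintro ⟨_, y, hy, rfl⟩
          exact ⟨⟨y, hy⟩, rfl⟩
      rw [← e2, card_eq hok hT, A11_card_RG, ← pow_mul]
    have e3 : Nat.card {y : (T → RG G) × (T → RG G) //
        y ∈ (((toR hof S).Y T).map (loc (toR hof S) T) : Submodule (RG G) _) ∧
        ∀ p ∈ P, MonoidAlgebra.of (ZMod 2) G p • y = y} ≤ 2 ^ (P.index * T.card) := by
      refine le_trans ?_ hfr'
      have hf : Finite {y : X // y ∈ S.Y T ∧ ∀ p ∈ P, p • y = y} :=
        Finite.of_injective (fun y : {y : X // y ∈ S.Y T ∧ ∀ p ∈ P, p • y = y} =>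
          (⟨y.1, y.2.1⟩ : S.Y T)) (fun a b h => Subtype.ext (congrArg (fun z : S.Y T => (z : X)) h))
      refine Nat.card_le_card_of_surjective
        (fun y : {y : X // y ∈ S.Y T ∧ ∀ p ∈ P, p • y = y} =>
          (⟨loc (toR hof S) T y.1, ⟨y.1, (toR_mem_Y hof S T _).2 y.2.1, rfl⟩, fun p hp => by
            rw [← map_smul, hof, y.2.2 p hp]⟩ : {y : (T → RG G) × (T → RG G) //
              y ∈ (((toR hof S).Y T).map (loc (toR hof S) T) : Submodule (RG G) _) ∧
              ∀ p ∈ P, MonoidAlgebra.of (ZMod 2) G p • y = y})) ?_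
      rintro ⟨_, ⟨y, hy, rfl⟩, hp⟩
      refine ⟨⟨y, (toR_mem_Y hof S T _).1 hy, fun p hpP => ?_⟩, rfl⟩
      have h1 := hp p hpP
      rw [← map_smul, hof] at h1
      refine hinj _ ?_ y hy h1
      rw [← hof]
      exact Submodule.smul_mem _ _ hy
    calc _ ≤ (2 ^ (P.index * T.card)) ^ Nat.card P := Nat.pow_le_pow_left e3 _
      _ = 2 ^ (Nat.card G * T.card) := by
        rw [← pow_mul]
        congr 1
        rw [← P.card_mul_index]
        ring
      _ = _ := e1.symm)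
  choose f hf1 hf2 using fun w : (T → RG G) × (T → RG G) => hρ1 w
  refine ⟨⟨⟨f, fun v w => ?_⟩, fun a w => ?_⟩, fun w => hf1 w, fun y hy => ?_⟩
  · refine hinj _ (hf1 _) _ (Submodule.add_mem _ (hf1 _) (hf1 _)) ?_
    rw [map_add, hf2, hf2, hf2, map_add]
  · refine hinj _ (hf1 _) _ (Submodule.smul_mem _ _ (hf1 _)) ?_
    rw [hf2, RingHom.id_apply, map_smul, map_smul, hf2]
  · refine hinj _ (hf1 _) _ hy ?_
    change loc (toR hof S) T (f (loc (toR hof S) T y)) = _
    rw [hf2]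
    exact hρ2 _ ⟨y, hy, rfl⟩

end

theorem main_G {G X Q : Type} [Group G] [Finite G] [AddCommGroup X] [DistribMulAction G X]
    {S : Sys G X Q} (hS : OkN S) {C : Type} [Finite C] (κ : Q → C)
    (h0 : GBal (fun (g : G) (x : X) => g • x) (S.Y ∅)) (A : Finset Q) :
    ∃ l : List (Q × Q), l ≠ [] ∧ (∀ e ∈ l, κ e.1 = κ e.2) ∧
      (l.map Prod.fst ++ l.map Prod.snd).Nodup ∧ (∀ q ∈ prs l, q ∉ A) ∧
      ∀ x : X, (∀ q, q ∉ prs l → ∀ g : G, S.u q (g • x) = 0) →
        (∀ q ∈ prs l, ∀ g : G, S.r q (g • x) = 0) → x = 0 := by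
  let i2 : Module (ZMod 2) X := AddCommGroup.zmodModule (fun x => by rw [two_nsmul]; exact hS.two x)
  let iX : Module (RG G) X := H24TD.Sim_mod G X
  have hof : ∀ (g : G) (x : X), MonoidAlgebra.of (ZMod 2) G g • x = g • x := by
    intro g x
    change (MonoidAlgebra.lift (ZMod 2) (Module.End (ZMod 2) X) G (H24TD.Sim_rep G X))
      (MonoidAlgebra.of (ZMod 2) G g) x = g • x
    rw [MonoidAlgebra.lift_of]
    rfl
  obtain ⟨t, te, hc⟩ := exists_QB G
  letI := t
  letI := te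
  have hc' : Cpt (RG G) := hc
  have hok := toR_ok hof hS
  have hret : ∀ T, (toR hof S).Good T → Ret (toR hof S) T := fun T hT => toR_ret hof hS hT
  have hbal : SBal ((toR hof S).Sel ∅) := by
    refine sbal_of hof _ ?_
    have e : ((toR hof S).Sel ∅).toAddSubgroup = S.Y ∅ := by
      ext x
      have h1 := toR_mem_Y hof S ∅ x
      rw [← h1]
      exact ⟨fun h q hq => h.1 q hq, fun h => ⟨fun q hq => h q hq, fun q hq => absurd hq (Finset.notMem_empty q)⟩⟩
    rw [e]
    exact h0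
  have hfin : Finite (RG G) := finRG G
  have hfin' : Finite (QJ (RG G)) := Finite.of_surjective (mkA (A := RG G)) mkA_surj
  obtain ⟨l, hl, hκ, hnd, hA, hSel⟩ := main_B (B := QJ (RG G)) (red_ok hc' hok hret) κ
    (bal_red hc' hok hret hbal) A
  have hSel' := sel_bot hc' hok hret hSel
  refine ⟨l, hl, hκ, hnd, hA, fun x hu hr => ?_⟩
  have hx : x ∈ (toR hof S).Sel (prs l) :=
    ⟨fun q hq => (A11_lR_eq_zero hof _ x).2 (hu q hq), fun q hq => (A11_lR_eq_zero hof _ x).2 (hr q hq)⟩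
  rw [hSel'] at hx
  exact hx

end H26GN
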