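import Pool.Agent.H26.GN.Sc

/-!
ROW F2 (MP_78d38b_GN, about 80 lines): the socle and injective equivariant maps.

PROOF. soc_map: `AddSubgroup.map i` commutes with `sSup` (`(AddSubgroup.gc_map_comap i).l_sSup` / `AddSubgroup.map_iSup`); the members `U` of the set for `W'.map i` are the `U'.map i` with `U'` in the set for `W'` (`U ≤ W'.map i` gives `U = (U.comap i).map i`; `Stb` transfers by `he` and injectivity; subgroups `U'' ≤ U` correspond to subgroups of `U.comap i`).
gbal_map: `β' x y := β (i x) (i y)`, `soc_map`, `hi`, `he`.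
-/

set_option autoImplicit false
open scoped Classical

namespace H26GN

variable {G V X : Type} [AddCommGroup V] [AddCommGroup X]

private theorem f2_stb_map {act : G → V → V} {act' : G → X → X} {i : X →+ V}
    (he : ∀ g x, i (act' g x) = act g (i x)) {U : AddSubgroup X} (h : Stb act' U) :
    Stb act (U.map i) := by
  rintro g _ ⟨x, hx, rfl⟩
  exact ⟨act' g x, h g x hx, he g x⟩

private theorem f2_stb_comap {act : G → V → V} {act' : G → X → X} {i : X →+ V}
    (he : ∀ g x, i (act' g x) = act g (i x)) {U : AddSubgroup V} (h : Stb act U) :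
    Stb act' (U.comap i) := by
  intro g x hx
  rw [AddSubgroup.mem_comap] at hx ⊢
  rw [he]
  exact h g _ hx

private theorem f2_map_comap {i : X →+ V} {U : AddSubgroup V} {K : AddSubgroup X}
    (h : U ≤ K.map i) : (U.comap i).map i = U := by
  refine AddSubgroup.map_comap_eq_self (h.trans ?_)
  rintro _ ⟨x, _, rfl⟩
  exact ⟨x, rfl⟩

private theorem f2_map_ne {i : X →+ V} (hi : Function.Injective i) {U : AddSubgroup X}
    (h : U.map i = ⊥) : U = ⊥ := by
  rw [eq_bot_iff]
  intro x hx
  have h1 : i x ∈ U.map i := ⟨x, hx, rfl⟩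
  rw [h, AddSubgroup.mem_bot] at h1
  rw [AddSubgroup.mem_bot]
  exact hi (h1.trans (map_zero i).symm)

theorem soc_map (act : G → V → V) (act' : G → X → X) (i : X →+ V) (hi : Function.Injective i)
    (he : ∀ g x, i (act' g x) = act g (i x)) (W' : AddSubgroup X) :
    soc act (W'.map i) = (soc act' W').map i := by
  apply le_antisymm
  · refine sSup_le ?_
    rintro U ⟨hUW, hU0, hUs, hmin⟩
    have e := f2_map_comap hUW
    rw [← e]
    refine AddSubgroup.map_mono (le_sSup ⟨?_, ?_, f2_stb_comap he hUs, ?_⟩)
    · intro x hx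
      obtain ⟨w, hw, hwx⟩ := hUW (AddSubgroup.mem_comap.1 hx)
      rw [← hi hwx]
      exact hw
    · intro h
      apply hU0
      rw [← e, h, AddSubgroup.map_bot]
    · intro U' hU' hs
      have h1 : U'.map i ≤ U := by
        rw [← e]
        exact AddSubgroup.map_mono hU'
      rcases hmin _ h1 (f2_stb_map he hs) with h | h
      · left
        exact f2_map_ne hi h
      · right
        rw [← h, AddSubgroup.comap_map_eq_self_of_injective hi]
  · rw [AddSubgroup.map_le_iff_le_comap]
    refine sSup_le ?_
    rintro U ⟨hUW, hU0, hUs, hmin⟩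
    rw [← AddSubgroup.map_le_iff_le_comap]
    refine le_sSup ⟨AddSubgroup.map_mono hUW, fun h => hU0 (f2_map_ne hi h), f2_stb_map he hUs, ?_⟩
    intro U' hU' hs
    have e := f2_map_comap hU'
    have h1 : U'.comap i ≤ U := by
      rw [← AddSubgroup.comap_map_eq_self_of_injective hi U]
      exact AddSubgroup.comap_mono hU'
    rcases hmin _ h1 (f2_stb_comap he hs) with h | h
    · left
      rw [← e, h, AddSubgroup.map_bot]
    · right
      rw [← e, h]

theorem gbal_map (act : G → V → V) (act' : G → X → X) (i : X →+ V) (hi : Function.Injective i)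
    (he : ∀ g x, i (act' g x) = act g (i x)) {W' : AddSubgroup X} (h : GBal act (W'.map i)) :
    GBal act' W' := by
  obtain ⟨β, h1, h2, h3, h4⟩ := h
  rw [soc_map act act' i hi he] at h1 h2 h3 h4
  have hm : ∀ x ∈ soc act' W', i x ∈ (soc act' W').map i := fun x hx => ⟨x, hx, rfl⟩
  refine ⟨fun x y => β (i x) (i y), ?_, ?_, ?_, ?_⟩
  · intro x hx x' hx' y hy
    change β (i (x + x')) (i y) = _
    rw [map_add]
    exact h1 _ (hm x hx) _ (hm x' hx') _ (hm y hy)
  · intro x hx y hy y' hy'
    change β (i x) (i (y + y')) = _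
    rw [map_add]
    exact h2 _ (hm x hx) _ (hm y hy) _ (hm y' hy')
  · intro g x hx y hy
    change β (i (act' g x)) (i (act' g y)) = _
    rw [he, he]
    exact h3 g _ (hm x hx) _ (hm y hy)
  · intro x hx h
    apply hi
    rw [map_zero]
    refine h4 _ (hm x hx) ?_
    rintro _ ⟨y, hy, rfl⟩
    exact h y hy

end H26GN
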