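import Pool.Agent.H26.GN.E2
import Pool.Agent.H26.GN.F2
import Pool.Agent.H26.OD.Rr
import Pool.Agent.H88.OD.Rc
import Pool.Agent.H88.GX.Qb
import Pool.Agent.H88.GX.Z2
import Pool.Agent.H88.GX.Mm
import Pool.Agent.H88.GX.Nb2

/-!
MP_78d38b_GN (helper26): the twists for an arbitrary finite Galois extension `F / K`.
-/

set_option autoImplicit false
set_option linter.unusedSectionVars false
open scoped Classical

open WithZero NumberField IsDedekindDomain H38RT
open H38T1 (SC sc scu rep eo la si OddP)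
open H76PP (Cub LC ev scm dn)
open H88GX

namespace H26GX

open H26OD (Sys exists_prod)
open H26GN (GBal OkN main_G gbal_map prs)

variable {K F L : Type} [Field K] [NumberField K] [Field F] [NumberField F] [Field L]
  [NumberField L] [Algebra K F] [Algebra F L] {a b : K} {θ : L} {S : Ext K F L a b θ} {D : K}
  {Sg : Finset (HeightOneSpectrum (𝓞 K))}

/-- The bound for the elements fixed by a Sylow subgroup. -/
def Free (S : Ext K F L a b θ) (D : K) (Sg : Finset (HeightOneSpectrum (𝓞 K))) : Prop :=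
  ∃ P : Subgroup (F ≃ₐ[K] F), IsPGroup 2 P ∧ Odd P.index ∧ ∀ T : Finset (Sp S Sg),
    (∀ Q ∈ T, ∀ Q' ∈ T, Q.q = Q'.q → Q = Q') →
    (∀ c, S.Y D Sg (T.image Sp.q) c → (∀ Q ∈ T, Q.tr c = 0 ∧ Q.fl c = 0) → c = 0) →
    Nat.card {c : SC L // S.Y D Sg (T.image Sp.q) c ∧ ∀ g ∈ P, S.ρ g • c = c} ≤
      2 ^ (P.index * T.card)

theorem E3_two (x : SC L) : x + x = 0 := by
  have h := H38T1.SC.two_smul x
  rwa [two_nsmul] at h

theorem E3_W (d : Dat S D Sg) (T : Finset d.Q) : ∃ W : AddSubgroup (SC L), Finite W ∧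
    (∀ c, c ∈ W ↔ S.Y D Sg (d.qs T) c) ∧ (d.sys.Y T).map d.X.subtype = W := by
  obtain ⟨W, h1, h2⟩ := exists_YG S d.ok.ne Sg (d.qs T)
  refine ⟨W, h1, h2, ?_⟩
  ext c
  rw [AddSubgroup.mem_map]
  constructor
  · rintro ⟨x, hx, rfl⟩
    exact (h2 _).2 (d.mem_sys.1 hx)
  · intro hc
    have h3 := (h2 c).1 hc
    exact ⟨⟨c, T, h3⟩, d.mem_sys.2 h3, rfl⟩

theorem E3_card (d : Dat S D Sg) {T : Finset d.Q} {W : AddSubgroup (SC L)}
    (h : (d.sys.Y T).map d.X.subtype = W) : Nonempty (d.sys.Y T ≃ W) := by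
  rw [← h]
  exact ⟨(AddSubgroup.equivMapOfInjective _ _ (AddSubgroup.subtype_injective _)).toEquiv⟩

theorem Dat.sys_okN (d : Dat S D Sg)
    (hcard : ∀ T : Finset d.Q,
      2 ^ (Nat.card (F ≃ₐ[K] F) * T.card) ≤ Nat.card {c : SC L // S.Y D Sg (d.qs T) c})
    (hfr : Free S D Sg) : OkN d.sys := by
  refine ⟨?_, ?_, ?_, ?_, ?_⟩
  · intro x
    exact Subtype.ext (E3_two _)
  · intro T
    obtain ⟨W, h1, h2, h3⟩ := E3_W d T
    obtain ⟨e⟩ := E3_card d h3
    exact Finite.of_equiv W e.symm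
  · intro T
    obtain ⟨W, h1, h2, h3⟩ := E3_W d T
    obtain ⟨e⟩ := E3_card d h3
    have h4 := hcard T
    rw [Nat.card_congr e, Nat.card_congr (Equiv.subtypeEquivRight h2)]
    exact h4
  · intro T A φ
    obtain ⟨ψ, hψ⟩ := ext_fun E3_two d.X φ
    obtain ⟨P, hP, h1, h2, h3⟩ := d.ch (T.image Subtype.val) (A.image Subtype.val) (by
      intro P hP
      rw [Finset.mem_image] at hP
      obtain ⟨P', -, rfl⟩ := hP
      exact P'.2) ψ
    have h0 : (⟨P, hP⟩ : d.Q) ∉ T := fun h => h1 (Finset.mem_image.2 ⟨_, h, rfl⟩)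
    refine ⟨⟨P, hP⟩, h0, fun h => h2 (Finset.mem_image.2 ⟨_, h, rfl⟩), fun y hy => ?_⟩
    have h4 : S.Y D Sg (d.qs T) (y : SC L) := d.mem_sys.1 hy
    have e1 : (T.image Subtype.val).image Sp.q = d.qs T := by
      unfold Dat.qs
      rw [Finset.image_image]
      rfl
    have h5 := h3 y (by rw [e1]; exact h4)
    have h6 : P.tr (y : SC L) = 0 := d.tr_eq_zero h4 (P := ⟨P, hP⟩) h0
    have e2 : d.sys.r ⟨P, hP⟩ y = la P.t1 (S.ρ 1⁻¹ • (y : SC L)) +
      P.nu * eo P.t2 (S.ρ 1⁻¹ • (y : SC L)) := rfl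
    have e3 : eo P.t2 (S.ρ 1⁻¹ • (y : SC L)) = 0 := by
      have e4 : eo P.t2 (S.ρ 1⁻¹ • (y : SC L)) = (P.tr (y : SC L)).coeff 1 := rfl
      rw [e4, h6]
      rfl
    rw [e2, e3, mul_zero, add_zero, inv_one, map_one, one_smul, h5, hψ]
  · obtain ⟨P, hP, hodd, hfr⟩ := hfr
    refine ⟨P, hP, hodd, fun T hT => ?_⟩
    have eT : (T.image (Subtype.val : d.Q → Sp S Sg)).image Sp.q = d.qs T := by
      unfold Dat.qs
      rw [Finset.image_image]
      rfl
    have ecard : (T.image (Subtype.val : d.Q → Sp S Sg)).card = T.card :=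
      Finset.card_image_of_injective T Subtype.val_injective
    have h1 := hfr (T.image (Subtype.val : d.Q → Sp S Sg)) (by
      intro Q hQ Q' hQ' h
      rw [Finset.mem_image] at hQ hQ'
      obtain ⟨Q1, -, rfl⟩ := hQ
      obtain ⟨Q2, -, rfl⟩ := hQ'
      exact d.inj _ Q1.2 _ Q2.2 h) (by
      intro c hc h0
      rw [eT] at hc
      have hx := hT ⟨c, T, hc⟩ (d.mem_sys.2 hc) (by
        intro q hq g
        have h2 := h0 q.1 (Finset.mem_image_of_mem _ hq)
        constructor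
        · change d.u q (g • _) = 0
          rw [d.u_smul, h2.1]
          rfl
        · change d.r q (g • _) = 0
          rw [d.r_smul, h2.2]
          rfl)
      exact congrArg (Subtype.val : d.X → SC L) hx)
    rw [ecard] at h1
    refine le_trans ?_ h1
    have hfin : Finite {c : SC L // S.Y D Sg (((T.image (Subtype.val : d.Q → Sp S Sg))).image Sp.q) c ∧
        ∀ g ∈ P, S.ρ g • c = c} := by
      obtain ⟨W, hW1, hW2, -⟩ := E3_W d T
      refine Finite.of_injective (fun c => (⟨c.1, (hW2 _).2 (eT ▸ c.2.1)⟩ : W)) ?_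
      intro c c' h
      exact Subtype.ext (congrArg (Subtype.val : W → SC L) h)
    refine Nat.card_le_card_of_injective (fun y : {y : d.X // y ∈ d.sys.Y T ∧ ∀ p ∈ P, p • y = y} =>
      (⟨(y.1 : SC L), by rw [eT]; exact d.mem_sys.1 y.2.1, fun g hg =>
        congrArg (Subtype.val : d.X → SC L) (y.2.2 g hg)⟩ :
        {c : SC L // S.Y D Sg (((T.image (Subtype.val : d.Q → Sp S Sg))).image Sp.q) c ∧
          ∀ g ∈ P, S.ρ g • c = c})) ?_
    intro y y' h
    have h2 : ((y.1 : d.X) : SC L) = ((y'.1 : d.X) : SC L) := congrArg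
      (fun z : {c : SC L // S.Y D Sg (((T.image (Subtype.val : d.Q → Sp S Sg))).image Sp.q) c ∧
          ∀ g ∈ P, S.ρ g • c = c} => z.1) h
    exact Subtype.ext (Subtype.ext h2)

theorem E3_mem {Q : Type} {l : List (Q × Q)} {q : Q} :
    q ∈ prs l ↔ (∃ e ∈ l, e.1 = q) ∨ ∃ e ∈ l, e.2 = q := by
  unfold prs
  rw [List.mem_toFinset, List.mem_append, List.mem_map, List.mem_map]

theorem exists_twistN (hok : S.Ok D Sg) {Z : Set (HeightOneSpectrum (𝓞 K))} (hZ : Rich S Z)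
    (hfr : Free S D Sg) {W : AddSubgroup (SC L)} (hW : ∀ c, c ∈ W ↔ S.V D c)
    (hb : GBal (fun (g : F ≃ₐ[K] F) (c : SC L) => S.ρ g • c) W)
    (A : Finset (HeightOneSpectrum (𝓞 K))) :
    ∃ δ : K, δ ≠ 0 ∧ (∀ u ∈ Sg, IsSquare (algebraMap K (u.adicCompletion K) δ)) ∧
      (∀ s : K →+* ℝ, 0 < s δ) ∧ (∀ u, u ∉ Z → u.valuation K δ = 1) ∧
      (∃ u, u ∉ Sg ∧ u ∉ A ∧ Odd (ord (u.valuation K) δ)) ∧ ∀ c, S.V (D * δ) c → c = 0 := by
  obtain ⟨Q, hQ1, hQZ, hQ2⟩ := exists_QQZ S hok.ne Sg hZ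
  let d : Dat S D Sg := ⟨hok, Q, hQ1, hQ2⟩
  have hqs : ∀ T : Finset d.Q, ∀ q ∈ d.qs T, ∃ P : Sp S Sg, P.q = q := by
    intro T q hq
    unfold Dat.qs at hq
    rw [Finset.mem_image] at hq
    obtain ⟨P, -, rfl⟩ := hq
    exact ⟨P.1, rfl⟩
  have hqc : ∀ T : Finset d.Q, (d.qs T).card = T.card := fun T =>
    Finset.card_image_of_injective T fun P P' h => Subtype.ext (d.inj _ P.2 _ P'.2 h)
  have hsys : OkN d.sys := d.sys_okN
    (fun T => by
      obtain ⟨W, -, hW⟩ := exists_YG S hok.ne Sg (d.qs T)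
      have h1 := (H30GX.card_Yt hok (hqs T) hW).2
      rw [hqc] at h1
      refine h1.trans (le_of_eq (Nat.card_congr (Equiv.subtypeEquivRight fun c => hW c)))) hfr
  obtain ⟨C, hC, rc, hrc⟩ := H88OD.exists_rc K Sg
  have hqinj : Function.Injective (fun P : d.Q => P.1.q) :=
    fun P P' h => Subtype.ext (d.inj _ P.2 _ P'.2 h)
  have hA : {P : d.Q | P.1.q ∈ A}.Finite := A.finite_toSet.preimage hqinj.injOn
  have hbal : GBal (fun (g : F ≃ₐ[K] F) (x : d.X) => g • x) (d.sys.Y ∅) := by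
    refine gbal_map (fun (g : F ≃ₐ[K] F) (c : SC L) => S.ρ g • c) _ d.X.subtype
      (AddSubgroup.subtype_injective _) (fun g x => rfl) ?_
    obtain ⟨W', -, h1, h2⟩ := E3_W d ∅
    have e : W' = W := by
      ext c
      have h3 : d.qs ∅ = ∅ := Finset.image_empty _
      rw [h1, hW, h3, V_iff_Y S hok]
    rw [h2, e]
    exact hb
  obtain ⟨l, hl0, hlκ, hln, hlA, hlX⟩ :=
    main_G hsys (fun P : d.Q => rc P.1.q) hbal hA.toFinset
  have hmem1 : ∀ e ∈ l, e.1 ∈ prs l := fun e he => E3_mem.2 (Or.inl ⟨e, he, rfl⟩)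
  have hmem2 : ∀ e ∈ l, e.2 ∈ prs l := fun e he => E3_mem.2 (Or.inr ⟨e, he, rfl⟩)
  obtain ⟨δ, hδ0, hδsq, hδpos, hδout, hδodd⟩ :=
    exists_prod (M := K) (Sg : Set (HeightOneSpectrum (𝓞 K))) (fun P : d.Q => P.1.q) hqinj l hln
      (fun e he hne => hrc _ _ e.1.1.out e.2.1.out (fun h => hne (hqinj h)) (hlκ e he))
  have hT : ((prs l).image (Subtype.val : d.Q → Sp S Sg)).image Sp.q = d.qs (prs l) := by
    rw [Finset.image_image]
    rfl
  refine ⟨δ, hδ0, fun u hu => hδsq u (Finset.mem_coe.2 hu), hδpos, fun u hu => ?_, ?_,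
    fun c hc => ?_⟩
  · refine hδout u fun e _ => ⟨fun h => hu ?_, fun h => hu ?_⟩
    · rw [h]
      exact hQZ _ e.1.2
    · rw [h]
      exact hQZ _ e.2.2
  · obtain ⟨e, he⟩ := List.exists_mem_of_ne_nil l hl0
    exact ⟨e.1.1.q, e.1.1.out, fun h => hlA e.1 (hmem1 e he) (hA.mem_toFinset.2 h),
      (hδodd e he).1⟩
  · obtain ⟨hY, hfl⟩ := multi_mp hok ((prs l).image (Subtype.val : d.Q → Sp S Sg)) hδ0
      (fun u hu => hδsq u (Finset.mem_coe.2 hu)) hδpos (by
        intro u hu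
        rw [hT] at hu
        refine hδout u fun e he => ⟨fun h => hu ?_, fun h => hu ?_⟩
        · rw [h]
          exact d.mem_qs.2 (hmem1 e he)
        · rw [h]
          exact d.mem_qs.2 (hmem2 e he)) (by
        intro P hP
        rw [Finset.mem_image] at hP
        obtain ⟨P', hP', rfl⟩ := hP
        rcases E3_mem.1 hP' with ⟨e, he, rfl⟩ | ⟨e, he, rfl⟩
        · exact (hδodd e he).1
        · exact (hδodd e he).2) hc
    rw [hT] at hY
    have hx := hlX ⟨c, prs l, hY⟩ (d.mem_sys.2 hY) (by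
      intro P hP g
      change d.r P (g • _) = 0
      rw [d.r_smul, hfl P.1 (Finset.mem_image_of_mem _ hP)]
      rfl)
    exact congrArg (Subtype.val : d.X → SC L) hx

end H26GX
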