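import Pool.Agent.H30.OD.Od3
import Pool.Agent.H88.OD.Fa
import Pool.Agent.H88.GX.Ex
import Pool.Agent.H38.OD.Nd

/-!
MP_78d38b_GN (helper26): from the Selmer group over `F` to the fields between `K` and `F`, `F / K` finite Galois.
-/

set_option autoImplicit false
set_option linter.unusedSectionVars false
open scoped Classical

open WithZero NumberField IsDedekindDomain H38RT
open H38T1 (SC sc scu rep eo la si OddP)
open H76PP H36CY H24PD H73P2 H30ZO

namespace H26GX

section

variable {K F : Type} [Field K] [NumberField K] [Field F] [NumberField F] [Algebra K F]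

/-- Squares in the cubic field over `F` are squares in the cubic field over `K`. -/
theorem ev_sq_downN (hgal : IsGalois K F) {L0 L : Type}
    [Field L0] [NumberField L0] [Algebra K L0] [Field L] [NumberField L] [Algebra F L] {a b : K}
    {θ0 : L0} {θ : L} (h0 : Cub K L0 a b θ0) (h : Cub F L (algebraMap K F a) (algebraMap K F b) θ)
    {d : Fin 3 → K} (hd : ev θ0 d ≠ 0) (hN : IsSquare (Algebra.norm K (ev θ0 d)))
    (hsq : IsSquare (ev θ (fun j => algebraMap K F (d j)))) : IsSquare (ev θ0 d) := by
  have hfd : FiniteDimensional K F := Module.Finite.of_restrictScalars_finite ℚ K F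
  have hfin0 : Module.Finite K L0 := Module.Finite.of_basis h0.basis
  obtain ⟨y, hy⟩ := hsq
  obtain ⟨e, he⟩ : ∃ e : Fin 3 → F, ev θ e = y := ⟨fun j => h.co j y, (h.eq_co y).symm⟩
  rw [← he, Te_ev_mul h] at hy
  have hu := Na_inj h hy
  have hnd : Te_nf a b d ≠ 0 := by
    rw [← Te_norm h0]
    exact Algebra.norm_ne_zero_iff.2 hd
  obtain ⟨m, hm⟩ := hN
  rw [Te_norm h0] at hm
  have hn2 : Te_nf (algebraMap K F a) (algebraMap K F b) e *
      Te_nf (algebraMap K F a) (algebraMap K F b) e = algebraMap K F m * algebraMap K F m := by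
    rw [← Te_nf_mul, ← hu, Te_nf_map, hm, map_mul]
  have hn0 : Te_nf (algebraMap K F a) (algebraMap K F b) e ≠ 0 := by
    intro h1
    rw [h1, mul_zero] at hn2
    have h2 : algebraMap K F m = 0 := mul_self_eq_zero.1 hn2.symm
    have h3 : m = 0 := (map_eq_zero _).1 h2
    rw [h3, mul_zero] at hm
    exact hnd hm
  have hg : ∀ g : F ≃ₐ[K] F, ∀ j, g (e j) = e j := by
    intro g
    have hgn : Te_nf (algebraMap K F a) (algebraMap K F b) (fun j => g (e j)) =
        Te_nf (algebraMap K F a) (algebraMap K F b) e := by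
      have h1 := Te_nf_map (g : F →+* F) (algebraMap K F a) (algebraMap K F b) e
      have h2 : ((g : F →+* F) (algebraMap K F a)) = algebraMap K F a := g.commutes a
      have h3 : ((g : F →+* F) (algebraMap K F b)) = algebraMap K F b := g.commutes b
      rw [h2, h3] at h1
      refine h1.trans ?_
      rcases mul_self_eq_mul_self_iff.1 hn2 with h4 | h4
      · rw [h4]
        exact g.commutes m
      · rw [h4, map_neg]
        exact congrArg Neg.neg (g.commutes m)
    have hgs : ev θ (fun j => g (e j)) * ev θ (fun j => g (e j)) = ev θ e * ev θ e := by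
      rw [Te_ev_mul h, Te_ev_mul h, ← hu]
      congr 1
      funext j
      have h1 := Te_m3_map (g : F →+* F) (algebraMap K F a) (algebraMap K F b) e e j
      have h2 : ((g : F →+* F) (algebraMap K F a)) = algebraMap K F a := g.commutes a
      have h3 : ((g : F →+* F) (algebraMap K F b)) = algebraMap K F b := g.commutes b
      rw [h2, h3, ← hu] at h1
      exact h1.trans (g.commutes (d j))
    rcases mul_self_eq_mul_self_iff.1 hgs with h1 | h1
    · exact fun j => congrFun (Na_inj h h1) j
    · exfalso
      have h2 : ev θ (fun j => g (e j)) = ev θ (fun j => -e j) := by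
        rw [h1]
        unfold ev
        simp only [map_neg]
        ring
      have h3 := Na_inj h h2
      rw [h3] at hgn
      have h4 : Te_nf (algebraMap K F a) (algebraMap K F b) (fun j => -e j) =
          -Te_nf (algebraMap K F a) (algebraMap K F b) e := by
        unfold Te_nf
        ring
      rw [h4] at hgn
      exact hn0 (self_eq_neg.1 hgn.symm)
  have hex : ∀ j, ∃ x : K, algebraMap K F x = e j := fun j =>
    (IsGalois.mem_range_algebraMap_iff_fixed (F := K) (e j)).2 (fun g => hg g j)
  choose e0 he0 using hex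
  refine ⟨ev θ0 e0, ?_⟩
  rw [Te_ev_mul h0]
  congr 1
  funext j
  apply (algebraMap K F).injective
  rw [← Te_m3_map]
  have h1 : (fun j => algebraMap K F (e0 j)) = e := funext he0
  rw [h1]
  exact congrFun hu j

/-- **Descent of `SelTriv`** from `F` to `K`. -/
theorem selTriv_downN (hgal : IsGalois K F) {L0 L : Type}
    [Field L0] [NumberField L0] [Algebra K L0] [Field L] [NumberField L] [Algebra F L] {a b : K}
    {θ0 : L0} {θ : L} (h0 : Cub K L0 a b θ0) (h : Cub F L (algebraMap K F a) (algebraMap K F b) θ)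
    (hsel : SelTriv F L (algebraMap K F a) (algebraMap K F b) θ) : SelTriv K L0 a b θ0 := by
  intro d hd hN hf hr
  have hnd : Te_nf a b d ≠ 0 := by
    rw [← Te_norm h0]
    have hfin0 : Module.Finite K L0 := Module.Finite.of_basis h0.basis
    exact Algebra.norm_ne_zero_iff.2 hd
  have hnF : Algebra.norm F (ev θ (fun j => algebraMap K F (d j))) =
      algebraMap K F (Algebra.norm K (ev θ0 d)) := by
    rw [Te_norm h, Te_norm h0, Te_nf_map]
  have hdF : ev θ (fun j => algebraMap K F (d j)) ≠ 0 := by
    intro e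
    rw [e] at hnF
    have hfin1 : Module.Finite F L := Module.Finite.of_basis h.basis
    rw [Algebra.norm_zero] at hnF
    exact hnd (by
      rw [← Te_norm h0]
      exact (map_eq_zero _).1 hnF.symm)
  refine ev_sq_downN hgal h0 h hd hN (hsel _ hdF ?_ ?_ ?_)
  · rw [hnF]
    exact hN.map _
  · intro w
    have h1 := hf (dn K w)
    obtain ⟨x, y, z, hy, hxy, hz⟩ := h1
    obtain ⟨j, hj⟩ : ∃ j, j = (over_dn (K := K) w).map := ⟨_, rfl⟩
    have hja : ∀ x : K, j (algebraMap K ((dn K w).adicCompletion K) x) =
        algebraMap F (w.adicCompletion F) (algebraMap K F x) := by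
      intro x
      rw [hj]
      exact (over_dn (K := K) w).map_algebraMap x
    refine ⟨j x, j y, fun i => j (z i), (map_ne_zero j).2 hy, ?_, ?_⟩
    · rw [← hja, ← hja, ← map_pow, hxy, map_add, map_add, map_mul, map_pow]
    · have e1 : (fun i => j ((![x, -1, 0] : Fin 3 → _) i)) = ![j x, -1, 0] := by
        funext i
        fin_cases i <;> simp
      have e2 : (fun i => algebraMap F (w.adicCompletion F) (algebraMap K F (d i))) =
          fun i => j (algebraMap K ((dn K w).adicCompletion K) (d i)) := by
        funext i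
        rw [hja]
      rw [e2, ← e1, ← hja, ← hja]
      funext i
      rw [Te_m3_map, Te_m3_map, hz]
  · intro s
    have h1 := hr (s.comp (algebraMap K F))
    exact h1

end

end H26GX

open H26GX

namespace H88GX

variable {K F L : Type} [Field K] [NumberField K] [Field F] [NumberField F] [Field L]
  [NumberField L] [Algebra K F] [Algebra F L] {a b : K} {θ : L}

theorem Ext.cubD (S : Ext K F L a b θ) {D : K} (hD : D ≠ 0) :
    Cub F L (algebraMap K F (D ^ 2 * a)) (algebraMap K F (D ^ 3 * b))
      (algebraMap F L (algebraMap K F D) * θ) := by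
  have h := Tf_twist S.cub (D := algebraMap K F D) ((map_ne_zero _).2 hD)
  rw [map_mul, map_mul, map_pow, map_pow]
  exact h

/-- The Selmer group over `F`. -/
theorem sel_of_V (S : Ext K F L a b θ) {D : K} (h : ∀ c, S.V D c → c = 0) :
    SelTriv F L (algebraMap K F (D ^ 2 * a)) (algebraMap K F (D ^ 3 * b))
      (algebraMap F L (algebraMap K F D) * θ) := by
  intro d hd hN hf hr
  have h1 : sc (ev (algebraMap F L (algebraMap K F D) * θ) d) = 0 := by
    refine h _ ⟨?_, fun v => ?_, fun s => ?_⟩
    · rw [H30ZO.mem_HH hd]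
      exact hN
    · exact ⟨d, hd, rfl, hf v⟩
    · exact ⟨d, hd, rfl, hr s⟩
  exact (H38T1.sc_eq_zero hd).1 h1

/-- **From the Selmer group over `F` to the fields between `K` and `F`.** -/
theorem tv_between (S : Ext K F L a b θ) {D : K} (hD : D ≠ 0) (h : ∀ c, S.V D c → c = 0)
    (M : Type) [Field M] [NumberField M] [Algebra K M] [Algebra M F] [IsScalarTower K M F] :
    Tv M (algebraMap K M (D ^ 2 * a)) (algebraMap K M (D ^ 3 * b)) := by
  have hgal := S.gal
  have hfd : FiniteDimensional K F := Module.Finite.of_restrictScalars_finite ℚ K F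
  have hfdM : FiniteDimensional K M := Module.Finite.of_restrictScalars_finite ℚ K M
  have hfdF : FiniteDimensional M F := Module.Finite.of_restrictScalars_finite ℚ M F
  have hgalM : IsGalois M F := IsGalois.tower_top_of_isGalois K M F
  have hir : ∀ t : M, t ^ 3 + algebraMap K M (D ^ 2 * a) * t + algebraMap K M (D ^ 3 * b) ≠ 0 := by
    intro t h0
    apply H88OD.Cub_noroot (S.cubD hD) (algebraMap M F t)
    have h1 := congrArg (algebraMap M F) h0
    rw [map_add, map_add, map_mul, map_pow, map_zero, ← IsScalarTower.algebraMap_apply,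
      ← IsScalarTower.algebraMap_apply] at h1
    exact h1
  obtain ⟨L0, _, _, _, θ0, h0⟩ := H24PD.exists_cub hir
  have hsel : SelTriv M L0 (algebraMap K M (D ^ 2 * a)) (algebraMap K M (D ^ 3 * b)) θ0 := by
    have hc : Cub F L (algebraMap M F (algebraMap K M (D ^ 2 * a)))
        (algebraMap M F (algebraMap K M (D ^ 3 * b))) (algebraMap F L (algebraMap K F D) * θ) := by
      rw [← IsScalarTower.algebraMap_apply, ← IsScalarTower.algebraMap_apply]
      exact S.cubD hD
    refine selTriv_downN hgalM h0 hc ?_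
    rw [← IsScalarTower.algebraMap_apply, ← IsScalarTower.algebraMap_apply]
    exact sel_of_V S h
  obtain ⟨h1, h2⟩ := H24PD.descent h0 hsel
  exact ⟨h1, H30ZO.tors_of_noroot hir, h2⟩

/-- A finite set of bad primes. -/
theorem exists_ok (S : Ext K F L a b θ) {D : K} (hD : D ≠ 0)
    (Sg : Finset (HeightOneSpectrum (𝓞 K))) :
    ∃ Sg' : Finset (HeightOneSpectrum (𝓞 K)), Sg ⊆ Sg' ∧ S.Ok D Sg' := by
  have h1 : ∀ x : K, x ≠ 0 → {v : HeightOneSpectrum (𝓞 K) | v.valuation K x ≠ 1}.Finite := by
    intro x hx
    obtain ⟨α, β, hβ, hxy⟩ := IsFractionRing.div_surjective (A := 𝓞 K) x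
    have hβ0 : β ≠ 0 := nonZeroDivisors.ne_zero hβ
    have hα0 : α ≠ 0 := by
      rintro rfl
      apply hx
      rw [← hxy, map_zero, zero_div]
    refine ((H30MQ.fin_mem hα0).union (H30MQ.fin_mem hβ0)).subset fun v hv => ?_
    by_contra h
    rw [Set.mem_union, not_or] at h
    apply hv
    rw [← hxy, map_div₀, v.valuation_eq_one_iff_notMem.mpr h.1, v.valuation_eq_one_iff_notMem.mpr h.2,
      div_one]
  refine ⟨Sg ∪ ((h1 2 two_ne_zero).toFinset ∪ ((h1 _ S.dne).toFinset ∪ (h1 D hD).toFinset)),
    Finset.subset_union_left, ⟨hD, fun v hv => ?_, fun v hv => ?_, fun v hv => ?_⟩⟩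
  all_goals
    simp only [Finset.mem_union, Set.Finite.mem_toFinset, Set.mem_setOf_eq, not_or, not_not] at hv
  · exact hv.2.1
  · exact hv.2.2.1
  · exact hv.2.2.2

/-- A finite set which contains all the bad primes and the primes which ramify in `F`. -/
theorem exists_Sg (S : Ext K F L a b θ) {D : K} (hD : D ≠ 0)
    (Sg : Finset (HeightOneSpectrum (𝓞 K))) :
    ∃ Sg' : Finset (HeightOneSpectrum (𝓞 K)), Sg ⊆ Sg' ∧ S.Ok D Sg' ∧
      ∀ V : HeightOneSpectrum (𝓞 F), dn K V ∉ Sg' → ¬ Ram K V := by
  obtain ⟨Sg', h1, h2⟩ := exists_ok S hD (Sg ∪ ((H30PN.ram_fin K F).image (dn K)).toFinset)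
  refine ⟨Sg', Finset.subset_union_left.trans h1, h2, fun V hV hR => hV (h1 ?_)⟩
  refine Finset.mem_union_right _ ?_
  rw [Set.Finite.mem_toFinset]
  exact ⟨V, hR, rfl⟩

end H88GX
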