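import Pool.Agent.H88.GX.Ga
import Pool.Agent.H88.GX.Nb2
import Pool.Agent.H30.OD.Od2
import Pool.Agent.H30.OD.Vs
import Pool.Agent.H36.O2.Oi

/-!
# MP_78d38b_GN: twists which do not change the Selmer groups

The twisting factor is a square at the bad places, positive, and a unit outside the primes of `K` which split
completely in `F` and at which the cubic has no root.
-/

set_option autoImplicit false
set_option linter.unusedSectionVars false
open scoped Classical

open WithZero NumberField IsDedekindDomain H38RT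
open H38T1 (SC sc scu rep eo la si Pri OddP tp unif)
open H76PP H36CY H88GX H30ZO

namespace H30GX

open H30OD (noroot_up Wc_all)

variable {K F L : Type} [Field K] [NumberField K] [Field F] [NumberField F] [Field L]
  [NumberField L] [Algebra K F] [Algebra F L] {a b : K} {θ : L} {S : Ext K F L a b θ}
  {Sg : Finset (HeightOneSpectrum (𝓞 K))}

/-- **The Selmer group does not change.** -/
theorem V_same (S : Ext K F L a b θ) {D : K} (hok : S.Ok D Sg) {δ : K} (hδ0 : δ ≠ 0)
    (hsq : ∀ u ∈ Sg, IsSquare (algebraMap K (u.adicCompletion K) δ))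
    (hpos : ∀ s : K →+* ℝ, 0 < s δ)
    (hout : ∀ u : HeightOneSpectrum (𝓞 K), u.valuation K δ ≠ 1 →
      (∀ W : HeightOneSpectrum (𝓞 F), dn K W = u → ∀ g : F ≃ₐ[K] F, gq g • W = W → g = 1) ∧
      ∀ t : K, u.valuation K t ≤ 1 → u.valuation K (t ^ 3 + a * t + b) = 1) (c : SC L) :
    S.V (D * δ) c ↔ S.V D c := by
  have hD0 : algebraMap K F D ≠ 0 := (map_ne_zero _).2 hok.ne
  have hDδ0 : algebraMap K F (D * δ) ≠ 0 := (map_ne_zero _).2 (mul_ne_zero hok.ne hδ0)
  have hquot : algebraMap K F D / algebraMap K F (D * δ) = (algebraMap K F δ)⁻¹ := by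
    have h1 : algebraMap K F δ ≠ 0 := (map_ne_zero _).2 hδ0
    rw [map_mul]
    field_simp
  have hquot' : algebraMap K F (D * δ) / algebraMap K F D = algebraMap K F δ := by
    rw [map_mul]
    field_simp
  have key : ∀ v : HeightOneSpectrum (𝓞 F), c ∈ HH F L → (S.Lv (D * δ) v c ↔ S.Lv D v c) := by
    intro v hc
    rw [Lv_iff, Lv_iff]
    have hav : v.valuation F (algebraMap K F a) ≤ 1 := val_le (S.ha _)
    have hbv : v.valuation F (algebraMap K F b) ≤ 1 := val_le (S.hb _)
    by_cases h1 : dn K v ∈ Sg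
    · refine (H76OD.Wc_tw_iff _ hDδ0 hD0 ?_)
      rw [hquot, map_inv₀]
      refine IsSquare.inv ?_
      obtain ⟨r, hr⟩ := hsq _ h1
      have h2 : algebraMap F (v.adicCompletion F) (algebraMap K F δ) =
          (over_dn (K := K) v).map (algebraMap K ((dn K v).adicCompletion K) δ) :=
        (Pool.Agent.H10.Over.map_algebraMap _ _).symm
      rw [h2, hr, map_mul]
      exact ⟨_, rfl⟩
    · have h2 : v.valuation F 2 = 1 := by
        have := val_one (w := v) (hok.two _ h1)
        rwa [map_ofNat] at this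
      by_cases h3 : (dn K v).valuation K δ = 1
      · have hd : v.valuation F (4 * (algebraMap K F a) ^ 3 + 27 * (algebraMap K F b) ^ 2) = 1 := by
          have := val_one (w := v) (hok.dis _ h1)
          rwa [map_add, map_mul, map_mul, map_pow, map_pow, map_ofNat, map_ofNat] at this
        have hD : v.valuation F (algebraMap K F D) = 1 := val_one (hok.val _ h1)
        have hDδ : v.valuation F (algebraMap K F (D * δ)) = 1 := by
          apply val_one
          rw [map_mul, hok.val _ h1, h3, one_mul]
        rw [H76OD.Wc_good S.cub v hav hbv h2 hd hDδ hc, H76OD.Wc_good S.cub v hav hbv h2 hd hD hc]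
      · obtain ⟨hdec, hroot⟩ := hout _ h3
        have hnr : H73P2.NoRootAt v (algebraMap K F a) (algebraMap K F b) := by
          refine ⟨1, algebraMap K F a, algebraMap K F b, one_ne_zero, ?_, ?_, hav, hbv, ?_⟩
          · rw [one_pow, one_mul]
          · rw [one_pow, one_mul]
          · exact noroot_up S.gal (hdec v rfl) (S.ha _) (S.hb _) hroot
        have hnb := H36O2.Oi_nb S.cub hnr
        exact ⟨fun _ => Wc_all S.cub v hav hbv (dne_F S) h2 hnb hD0 hc,
          fun _ => Wc_all S.cub v hav hbv (dne_F S) h2 hnb hDδ0 hc⟩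
  have keyr : ∀ s : F →+* ℝ, (S.Lr (D * δ) s c ↔ S.Lr D s c) := by
    intro s
    rw [Lr_iff, Lr_iff]
    refine H76OD.Wc_tw_real s hDδ0 hD0 ?_
    rw [hquot, map_inv₀]
    exact inv_pos.2 (hpos (s.comp (algebraMap K F)))
  constructor
  · intro h
    exact ⟨h.hh, fun v => (key v h.hh).1 (h.fin v), fun s => (keyr s).1 (h.inf s)⟩
  · intro h
    exact ⟨h.hh, fun v => (key v h.hh).2 (h.fin v), fun s => (keyr s).2 (h.inf s)⟩

end H30GX
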