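import Pool.Agent.H26.GN.E3
import Pool.Agent.H26.GN.Tb
import Pool.Agent.H26.GN.Vs
import Pool.Agent.H42.GN.Hm
import Pool.Agent.H88.GX.Je
import Pool.Agent.H88.ZR.Fe
import Pool.Agent.H26.OD.Ka
import Pool.Agent.H38.OD.Ne

/-!
MP_78d38b_GN (helper26): the simultaneous theorem for finitely many curves over an arbitrary finite Galois extension `N / K`.
-/

set_option autoImplicit false
set_option linter.unusedSectionVars false
open scoped Classical

open WithZero NumberField IsDedekindDomain H38RT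
open H38T1 (SC sc scu rep eo la si OddP)
open H76PP (Cub LC ev scm dn)
open H30ZO (Tv RealAt)
open H36CY (DescAt)
open H88OD (RelZ)
open H88GX

namespace H26GX

open H26OD (Zs NRt dd3 val_NR Zs_down)
open H26GN (GBal soc Stb)

/-- The groups fixed by a Sylow 2-subgroup are not too large. -/
theorem free_of {K F L : Type} [Field K] [NumberField K] [Field F] [NumberField F] [Field L]
    [NumberField L] [Algebra K F] [Algebra F L] {a b : K} {θ : L} {S : Ext K F L a b θ} {D : K}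
    {Sg : Finset (HeightOneSpectrum (𝓞 K))} (hok : S.Ok D Sg) (hreal : RealAt K F a b)
    (hdesc : ∀ v ∈ Sg, DescAt K F v (D ^ 2 * a) (D ^ 3 * b))
    (hram : ∀ V : HeightOneSpectrum (𝓞 F), dn K V ∉ Sg → ¬ H73P2.Ram K V) : Free S D Sg := by
  have _ : IsGalois K F := S.gal
  have hfd : FiniteDimensional K F := Module.Finite.of_restrictScalars_finite ℚ K F
  have _ : Fact (Nat.Prime 2) := ⟨Nat.prime_two⟩
  let P : Sylow 2 (F ≃ₐ[K] F) := default
  refine ⟨P, P.isPGroup', ?_, fun T hinj hgood =>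
    H42GN.card_fix hok hreal hdesc hram T hinj hgood P P.isPGroup'⟩
  rw [Nat.odd_iff, ← Nat.two_dvd_ne_zero]
  exact P.not_dvd_index

/-- The trivial group is balanced. -/
theorem gbal_zero {G V : Type} [AddCommGroup V] (act : G → V → V) {W : AddSubgroup V}
    (h : ∀ x ∈ W, x = 0) : GBal act W := by
  have hs : ∀ x ∈ soc act W, x = 0 := by
    intro x hx
    have h1 : soc act W ≤ W := sSup_le fun U hU => hU.1
    exact h x (h1 hx)
  exact ⟨fun _ _ => 0, fun _ _ _ _ _ _ => (add_zero 0).symm, fun _ _ _ _ _ _ => (add_zero 0).symm,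
    fun _ _ _ _ _ => rfl, fun x hx _ => hs x hx⟩

/-- The setting for one curve. -/
structure Pk (K F : Type) [Field K] [NumberField K] [Field F] [NumberField F] [Algebra K F]
    (a b : K) : Type 1 where
  L : Type
  fL : Field L
  nL : NumberField L
  aL : Algebra F L
  θ : L
  S : Ext K F L a b θ

attribute [instance] Pk.fL Pk.nL Pk.aL

section Pk

variable {K F : Type} [Field K] [NumberField K] [Field F] [NumberField F] [Algebra K F] {a b : K}

/-- The Selmer group of the twist by `D` is trivial. -/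
def Pk.V0 (p : Pk K F a b) (D : K) : Prop := ∀ c : SC p.L, p.S.V D c → c = 0

/-- The Selmer group of the twist by `D` is balanced. -/
def Pk.Bl (p : Pk K F a b) (D : K) : Prop := ∀ W : AddSubgroup (SC p.L),
  (∀ c, c ∈ W ↔ p.S.V D c) → GBal (fun (g : F ≃ₐ[K] F) (c : SC p.L) => p.S.ρ g • c) W

theorem Pk.bl_of_v0 {p : Pk K F a b} {D : K} (h : p.V0 D) : p.Bl D := fun W hW =>
  gbal_zero _ fun x hx => h x ((hW x).1 hx)

end Pk

section

variable {K F : Type} [Field K] [NumberField K] [Field F] [NumberField F] [Algebra K F]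
  [IsGalois K F] {ι : Type} {a b : ι → 𝓞 K}

/-- Twisting by primes of another curve does not change the Selmer group. -/
theorem same_J {j i : ι} (hij : j ≠ i) (p : Pk K F (a j : K) (b j : K)) {D D' : K}
    {Sg : Finset (HeightOneSpectrum (𝓞 K))} (hok : p.S.Ok D Sg)
    (h : RelZ K Sg (Zs K F ∩ NRt a b i) D D') (c : SC p.L) : p.S.V D' c ↔ p.S.V D c := by
  have hD := h.rel.n0
  have e : D * (D' / D) = D' := mul_div_cancel₀ _ hD
  have h1 := H30GX.V_same p.S hok (δ := D' / D) (div_ne_zero h.rel.n1 hD)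
    (fun u hu => h.rel.sq u hu) (fun s => h.rel.pos s) (by
      intro u hu
      have h2 : u ∈ Zs K F ∩ NRt a b i := by
        by_contra h3
        apply hu
        rw [map_div₀, h.out u h3]
        exact div_self ((Valuation.ne_zero_iff _).2 hD)
      exact ⟨h2.1, fun t ht => val_NR (h2.2 j hij) t ht⟩) c
  rwa [e] at h1

theorem ok_all [Fintype ι] (p : ∀ j, Pk K F (a j : K) (b j : K)) {D : K} (hD : D ≠ 0)
    (Sg : Finset (HeightOneSpectrum (𝓞 K))) :
    ∃ Sg' : Finset (HeightOneSpectrum (𝓞 K)), Sg ⊆ Sg' ∧ (∀ j, (p j).S.Ok D Sg') ∧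
      ∀ V : HeightOneSpectrum (𝓞 F), dn K V ∉ Sg' → ¬ H73P2.Ram K V := by
  choose T hT hok using fun j => exists_ok (p j).S hD
    (Sg ∪ ((H30PN.ram_fin K F).image (dn K)).toFinset)
  refine ⟨(Sg ∪ ((H30PN.ram_fin K F).image (dn K)).toFinset) ∪ Finset.univ.biUnion T,
    Finset.subset_union_left.trans Finset.subset_union_left, fun j => ?_, fun V hV hR => hV ?_⟩
  · have hsub : ∀ v, v ∉ (Sg ∪ ((H30PN.ram_fin K F).image (dn K)).toFinset) ∪
        Finset.univ.biUnion T → v ∉ T j := fun v hv hv' =>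
      hv (Finset.mem_union_right _ (Finset.mem_biUnion.2 ⟨j, Finset.mem_univ _, hv'⟩))
    exact ⟨hD, fun v hv => (hok j).two v (hsub v hv), fun v hv => (hok j).dis v (hsub v hv),
      fun v hv => (hok j).val v (hsub v hv)⟩
  · refine Finset.mem_union_left _ (Finset.mem_union_right _ ?_)
    rw [Set.Finite.mem_toFinset]
    exact ⟨V, hR, rfl⟩

/-- One step. -/
theorem stepN [Fintype ι] (p : ∀ j, Pk K F (a j : K) (b j : K))
    (hR : ∀ i, Rich (p i).S (Zs K F ∩ NRt a b i))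
    (hreal : ∀ j, RealAt K F (a j : K) (b j : K)) {D : K} (hD : D ≠ 0)
    (Sg X : Finset (HeightOneSpectrum (𝓞 K)))
    (hdesc : ∀ j v, DescAt K F v (D ^ 2 * (a j : K)) (D ^ 3 * (b j : K))) (i : ι)
    (hB : (p i).Bl D) :
    ∃ D' : K, RelZ K Sg (Zs K F) D D' ∧ (p i).V0 D' ∧
      (∀ j, j ≠ i → ∀ c, (p j).S.V D' c ↔ (p j).S.V D c) ∧
      (∀ j v, DescAt K F v (D' ^ 2 * (a j : K)) (D' ^ 3 * (b j : K))) ∧
      ∃ q : HeightOneSpectrum (𝓞 K), q ∉ X ∧ Odd (ord (q.valuation K) D') := by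
  obtain ⟨Sg', hle, hok, hram⟩ := ok_all p hD Sg
  obtain ⟨W, hW⟩ := exists_VG (p i).S hD
  obtain ⟨δ, hδ0, hδsq, hδpos, hδout, ⟨u, hu, huX, hodd⟩, hV⟩ :=
    exists_twistN (hok i) (hR i) (free_of (hok i) (hreal i) (fun v _ => hdesc i v) hram) hW (hB W hW) X
  have e : D * δ / D = δ := mul_div_cancel_left₀ _ hD
  have hrel : RelZ K Sg' (Zs K F ∩ NRt a b i) D (D * δ) := by
    refine ⟨⟨hD, mul_ne_zero hD hδ0, fun v hv => ?_, fun s => ?_⟩, fun q hq => ?_⟩
    · rw [e]
      exact hδsq v hv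
    · rw [e]
      exact hδpos s
    · rw [map_mul, hδout q hq, mul_one]
  refine ⟨D * δ, ⟨⟨hD, mul_ne_zero hD hδ0, fun v hv => hrel.rel.sq v (hle hv), hrel.rel.pos⟩,
    fun q hq => hrel.out q fun h => hq h.1⟩, hV, fun j hj c => same_J hj (p j) (hok j) hrel c,
    fun j v => ?_, u, huX, ?_⟩
  · refine H38OD.descAt_transfer (fun v => v.valuation_le_one (a j))
      (fun v => v.valuation_le_one (b j)) (H88OD.Cub_noroot (p j).S.cub) hD hδ0 (hdesc j)
      (fun u => ?_) v
    by_cases h1 : u ∈ Sg'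
    · exact Or.inr (Or.inl (hδsq u h1))
    · by_cases h2 : u ∈ Zs K F
      · exact Or.inl h2
      · refine Or.inr (Or.inr ⟨hδout u fun h => h2 h.1, (hok j).two u h1, (hok j).dis u h1,
          (hok j).val u h1, fun V hV => hram V ?_⟩)
        rw [hV]
        exact h1
  · have h6 : ord (u.valuation K) D = 0 := by
      unfold ord
      rw [(hok i).val u hu, log_one, neg_zero]
    rw [ord_mul hD hδ0, h6, zero_add]
    exact hodd

/-- The loop. -/
theorem loopN [Fintype ι] (p : ∀ j, Pk K F (a j : K) (b j : K))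
    (hR : ∀ i, Rich (p i).S (Zs K F ∩ NRt a b i))
    (hreal : ∀ j, RealAt K F (a j : K) (b j : K)) {D0 : K} (hD0 : D0 ≠ 0)
    (Sg : Finset (HeightOneSpectrum (𝓞 K)))
    (hdesc : ∀ j v, DescAt K F v (D0 ^ 2 * (a j : K)) (D0 ^ 3 * (b j : K)))
    (hB : ∀ j, (p j).Bl D0) (I : Finset ι) :
    ∃ D : K, RelZ K Sg (Zs K F) D0 D ∧ (∀ i ∈ I, (p i).V0 D) ∧ (∀ j, (p j).Bl D) ∧
      ∀ j v, DescAt K F v (D ^ 2 * (a j : K)) (D ^ 3 * (b j : K)) := by
  induction I using Finset.induction_on with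
  | empty => exact ⟨D0, H88OD.RelZ.refl hD0, fun i hi => absurd hi (Finset.notMem_empty i), hB, hdesc⟩
  | insert i I hi ih =>
    obtain ⟨D, h1, h2, h3, h4⟩ := ih
    obtain ⟨D', g1, g2, g3, g4, -⟩ := stepN p hR hreal h1.rel.n1 Sg ∅ h4 i (h3 i)
    refine ⟨D', h1.trans g1, fun j hj => ?_, fun j => ?_, g4⟩
    · rw [Finset.mem_insert] at hj
      by_cases hji : j = i
      · subst hji
        exact g2
      · exact fun c hc => h2 j (hj.resolve_left hji) c ((g3 j hji c).1 hc)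
    · by_cases hji : j = i
      · subst hji
        exact Pk.bl_of_v0 g2
      · exact fun W hW => h3 j W fun c => (hW c).trans (g3 j hji c)

/-- The settings exist. -/
theorem exists_pk (a b : 𝓞 K) (hir : ∀ t : K, t ^ 3 + (a : K) * t + (b : K) ≠ 0)
    (hsq : ¬ IsSquare (algebraMap K F (dd3 (a : K) (b : K)))) :
    Nonempty (Pk K F (a : K) (b : K)) := by
  have hne : 4 * (a : K) ^ 3 + 27 * (b : K) ^ 2 ≠ 0 := by
    intro h
    apply hsq
    unfold dd3
    rw [h, neg_zero, map_zero]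
    exact ⟨0, (mul_zero 0).symm⟩
  obtain ⟨L, _, _, _, θ, ⟨S⟩⟩ := exists_ext (F := F) (fun v => v.valuation_le_one a)
    (fun v => v.valuation_le_one b) hne hir hsq
  exact ⟨⟨L, inferInstance, inferInstance, inferInstance, θ, S⟩⟩

end

/-- **The main theorem** for finitely many curves. -/
theorem main_N {K N : Type} [Field K] [NumberField K] [Field N] [NumberField N] [Algebra K N]
    [IsGalois K N] {ι : Type} [Fintype ι] [Nonempty ι] {a b : ι → 𝓞 K}
    (hir : ∀ (j : ι) (t : K), t ^ 3 + (a j : K) * t + (b j : K) ≠ 0)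
    (hind : ∀ I : Finset ι, I.Nonempty →
      ¬ IsSquare (algebraMap K N (∏ j ∈ I, dd3 (a j : K) (b j : K))))
    {D0 : K} (hD0 : D0 ≠ 0)
    (hreal : ∀ j, RealAt K N (a j : K) (b j : K))
    (hdesc : ∀ j v, DescAt K N v (D0 ^ 2 * (a j : K)) (D0 ^ 3 * (b j : K)))
    (hB : ∀ (j : ι) (p : Pk K N (a j : K) (b j : K)), p.Bl D0)
    (Sg X : Finset (HeightOneSpectrum (𝓞 K))) :
    ∃ D : K, RelZ K Sg (Zs K N) D0 D ∧ (∀ j, ∀ (M : Type) [Field M] [NumberField M] [Algebra K M]
      [Algebra M N] [IsScalarTower K M N],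
      Tv M (algebraMap K M (D ^ 2 * (a j : K))) (algebraMap K M (D ^ 3 * (b j : K)))) ∧
      ∃ q : HeightOneSpectrum (𝓞 K), q ∉ X ∧ Odd (ord (q.valuation K) D) := by
  have hsq : ∀ j, ¬ IsSquare (algebraMap K N (dd3 (a j : K) (b j : K))) := by
    intro j h
    apply hind {j} (Finset.singleton_nonempty j)
    rwa [Finset.prod_singleton]
  have p : ∀ j, Pk K N (a j : K) (b j : K) := fun j => (exists_pk (a j) (b j) (hir j) (hsq j)).some
  have hR : ∀ i, Rich (p i).S (Zs K N ∩ NRt a b i) := fun i =>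
    rich_J a b i (p i).S N hir hind
  obtain ⟨D1, h1, h2, h3, h4⟩ := loopN p hR hreal hD0 Sg hdesc (fun j => hB j (p j)) Finset.univ
  obtain ⟨i⟩ := ‹Nonempty ι›
  obtain ⟨D, g1, g2, g3, g4, g5⟩ := stepN p hR hreal h1.rel.n1 Sg X h4 i (h3 i)
  have hV : ∀ j, (p j).V0 D := by
    intro j
    by_cases hji : j = i
    · subst hji
      exact g2
    · exact fun c hc => h2 j (Finset.mem_univ j) c ((g3 j hji c).1 hc)
  refine ⟨D, h1.trans g1, fun j M _ _ _ _ _ => ?_, g5⟩
  exact tv_between (p j).S g1.rel.n1 (hV j) M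

end H26GX
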