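import Pool.Agent.H26.GN.Sc
import Pool.Agent.H88.OD.Df

/-!
MP_78d38b_GN (helper26): interface for the NECESSITY of the balancedness condition.
NT part (helper30, helper42): the Selmer group of `E_{D0}` over `N` has this structure if `D` is near to `D0` and the Selmer
group of `E_D` over `N` is trivial.  ALG part (helper49): this structure implies `GBal`.
Paper proof: /team-store/H26_78d38b_GNnec.md.
-/

set_option autoImplicit false
open scoped Classical

namespace H26GN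

/-- The relaxed group `Y` is free of rank `2 m` over `F_2[G]` (via `R`), and `W` is the radical of a symmetric invariant form `om` on
`Y` with `om (x, g x) = 0` for all `g` with `g ^ 2 = 1`. -/
structure Nec {G V : Type} [Group G] [AddCommGroup V] (act : G → V → V) (W : AddSubgroup V) where
  Y : AddSubgroup V
  stb : ∀ g, ∀ y ∈ Y, act g y ∈ Y
  m : ℕ
  R : V → Fin m ⊕ Fin m → H88OD.RG G
  Radd : ∀ x ∈ Y, ∀ y ∈ Y, ∀ i, R (x + y) i = R x i + R y i
  Rinj : ∀ x ∈ Y, (∀ i, R x i = 0) → x = 0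
  Rsurj : ∀ a : Fin m ⊕ Fin m → H88OD.RG G, ∃ y ∈ Y, ∀ i, R y i = a i
  Ract : ∀ g, ∀ y ∈ Y, ∀ i, R (act g y) i = MonoidAlgebra.of (ZMod 2) G g * R y i
  om : V → V → ZMod 2
  oadd : ∀ x ∈ Y, ∀ x' ∈ Y, ∀ y ∈ Y, om (x + x') y = om x y + om x' y
  osym : ∀ x ∈ Y, ∀ y ∈ Y, om x y = om y x
  oact : ∀ g, ∀ x ∈ Y, ∀ y ∈ Y, om (act g x) (act g y) = om x y
  oinv : ∀ g : G, g * g = 1 → ∀ x ∈ Y, om x (act g x) = 0
  rad : ∀ x, x ∈ W ↔ x ∈ Y ∧ ∀ y ∈ Y, om y x = 0

end H26GN
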