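import Pool.Agent.H26.GN.G1
import Pool.Agent.H42.GN.Ih
import Pool.Agent.H49.GN.Al
import Pool.Agent.H88.PL.Pf
import Pool.Agent.H88.GN.Kd

/-!
MP_78d38b_GN (helper26): the converse, for finitely many curves.
-/

set_option autoImplicit false
set_option linter.unusedSectionVars false
open scoped Classical

open WithZero NumberField IsDedekindDomain H38RT
open H38T1 (SC sc scu rep eo la si OddP)
open H76PP (Cub LC ev scm dn)
open H30ZO (Tv RealAt)
open H36CY (DescAt)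
open H88GX

namespace H26GX

open H26OD (Zs NRt dd3)
open H26GN (GBal)

/-- **The converse.** -/
theorem nec_N {K N : Type} [Field K] [NumberField K] [Field N] [NumberField N] [Algebra K N]
    [IsGalois K N] {ι : Type} [Fintype ι] {a b : ι → 𝓞 K}
    (hir : ∀ (j : ι) (t : K), t ^ 3 + (a j : K) * t + (b j : K) ≠ 0)
    (hsq : ∀ j, ¬ IsSquare (algebraMap K N (dd3 (a j : K) (b j : K))))
    {D0 : K} (hD0 : D0 ≠ 0) :
    ∃ S0 : Finset (HeightOneSpectrum (𝓞 K)), ∀ D : K, D ≠ 0 →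
      (∀ v ∈ S0, IsSquare (algebraMap K (v.adicCompletion K) (D / D0))) →
      (∀ s : K →+* ℝ, 0 < s (D / D0)) →
      (∀ v : HeightOneSpectrum (𝓞 K), v ∉ Zs K N → Even (ord (v.valuation K) (D / D0))) →
      (∀ j, H88PL.TvN K N (a j : K) (b j : K) D) →
      ∀ j, RealAt K N (a j : K) (b j : K) ∧
        (∀ v, DescAt K N v (D0 ^ 2 * (a j : K)) (D0 ^ 3 * (b j : K))) ∧
        ∀ p : Pk K N (a j : K) (b j : K), p.Bl D0 := by
  have p0 : ∀ j, Pk K N (a j : K) (b j : K) := fun j => (exists_pk (a j) (b j) (hir j) (hsq j)).some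
  have h3f : {v : HeightOneSpectrum (𝓞 K) | (3 : 𝓞 K) ∈ v.asIdeal}.Finite :=
    H30MQ.fin_mem (by norm_num)
  obtain ⟨Sg, hle, hok, hram⟩ := ok_all p0 hD0 h3f.toFinset
  have h3 : ∀ v : HeightOneSpectrum (𝓞 K), v ∉ Sg → v.valuation K 3 = 1 := by
    intro v hv
    have h1 : (3 : 𝓞 K) ∉ v.asIdeal := fun h => hv (hle (by
      rw [Set.Finite.mem_toFinset]
      exact h))
    have h2 := v.valuation_eq_one_iff_notMem (K := K) |>.mpr h1
    have e : ((3 : 𝓞 K) : K) = 3 := map_ofNat _ 3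
    rwa [show algebraMap (𝓞 K) K 3 = (3 : K) from map_ofNat _ 3] at h2
  refine ⟨Sg, fun D hD hS hpos hev htv j => ?_⟩
  have hne : 4 * (a j : K) ^ 3 + 27 * (b j : K) ^ 2 ≠ 0 := (p0 j).S.dne
  obtain ⟨h1, h2⟩ := H38OD.desc_of_all (N := N) (fun v => v.valuation_le_one (a j))
    (fun v => v.valuation_le_one (b j)) hne hD fun M _ => htv j M
  have hdesc : ∀ v, DescAt K N v (D0 ^ 2 * (a j : K)) (D0 ^ 3 * (b j : K)) := by
    intro v
    by_cases hv : v ∈ Sg
    · obtain ⟨r, hr⟩ := hS v hv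
      have h4 := H30ZO.descAt_twist (D := D0 / D) (r := r⁻¹) (div_ne_zero hD0 hD) (by
        rw [← inv_div, map_inv₀, hr, sq, mul_inv]) (h1 v)
      have e1 : (D0 / D) ^ 2 * (D ^ 2 * (a j : K)) = D0 ^ 2 * (a j : K) := by field_simp
      have e2 : (D0 / D) ^ 3 * (D ^ 3 * (b j : K)) = D0 ^ 3 * (b j : K) := by field_simp
      rwa [e1, e2] at h4
    · refine H38OD.descAt_good_tw ((hok j).two v hv) (fun V hV => ?_)
        (v.valuation_le_one (a j)) (v.valuation_le_one (b j)) ((hok j).dis v hv) hD0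
        ((hok j).val v hv) (H26OD.noroot_N (hir j) (hsq j))
      exact hram V (by rw [hV]; exact hv)
  refine ⟨h2, hdesc, fun p W hW => ?_⟩
  have hokp : p.S.Ok D0 Sg :=
    ⟨hD0, fun v hv => (hok j).two v hv, fun v hv => (hok j).dis v hv, fun v hv => (hok j).val v hv⟩
  have hV : ∀ c, p.S.V D c → c = 0 := fun c hc => H88GN.V_of_tv p.S hD (htv j N) c hc
  obtain ⟨h⟩ := H42GN.nec_nt p.S hokp h3 hram hD hS hpos hev h2 (fun v _ => hdesc v) hV hW
  exact H49GN.gbal_of_nec h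

end H26GX
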