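import Pool.Agent.H26.GN.B0

/-!
ROW Qa (MP_78d38b_GN, about 60 lines): the radical and the involution.

PROOF. jac_st: `A` is finite, so Artinian, `J := Ring.jacobson A` is nilpotent (`IsSemiprimaryRing.isNilpotent`), so every element of `J` is nilpotent; `J` is two-sided (instance).
For `x ∈ J` and `a : A`: `a * st x = st (x * st a)`, `x * st a ∈ J` is nilpotent, so `a * st x` is nilpotent (`st (y ^ n) = st y ^ n`), so `1 + a * st x` (and `a * st x + 1`) is a unit (`IsNilpotent.isUnit_add_one`..).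
So `st x ∈ J`: `Ideal.mem_jacobson_bot`-like characterization (`Ring.jacobson_eq_sInf_isMaximal`, `Ideal.jacobson_bot`, `Ideal.mem_jacobson_iff`: for all `a` there is `z` with `z * a * x + z - 1 ∈ ⊥`).
central_sq: `c` central with `c * c = 0`: for all `a`: `(a * c) * (a * c) = a * a * c * c = 0`, so `a * c + 1` is a unit, `c ∈ Ring.jacobson B = ⊥` (semisimple: `IsSemisimpleRing` → `Ring.jacobson B = ⊥`, `IsSemisimpleModule.jacobson_eq_bot`).
-/

set_option autoImplicit false
open scoped Classical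

namespace H26GN

private theorem aux_mem {A : Type} [Ring A] {x : A}
    (h : ∀ a : A, IsUnit (a * x + 1)) : x ∈ Ring.jacobson A := by
  rw [← Ideal.jacobson_bot, Ideal.mem_jacobson_iff]
  intro y
  obtain ⟨u, hu⟩ := h y
  refine ⟨((u⁻¹ : Aˣ) : A), ?_⟩
  have h1 : ((u⁻¹ : Aˣ) : A) * (y * x + 1) = 1 := by
    rw [← hu]; exact u.inv_mul
  have h2 : ((u⁻¹ : Aˣ) : A) * y * x + ((u⁻¹ : Aˣ) : A) - 1 = 0 := by
    have : ((u⁻¹ : Aˣ) : A) * y * x + ((u⁻¹ : Aˣ) : A) - 1
        = ((u⁻¹ : Aˣ) : A) * (y * x + 1) - 1 := by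
      rw [mul_add, mul_one, mul_assoc]
    rw [this, h1, sub_self]
  rw [h2]
  exact Submodule.zero_mem _

private theorem aux_one {A : Type} [Ring A] [TR A] : st (1 : A) = 1 := by
  have h : st ((1 : A) * st 1) = st (st 1) * st 1 := st_mul _ _
  rw [one_mul, st_st, one_mul] at h
  exact h.symm

private theorem aux_pow {A : Type} [Ring A] [TR A] (y : A) (n : ℕ) : st (y ^ n) = st y ^ n := by
  induction n with
  | zero => rw [pow_zero, pow_zero, aux_one]
  | succ n ih => rw [pow_succ, st_mul, ih, pow_succ' (st y)]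

private theorem aux_nil {A : Type} [Ring A] [Finite A] {x : A} (hx : x ∈ Ring.jacobson A) :
    IsNilpotent x := by
  haveI : IsArtinianRing A := inferInstance
  obtain ⟨n, hn⟩ := (IsSemiprimaryRing.isNilpotent : IsNilpotent (Ring.jacobson A))
  refine ⟨n, ?_⟩
  have h : x ^ n ∈ (Ring.jacobson A) ^ n := Ideal.pow_mem_pow hx n
  rw [hn] at h
  simpa using h

theorem jac_st {A : Type} [Ring A] [TR A] [Finite A] {x : A} (hx : x ∈ Ring.jacobson A) :
    st x ∈ Ring.jacobson A := by
  apply aux_mem
  intro a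
  have h1 : x * st a ∈ Ring.jacobson A := Ideal.mul_mem_right _ _ hx
  have h2 : IsNilpotent (x * st a) := aux_nil h1
  obtain ⟨n, hn⟩ := h2
  have h3 : a * st x = st (x * st a) := by rw [st_mul, st_st]
  have h4 : IsNilpotent (a * st x) := by
    refine ⟨n, ?_⟩
    rw [h3, ← aux_pow, hn, st_zero]
  exact h4.isUnit_add_one

theorem central_sq {B : Type} [Ring B] [IsSemisimpleRing B] (c : B) (hc : ∀ a, c * a = a * c)
    (h : c * c = 0) : c = 0 := by
  have hmem : c ∈ Ring.jacobson B := by
    apply aux_mem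
    intro a
    have h4 : IsNilpotent (a * c) := by
      refine ⟨2, ?_⟩
      rw [pow_two]
      calc a * c * (a * c) = a * (c * a) * c := by simp only [mul_assoc]
        _ = a * (a * c) * c := by rw [hc a]
        _ = a * a * (c * c) := by simp only [mul_assoc]
        _ = 0 := by rw [h, mul_zero]
    exact h4.isUnit_add_one
  rw [IsSemisimpleRing.jacobson_eq_bot] at hmem
  simpa using hmem

end H26GN
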