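import Mathlib

/-!
MP_78d38b_GN (helper26): the socle of a group with operators and balanced groups (definitions).
-/

set_option autoImplicit false
open scoped Classical

namespace H26GN

variable {G V : Type} [AddCommGroup V]

/-- The subgroup is stable under the operators. -/
def Stb (act : G → V → V) (U : AddSubgroup V) : Prop := ∀ g, ∀ u ∈ U, act g u ∈ U

/-- The socle: the sum of the minimal nonzero stable subgroups. -/
def soc (act : G → V → V) (W : AddSubgroup V) : AddSubgroup V :=
  sSup {U | U ≤ W ∧ U ≠ ⊥ ∧ Stb act U ∧ ∀ U' : AddSubgroup V, U' ≤ U → Stb act U' → U' = ⊥ ∨ U' = U}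

/-- The socle of `W` carries an invariant bilinear form `β` such that `β(x,y) + β(y,x)` is nondegenerate. -/
def GBal (act : G → V → V) (W : AddSubgroup V) : Prop :=
  ∃ β : V → V → ZMod 2,
    (∀ x ∈ soc act W, ∀ x' ∈ soc act W, ∀ y ∈ soc act W, β (x + x') y = β x y + β x' y) ∧
    (∀ x ∈ soc act W, ∀ y ∈ soc act W, ∀ y' ∈ soc act W, β x (y + y') = β x y + β x y') ∧
    (∀ g, ∀ x ∈ soc act W, ∀ y ∈ soc act W, β (act g x) (act g y) = β x y) ∧
    ∀ x ∈ soc act W, (∀ y ∈ soc act W, β x y + β y x = 0) → x = 0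

end H26GN
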